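import Pool.Agent.H83.BassDefs

open CategoryTheory

universe u

namespace Pool.Agent.H83.Bass

variable {R : Type u} [CommRing R]

/-- Contravariant functoriality of `Hom_R(N, I)` in `N`. -/
noncomputable def homMap {N N' : ModuleCat.{u} R} (f : N ⟶ N')
    (I : ChainComplex (ModuleCat.{u} R) ℤ) : homComplex N' I ⟶ homComplex N I :=
  (NatTrans.mapHomologicalComplex ((linearCoyoneda R (ModuleCat.{u} R)).map f.op)
    (ComplexShape.down ℤ)).app I

lemma homMap_f_apply {N N' : ModuleCat.{u} R} (f : N ⟶ N')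
    (I : ChainComplex (ModuleCat.{u} R) ℤ) (i : ℤ) (g : N' ⟶ I.X i) :
    (homMap f I).f i g = f ≫ g := rfl

lemma homMap_id (N : ModuleCat.{u} R) (I : ChainComplex (ModuleCat.{u} R) ℤ) :
    homMap (𝟙 N) I = 𝟙 _ := by
  ext i g
  exact Category.id_comp g

lemma homMap_comp {N N' N'' : ModuleCat.{u} R} (f : N ⟶ N') (g : N' ⟶ N'')
    (I : ChainComplex (ModuleCat.{u} R) ℤ) :
    homMap (f ≫ g) I = homMap g I ≫ homMap f I := by
  ext i h
  exact Category.assoc f g h

lemma homMap_add {N N' : ModuleCat.{u} R} (f g : N ⟶ N')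
    (I : ChainComplex (ModuleCat.{u} R) ℤ) :
    homMap (f + g) I = homMap f I + homMap g I := by
  ext i h
  exact Preadditive.add_comp _ _ _ f g h

lemma homMap_smul {N N' : ModuleCat.{u} R} (r : R) (f : N ⟶ N')
    (I : ChainComplex (ModuleCat.{u} R) ℤ) :
    homMap (r • f) I = r • homMap f I := by
  ext i h
  exact Linear.smul_comp _ _ _ r f h

/-- The homology module `H_i(Hom_R(N, I))`. -/
noncomputable abbrev H (I : ChainComplex (ModuleCat.{u} R) ℤ) (N : ModuleCat.{u} R) (i : ℤ) :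
    ModuleCat.{u} R := (homComplex N I).homology i

/-- The map induced on `H_i(Hom_R(-, I))`. -/
noncomputable def Hmap (I : ChainComplex (ModuleCat.{u} R) ℤ) {N N' : ModuleCat.{u} R}
    (f : N ⟶ N') (i : ℤ) : H I N' i ⟶ H I N i :=
  HomologicalComplex.homologyMap (homMap f I) i

lemma Hmap_id (I : ChainComplex (ModuleCat.{u} R) ℤ) (N : ModuleCat.{u} R) (i : ℤ) :
    Hmap I (𝟙 N) i = 𝟙 _ := by
  simp [Hmap, homMap_id]

lemma Hmap_comp (I : ChainComplex (ModuleCat.{u} R) ℤ) {N N' N'' : ModuleCat.{u} R}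
    (f : N ⟶ N') (g : N' ⟶ N'') (i : ℤ) :
    Hmap I (f ≫ g) i = Hmap I g i ≫ Hmap I f i := by
  simp [Hmap, homMap_comp, HomologicalComplex.homologyMap_comp]

lemma Hmap_add (I : ChainComplex (ModuleCat.{u} R) ℤ) {N N' : ModuleCat.{u} R}
    (f g : N ⟶ N') (i : ℤ) :
    Hmap I (f + g) i = Hmap I f i + Hmap I g i := by
  simp [Hmap, homMap_add, HomologicalComplex.homologyMap_add]

lemma Hmap_smul (I : ChainComplex (ModuleCat.{u} R) ℤ) {N N' : ModuleCat.{u} R}
    (r : R) (f : N ⟶ N') (i : ℤ) :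
    Hmap I (r • f) i = r • Hmap I f i := by
  have h : (HomologicalComplex.shortComplexFunctor (ModuleCat.{u} R)
      (ComplexShape.down ℤ) i).map (r • homMap f I) =
      r • (HomologicalComplex.shortComplexFunctor (ModuleCat.{u} R)
      (ComplexShape.down ℤ) i).map (homMap f I) := rfl
  unfold Hmap HomologicalComplex.homologyMap
  rw [homMap_smul, h, ShortComplex.homologyMap_smul]
  rfl

lemma Hmap_zero (I : ChainComplex (ModuleCat.{u} R) ℤ) {N N' : ModuleCat.{u} R} (i : ℤ) :
    Hmap I (0 : N ⟶ N') i = 0 := by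
  have := Hmap_smul I (0 : R) (0 : N ⟶ N') i
  simpa using this

/-- For a short exact sequence `0 → N' → N → N'' → 0` and a complex `I` of injective modules,
the sequence `0 → Hom(N'', I) → Hom(N, I) → Hom(N', I) → 0` of complexes. -/
noncomputable def homSeq (S : ShortComplex (ModuleCat.{u} R))
    (I : ChainComplex (ModuleCat.{u} R) ℤ) :
    ShortComplex (ChainComplex (ModuleCat.{u} R) ℤ) :=
  ShortComplex.mk (homMap S.g I) (homMap S.f I) (by
    rw [← homMap_comp, S.zero]
    ext i g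
    exact Limits.zero_comp (C := ModuleCat.{u} R) (f := g))

lemma homSeq_shortExact (S : ShortComplex (ModuleCat.{u} R)) (hS : S.ShortExact)
    (I : ChainComplex (ModuleCat.{u} R) ℤ) (hI : ∀ i, Injective (I.X i)) :
    (homSeq S I).ShortExact := by
  apply HomologicalComplex.shortExact_of_degreewise_shortExact
  intro i
  have := hI i
  have hmono := hS.mono_f
  have hepi := hS.epi_g
  refine ShortComplex.ShortExact.mk' ?_ ?_ ?_
  · rw [ShortComplex.moduleCat_exact_iff]
    intro (x : S.X₂ ⟶ I.X i) hx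
    have hx' : S.f ≫ x = 0 := hx
    exact ⟨hS.exact.desc x hx', hS.exact.g_desc x hx'⟩
  · rw [ModuleCat.mono_iff_injective]
    intro (x : S.X₃ ⟶ I.X i) (y : S.X₃ ⟶ I.X i) hxy
    have hxy' : S.g ≫ x = S.g ≫ y := hxy
    exact (cancel_epi _).1 hxy'
  · rw [ModuleCat.epi_iff_surjective]
    intro (x : S.X₁ ⟶ I.X i)
    exact ⟨Injective.factorThru x S.f, Injective.comp_factorThru x S.f⟩

end Pool.Agent.H83.Bass
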