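import Pool.Agent.H83.Bass1

open CategoryTheory

universe u

namespace Pool.Agent.H83.Bass

variable {R : Type u} [CommRing R]

lemma down_rel (i : ℤ) : (ComplexShape.down ℤ).Rel i (i - 1) := by
  simp [ComplexShape.down_Rel]

section LES

variable (S : ShortComplex (ModuleCat.{u} R)) (hS : S.ShortExact)
    (I : ChainComplex (ModuleCat.{u} R) ℤ) (hI : ∀ i, Injective (I.X i))

include hS hI

lemma exact_mid (i : ℤ) (x : H I S.X₂ i) (hx : (Hmap I S.f i).hom x = 0) :
    ∃ y : H I S.X₃ i, (Hmap I S.g i).hom y = x := by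
  have h := (homSeq_shortExact S hS I hI).homology_exact₂ i
  rw [ShortComplex.moduleCat_exact_iff] at h
  exact h x hx

/-- The connecting map `H_i(N') → H_{i-1}(N'')`. -/
noncomputable def conn (i : ℤ) : H I S.X₁ i ⟶ H I S.X₃ (i - 1) :=
  (homSeq_shortExact S hS I hI).δ i (i - 1) (down_rel i)

lemma exact_left (i : ℤ) (x : H I S.X₁ i) (hx : (conn S hS I hI i).hom x = 0) :
    ∃ y : H I S.X₂ i, (Hmap I S.f i).hom y = x := by
  have h := (homSeq_shortExact S hS I hI).homology_exact₃ i (i - 1) (down_rel i)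
  rw [ShortComplex.moduleCat_exact_iff] at h
  exact h x hx

lemma exact_right (i : ℤ) (x : H I S.X₃ (i - 1)) (hx : (Hmap I S.g (i - 1)).hom x = 0) :
    ∃ y : H I S.X₁ i, (conn S hS I hI i).hom y = x := by
  have h := (homSeq_shortExact S hS I hI).homology_exact₁ i (i - 1) (down_rel i)
  rw [ShortComplex.moduleCat_exact_iff] at h
  exact h x hx

lemma comp_conn (i : ℤ) (x : H I S.X₂ i) :
    (conn S hS I hI i).hom ((Hmap I S.f i).hom x) = 0 := by
  have h := (homSeq_shortExact S hS I hI).comp_δ i (i - 1) (down_rel i)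
  have h' := congrArg (fun f => f.hom x) h
  exact h'

lemma conn_comp (i : ℤ) (x : H I S.X₁ i) :
    (Hmap I S.g (i - 1)).hom ((conn S hS I hI i).hom x) = 0 := by
  have h := (homSeq_shortExact S hS I hI).δ_comp i (i - 1) (down_rel i)
  have h' := congrArg (fun f => f.hom x) h
  exact h'

end LES

/-- Finiteness of the middle term of an exact sequence over a Noetherian ring. -/
lemma finite_of_exact [IsNoetherianRing R] {A B D : Type u} [AddCommGroup A] [Module R A]
    [AddCommGroup B] [Module R B] [AddCommGroup D] [Module R D]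
    (f : A →ₗ[R] B) (g : B →ₗ[R] D) (h : ∀ b, g b = 0 → ∃ a, f a = b)
    [Module.Finite R A] [Module.Finite R D] : Module.Finite R B := by
  have h1 : Module.Finite R (LinearMap.ker g) := by
    have : LinearMap.ker g ≤ LinearMap.range f := by
      intro b hb
      obtain ⟨a, ha⟩ := h b hb
      exact ⟨a, ha⟩
    have hfin : (LinearMap.range f).FG := Module.Finite.iff_fg.1 inferInstance
    have : IsNoetherian R (LinearMap.range f) := isNoetherian_of_isNoetherianRing_of_finite R _
    exact Module.Finite.iff_fg.2 (Submodule.FG.of_le hfin (by assumption))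
  have h2 : Module.Finite R (LinearMap.range g) := inferInstance
  have : Module.Finite R (B ⧸ LinearMap.ker g) :=
    Module.Finite.equiv g.quotKerEquivRange.symm
  exact Module.Finite.of_submodule_quotient (LinearMap.ker g)

section Sum

variable (I : ChainComplex (ModuleCat.{u} R) ℤ)

lemma Hmap_sum {N N' : ModuleCat.{u} R} {n : ℕ} (f : Fin n → (N ⟶ N')) (i : ℤ) :
    Hmap I (∑ k, f k) i = ∑ k, Hmap I (f k) i := by
  classical
  have : ∀ s : Finset (Fin n), Hmap I (∑ k ∈ s, f k) i = ∑ k ∈ s, Hmap I (f k) i := by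
    intro s
    induction s using Finset.induction_on with
    | empty => simp [Hmap_zero]
    | insert a s ha ih => rw [Finset.sum_insert ha, Finset.sum_insert ha, Hmap_add, ih]
  exact this _

lemma eq_sum_of_decomp {A N : ModuleCat.{u} R} {n : ℕ} (p : Fin n → (N ⟶ A))
    (q : Fin n → (A ⟶ N)) (h : ∑ k, p k ≫ q k = 𝟙 N) (i : ℤ) (x : H I N i) :
    x = ∑ k, (Hmap I (p k) i).hom ((Hmap I (q k) i).hom x) := by
  have h1 : (Hmap I (∑ k, p k ≫ q k) i).hom x = x := by
    rw [h, Hmap_id]; rfl
  rw [Hmap_sum] at h1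
  conv_lhs => rw [← h1]
  rw [ModuleCat.hom_sum, LinearMap.sum_apply]
  refine Finset.sum_congr rfl fun k _ => ?_
  rw [Hmap_comp]
  rfl

lemma finite_of_decomp {A N : ModuleCat.{u} R} {n : ℕ} (p : Fin n → (N ⟶ A))
    (q : Fin n → (A ⟶ N)) (h : ∑ k, p k ≫ q k = 𝟙 N) (i : ℤ)
    (hA : Module.Finite R (H I A i)) : Module.Finite R (H I N i) := by
  let φ : (Fin n → H I A i) →ₗ[R] H I N i :=
    ∑ k, (Hmap I (p k) i).hom ∘ₗ LinearMap.proj k
  refine Module.Finite.of_surjective φ ?_
  intro x
  refine ⟨fun k => (Hmap I (q k) i).hom x, ?_⟩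
  simp only [φ, LinearMap.sum_apply, LinearMap.comp_apply, LinearMap.proj_apply]
  exact (eq_sum_of_decomp I p q h i x).symm

lemma subsingleton_of_decomp {A N : ModuleCat.{u} R} {n : ℕ} (p : Fin n → (N ⟶ A))
    (q : Fin n → (A ⟶ N)) (h : ∑ k, p k ≫ q k = 𝟙 N) (i : ℤ)
    (hA : Subsingleton (H I A i)) : Subsingleton (H I N i) := by
  have : ∀ x : H I N i, x = 0 := by
    intro x
    rw [eq_sum_of_decomp I p q h i x]
    refine Finset.sum_eq_zero fun k _ => ?_
    rw [Subsingleton.elim ((Hmap I (q k) i).hom x) 0, map_zero]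
  exact ⟨fun a b => by rw [this a, this b]⟩

end Sum

end Pool.Agent.H83.Bass
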