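import Pool.Agent.H83.Bass2

open CategoryTheory

universe u

namespace Pool.Agent.H83.Bass

variable {R : Type u} [CommRing R]

/-- The dual `Hom_R(Z, C)` as an object. -/
noncomputable abbrev DD (C : ModuleCat.{u} R) (Z : Type u) [AddCommGroup Z] [Module R Z] :
    ModuleCat.{u} R := ModuleCat.of R (Z →ₗ[R] C)

/-- Finitely generated modules `Z` with `Ext^j(Z, C) = 0` for all `j > 0`. -/
structure PC (C : ModuleCat.{u} R) (Z : Type u) [AddCommGroup Z] [Module R Z] : Prop where
  fin : Module.Finite R Z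
  ext : ∀ j : ℕ, 0 < j → Subsingleton (Abelian.Ext (ModuleCat.of R Z) C j)

lemma PC.syz [IsNoetherianRing R] {C : ModuleCat.{u} R} {Z : Type u} [AddCommGroup Z]
    [Module R Z] (h : PC C Z) {n : ℕ} (f : (Fin n → R) →ₗ[R] Z) (hf : Function.Surjective f) :
    PC C (LinearMap.ker f) ∧
      ∀ φ : LinearMap.ker f →ₗ[R] C, ∃ ψ : (Fin n → R) →ₗ[R] C,
        ψ ∘ₗ (LinearMap.ker f).subtype = φ := by
  have hS := LinearMap.shortExact_shortComplexKer hf
  have hproj : Projective (ModuleCat.of R (Fin n → R)) :=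
    (IsProjective.iff_projective (R := R) (Fin n → R)).1 inferInstance
  have hfree : ∀ j : ℕ, 0 < j → Subsingleton (Abelian.Ext (ModuleCat.of R (Fin n → R)) C j) := by
    intro j hj
    obtain ⟨k, rfl⟩ : ∃ k, j = k + 1 := ⟨j - 1, by omega⟩
    refine ⟨fun a b => ?_⟩
    rw [Abelian.Ext.eq_zero_of_projective a, Abelian.Ext.eq_zero_of_projective b]
  constructor
  · refine ⟨?_, ?_⟩
    · exact Module.Finite.iff_fg.2 (IsNoetherian.noetherian _)
    · intro j hj
      refine ⟨fun a b => ?_⟩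
      have key : ∀ a : Abelian.Ext (ModuleCat.of R (LinearMap.ker f)) C j, a = 0 := by
        intro a
        have h1 : hS.extClass.comp a (rfl : 1 + j = 1 + j) = 0 := by
          have := h.ext (1 + j) (by omega)
          exact Subsingleton.elim _ _
        obtain ⟨x, hx⟩ := Abelian.Ext.contravariant_sequence_exact₁ hS C a rfl h1
        have hx0 : x = 0 := by
          have := hfree j hj
          exact Subsingleton.elim _ _
        rw [← hx, hx0, Abelian.Ext.comp_zero]
      rw [key a, key b]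
  · intro φ
    let a : Abelian.Ext (ModuleCat.of R (LinearMap.ker f)) C 0 :=
      Abelian.Ext.mk₀ (ModuleCat.ofHom φ)
    have h1 : hS.extClass.comp a (rfl : 1 + 0 = 1) = 0 := by
      have := h.ext 1 (by omega)
      exact Subsingleton.elim _ _
    obtain ⟨x, hx⟩ := Abelian.Ext.contravariant_sequence_exact₁ hS C a rfl h1
    obtain ⟨ψ, hψ⟩ := (Abelian.Ext.mk₀_bijective (ModuleCat.of R (Fin n → R)) C).2 x
    refine ⟨ψ.hom, ?_⟩
    rw [← hψ] at hx
    have hx' : (Abelian.Ext.mk₀ (LinearMap.shortComplexKer f).f).comp (Abelian.Ext.mk₀ ψ)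
        (zero_add 0) = Abelian.Ext.mk₀ (ModuleCat.ofHom φ) := hx
    rw [Abelian.Ext.mk₀_comp_mk₀] at hx'
    have := (Abelian.Ext.mk₀_bijective (ModuleCat.of R (LinearMap.ker f)) C).1 hx'
    have h2 := congrArg ModuleCat.Hom.hom this
    exact h2

/-- The short complex `0 → Hom(Z, C) → Hom(F, C) → Hom(K, C) → 0`. -/
noncomputable def dualSeq (C : ModuleCat.{u} R) {Z : Type u} [AddCommGroup Z] [Module R Z]
    {n : ℕ} (f : (Fin n → R) →ₗ[R] Z) : ShortComplex (ModuleCat.{u} R) :=
  ModuleCat.shortComplexOfCompEqZero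
    (M := Z →ₗ[R] C) (N := (Fin n → R) →ₗ[R] C) (L := LinearMap.ker f →ₗ[R] C)
    (LinearMap.lcomp R C f) (LinearMap.lcomp R C (LinearMap.ker f).subtype) (by
      ext φ x
      simp)

lemma dualSeq_shortExact [IsNoetherianRing R] {C : ModuleCat.{u} R} {Z : Type u}
    [AddCommGroup Z] [Module R Z] (h : PC C Z) {n : ℕ} (f : (Fin n → R) →ₗ[R] Z)
    (hf : Function.Surjective f) : (dualSeq C f).ShortExact := by
  refine ModuleCat.shortComplex_shortExact _ ?_ ?_ ?_
  · intro (φ : (Fin n → R) →ₗ[R] C)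
    constructor
    · intro (hφ : φ ∘ₗ (LinearMap.ker f).subtype = 0)
      have hk : LinearMap.ker f ≤ LinearMap.ker φ := by
        intro x hx
        have := LinearMap.congr_fun hφ ⟨x, hx⟩
        simpa using this
      let e := (LinearMap.quotKerEquivOfSurjective f hf).symm
      refine ⟨((LinearMap.ker f).liftQ φ hk) ∘ₗ e.toLinearMap, ?_⟩
      change (((LinearMap.ker f).liftQ φ hk) ∘ₗ e.toLinearMap) ∘ₗ f = φ
      ext x
      simp only [LinearMap.comp_apply, LinearEquiv.coe_coe]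
      have : e (f (LinearMap.single R (fun _ => R) x 1)) =
          Submodule.Quotient.mk (LinearMap.single R (fun _ => R) x 1) := by
        rw [LinearEquiv.symm_apply_eq]
        rfl
      rw [this]
      rfl
    · rintro ⟨ψ, rfl⟩
      change ((ψ : Z →ₗ[R] C) ∘ₗ f) ∘ₗ (LinearMap.ker f).subtype = 0
      ext x
      simp
  · intro (φ : Z →ₗ[R] C) (ψ : Z →ₗ[R] C) (hφψ : φ ∘ₗ f = ψ ∘ₗ f)
    change φ = ψ
    refine LinearMap.ext fun z => ?_
    obtain ⟨x, rfl⟩ := hf z
    exact LinearMap.congr_fun hφψ x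
  · intro (φ : LinearMap.ker f →ₗ[R] C)
    obtain ⟨ψ, hψ⟩ := (h.syz f hf).2 φ
    exact ⟨ψ, hψ⟩

/-- Decomposition of the free module. -/
lemma free_decomp (n : ℕ) :
    ∑ k : Fin n, (ModuleCat.ofHom (LinearMap.proj (R := R) (φ := fun _ : Fin n => R) k) ≫
      ModuleCat.ofHom (LinearMap.single R (fun _ : Fin n => R) k)) =
      𝟙 (ModuleCat.of R (Fin n → R)) := by
  refine ModuleCat.hom_ext (LinearMap.ext fun x => ?_)
  rw [ModuleCat.hom_sum, LinearMap.sum_apply]
  simp only [ModuleCat.hom_comp, ModuleCat.hom_ofHom, LinearMap.comp_apply,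
    LinearMap.proj_apply, LinearMap.single_apply, ModuleCat.hom_id, LinearMap.id_apply]
  exact Finset.univ_sum_single x

/-- Decomposition of the dual of the free module. -/
lemma dual_decomp (C : ModuleCat.{u} R) (n : ℕ) :
    ∑ k : Fin n, ((ModuleCat.ofHom (LinearMap.applyₗ (Pi.single k (1 : R))) :
        DD C (Fin n → R) ⟶ C) ≫
      (ModuleCat.ofHom (LinearMap.smulRightₗ
        (LinearMap.proj (R := R) (φ := fun _ : Fin n => R) k)) : C ⟶ DD C (Fin n → R))) =
      𝟙 (DD C (Fin n → R)) := by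
  refine ModuleCat.hom_ext (LinearMap.ext fun φ => ?_)
  rw [ModuleCat.hom_sum, LinearMap.sum_apply]
  refine LinearMap.pi_ext' fun j => ?_
  ext
  simp [Pi.single_apply, ModuleCat.hom_comp]

end Pool.Agent.H83.Bass
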