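import Pool.Agent.H83.Bass3

open CategoryTheory

universe u

namespace Pool.Agent.H83.Bass

variable {R : Type u} [CommRing R] (I : ChainComplex (ModuleCat.{u} R) ℤ)

lemma subsingleton_H_of_isZero (N : ModuleCat.{u} R) (i : ℤ) (h : Limits.IsZero (I.X i)) :
    Subsingleton (H I N i) := by
  have h1 : Limits.IsZero ((homComplex N I).X i) := by
    have : Subsingleton ((homComplex N I).X i) :=
      ⟨fun (a : N ⟶ I.X i) (b : N ⟶ I.X i) => h.eq_of_tgt a b⟩
    exact ModuleCat.isZero_of_subsingleton _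
  have h2 : Limits.IsZero ((homComplex N I).homology i) :=
    ShortComplex.isZero_homology_of_isZero_X₂ _ h1
  exact ModuleCat.subsingleton_of_isZero h2

lemma finite_of_subsingleton' {M : Type u} [AddCommGroup M] [Module R M] (h : Subsingleton M) :
    Module.Finite R M := inferInstance

/-- Isomorphic arguments give equivalent homology modules. -/
noncomputable def Hequiv {N N' : ModuleCat.{u} R} (e : N ≅ N') (i : ℤ) :
    H I N' i ≅ H I N i where
  hom := Hmap I e.hom i
  inv := Hmap I e.inv i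
  hom_inv_id := by rw [← Hmap_comp, e.inv_hom_id, Hmap_id]
  inv_hom_id := by rw [← Hmap_comp, e.hom_inv_id, Hmap_id]

lemma finite_of_iso {N N' : ModuleCat.{u} R} (e : N ≅ N') (i : ℤ)
    (h : Module.Finite R (H I N i)) : Module.Finite R (H I N' i) :=
  Module.Finite.equiv (Hequiv I e i).toLinearEquiv.symm

lemma subsingleton_of_iso {N N' : ModuleCat.{u} R} (e : N ≅ N') (i : ℤ)
    (h : Subsingleton (H I N i)) : Subsingleton (H I N' i) :=
  (Hequiv I e i).toLinearEquiv.toEquiv.subsingleton

section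
variable [IsNoetherianRing R] (hI : ∀ i, Injective (I.X i))
include hI

/-- Finiteness of `H_i(Hom(Hom(Z, C), I))`. -/
lemma finite_dual (C : ModuleCat.{u} R) (hC : ∀ i, Module.Finite R (H I C i)) (lo : ℤ)
    (hlo : ∀ i < lo, Limits.IsZero (I.X i)) (k : ℕ) :
    ∀ (Z : Type u) [AddCommGroup Z] [Module R Z], PC C Z →
      Module.Finite R (H I (DD C Z) (lo - 1 + k)) := by
  induction k with
  | zero =>
    intro Z _ _ hZ
    have := subsingleton_H_of_isZero I (DD C Z) (lo - 1 + (0 : ℕ)) (hlo _ (by simp))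
    infer_instance
  | succ k ih =>
    intro Z _ _ hZ
    have hfin := hZ.fin
    obtain ⟨n, f, hf⟩ := Module.Finite.exists_fin' R Z
    have hS := dualSeq_shortExact hZ f hf
    have hK := (hZ.syz f hf).1
    have h3 : Module.Finite R (H I (DD C (LinearMap.ker f)) (lo - 1 + (k + 1 : ℕ) - 1)) := by
      have := ih (LinearMap.ker f) hK
      have e : lo - 1 + ((k + 1 : ℕ) : ℤ) - 1 = lo - 1 + (k : ℤ) := by push_cast; ring
      rw [e]; exact this
    have h2 : Module.Finite R (H I (DD C (Fin n → R)) (lo - 1 + (k + 1 : ℕ))) :=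
      finite_of_decomp I _ _ (dual_decomp C n) _ (hC _)
    have h2' : Module.Finite R (H I (dualSeq C f).X₂ (lo - 1 + (k + 1 : ℕ))) := h2
    have h3' : Module.Finite R (H I (dualSeq C f).X₃ (lo - 1 + (k + 1 : ℕ) - 1)) := h3
    exact finite_of_exact (Hmap I (dualSeq C f).f (lo - 1 + (k + 1 : ℕ))).hom
      (conn (dualSeq C f) hS I hI (lo - 1 + (k + 1 : ℕ))).hom
      (fun b hb => exact_left (dualSeq C f) hS I hI _ b hb)

/-- Vanishing of `H_i(Hom(Hom(Z, C), I))` below `h`. -/
lemma vanish_dual (C : ModuleCat.{u} R) (h : ℤ) (hC : ∀ i < h, Subsingleton (H I C i)) (lo : ℤ)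
    (hlo : ∀ i < lo, Limits.IsZero (I.X i)) (k : ℕ) :
    ∀ (Z : Type u) [AddCommGroup Z] [Module R Z], PC C Z → lo - 1 + k < h →
      Subsingleton (H I (DD C Z) (lo - 1 + k)) := by
  induction k with
  | zero =>
    intro Z _ _ hZ _
    exact subsingleton_H_of_isZero I (DD C Z) (lo - 1 + (0 : ℕ)) (hlo _ (by simp))
  | succ k ih =>
    intro Z _ _ hZ hlt
    have hfin := hZ.fin
    obtain ⟨n, f, hf⟩ := Module.Finite.exists_fin' R Z
    have hS := dualSeq_shortExact hZ f hf
    have hK := (hZ.syz f hf).1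
    have h3 : Subsingleton (H I (DD C (LinearMap.ker f)) (lo - 1 + (k + 1 : ℕ) - 1)) := by
      have := ih (LinearMap.ker f) hK (by push_cast at hlt ⊢; linarith)
      have e : lo - 1 + ((k + 1 : ℕ) : ℤ) - 1 = lo - 1 + (k : ℤ) := by push_cast; ring
      rw [e]; exact this
    have h2 : Subsingleton (H I (DD C (Fin n → R)) (lo - 1 + (k + 1 : ℕ))) :=
      subsingleton_of_decomp I _ _ (dual_decomp C n) _ (hC _ hlt)
    have key : ∀ x : H I (DD C Z) (lo - 1 + (k + 1 : ℕ)), x = 0 := by
      intro x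
      obtain ⟨y, hy⟩ := exact_left (dualSeq C f) hS I hI (lo - 1 + (k + 1 : ℕ)) x
        (Subsingleton.elim (α := H I (DD C (LinearMap.ker f)) (lo - 1 + (k + 1 : ℕ) - 1)) _ _)
      have hy0 : y = 0 :=
        Subsingleton.elim (α := H I (DD C (Fin n → R)) (lo - 1 + (k + 1 : ℕ))) _ _
      rw [← hy, hy0, map_zero]
      rfl
    exact ⟨fun a b => by rw [key a, key b]⟩

lemma finite_dual' (C : ModuleCat.{u} R) (hC : ∀ i, Module.Finite R (H I C i)) (lo : ℤ)
    (hlo : ∀ i < lo, Limits.IsZero (I.X i)) (Z : Type u) [AddCommGroup Z] [Module R Z]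
    (hZ : PC C Z) (i : ℤ) : Module.Finite R (H I (DD C Z) i) := by
  rcases lt_or_ge i lo with h | h
  · have := subsingleton_H_of_isZero I (DD C Z) i (hlo i h)
    infer_instance
  · obtain ⟨k, hk⟩ := Int.eq_ofNat_of_zero_le (show 0 ≤ i - (lo - 1) by linarith)
    have := finite_dual I hI C hC lo hlo k Z hZ
    have e : i = lo - 1 + (k : ℤ) := by linarith
    rw [e]; exact this

lemma vanish_dual' (C : ModuleCat.{u} R) (h : ℤ) (hC : ∀ i < h, Subsingleton (H I C i)) (lo : ℤ)
    (hlo : ∀ i < lo, Limits.IsZero (I.X i)) (Z : Type u) [AddCommGroup Z] [Module R Z]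
    (hZ : PC C Z) (i : ℤ) (hi : i < h) : Subsingleton (H I (DD C Z) i) := by
  rcases lt_or_ge i lo with h' | h'
  · exact subsingleton_H_of_isZero I (DD C Z) i (hlo i h')
  · obtain ⟨k, hk⟩ := Int.eq_ofNat_of_zero_le (show 0 ≤ i - (lo - 1) by linarith)
    have e : i = lo - 1 + (k : ℤ) := by linarith
    have := vanish_dual I hI C h hC lo hlo k Z hZ (by linarith)
    rw [e]; exact this

/-- Finiteness of `H_i(Hom(N, I))` for all finitely generated `N`. -/
lemma finite_all (hR : ∀ i, Module.Finite R (H I (ModuleCat.of R R) i)) (up : ℤ)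
    (hup : ∀ i > up, Limits.IsZero (I.X i)) (k : ℕ) :
    ∀ (N : Type u) [AddCommGroup N] [Module R N] [Module.Finite R N],
      Module.Finite R (H I (ModuleCat.of R N) (up + 1 - k)) := by
  induction k with
  | zero =>
    intro N _ _ _
    have := subsingleton_H_of_isZero I (ModuleCat.of R N) (up + 1 - (0 : ℕ)) (hup _ (by simp))
    infer_instance
  | succ k ih =>
    intro N _ _ _
    obtain ⟨n, f, hf⟩ := Module.Finite.exists_fin' R N
    have hS := LinearMap.shortExact_shortComplexKer hf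
    have hK : Module.Finite R (LinearMap.ker f) := Module.Finite.iff_fg.2 (IsNoetherian.noetherian _)
    have e : up + 1 - ((k + 1 : ℕ) : ℤ) = up + 1 - (k : ℤ) - 1 := by push_cast; ring
    have h1 : Module.Finite R (H I (ModuleCat.of R (LinearMap.ker f)) (up + 1 - k)) :=
      ih (LinearMap.ker f)
    have h2 : Module.Finite R (H I (ModuleCat.of R (Fin n → R)) (up + 1 - (k : ℤ) - 1)) :=
      finite_of_decomp I _ _ (free_decomp n) _ (hR _)
    rw [e]
    exact finite_of_exact (conn f.shortComplexKer hS I hI (up + 1 - k)).hom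
      (Hmap I f.shortComplexKer.g (up + 1 - (k : ℤ) - 1)).hom
      (fun b hb => exact_right f.shortComplexKer hS I hI _ b hb)

lemma finite_all' (hR : ∀ i, Module.Finite R (H I (ModuleCat.of R R) i)) (up : ℤ)
    (hup : ∀ i > up, Limits.IsZero (I.X i)) (N : Type u) [AddCommGroup N] [Module R N]
    [Module.Finite R N] (i : ℤ) : Module.Finite R (H I (ModuleCat.of R N) i) := by
  rcases lt_or_ge up i with h | h
  · have := subsingleton_H_of_isZero I (ModuleCat.of R N) i (hup i h)
    infer_instance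
  · obtain ⟨k, hk⟩ := Int.eq_ofNat_of_zero_le (show 0 ≤ up + 1 - i by linarith)
    have := finite_all I hI hR up hup k N
    have e : i = up + 1 - (k : ℤ) := by linarith
    rw [e]; exact this

end

end Pool.Agent.H83.Bass
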