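import Pool.Agent.H83.Bass4

open CategoryTheory IsLocalRing

universe u

namespace Pool.Agent.H83.Bass

variable {R : Type u} [CommRing R] (I : ChainComplex (ModuleCat.{u} R) ℤ)

/-- Covariant functoriality of `H_i(Hom(Hom(F, C), I))` in `F`. -/
noncomputable def Phi (C : ModuleCat.{u} R) {F F' : Type u} [AddCommGroup F] [Module R F]
    [AddCommGroup F'] [Module R F'] (w : F →ₗ[R] F') (i : ℤ) :
    H I (DD C F) i ⟶ H I (DD C F') i :=
  Hmap I (ModuleCat.ofHom (LinearMap.lcomp R C w) : DD C F' ⟶ DD C F) i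

lemma Phi_comp (C : ModuleCat.{u} R) {F F' F'' : Type u} [AddCommGroup F] [Module R F]
    [AddCommGroup F'] [Module R F'] [AddCommGroup F''] [Module R F'']
    (w : F →ₗ[R] F') (w' : F' →ₗ[R] F'') (i : ℤ) :
    Phi I C (w' ∘ₗ w) i = Phi I C w i ≫ Phi I C w' i := by
  unfold Phi
  rw [← Hmap_comp]
  rfl

lemma Phi_id (C : ModuleCat.{u} R) (F : Type u) [AddCommGroup F] [Module R F] (i : ℤ) :
    Phi I C (LinearMap.id : F →ₗ[R] F) i = 𝟙 _ := by
  have : (ModuleCat.ofHom (LinearMap.lcomp R C (LinearMap.id : F →ₗ[R] F)) :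
      DD C F ⟶ DD C F) = 𝟙 _ := by
    refine ModuleCat.hom_ext (LinearMap.ext fun φ => ?_)
    rfl
  unfold Phi
  rw [this, Hmap_id]

lemma Phi_sum_smul (C : ModuleCat.{u} R) {F F' : Type u} [AddCommGroup F] [Module R F]
    [AddCommGroup F'] [Module R F'] {n : ℕ} (r : Fin n → R) (w : Fin n → (F →ₗ[R] F')) (i : ℤ) :
    Phi I C (∑ k, r k • w k) i = ∑ k, r k • Phi I C (w k) i := by
  have : (ModuleCat.ofHom (LinearMap.lcomp R C (∑ k, r k • w k)) : DD C F' ⟶ DD C F) =
      ∑ k, r k • (ModuleCat.ofHom (LinearMap.lcomp R C (w k)) : DD C F' ⟶ DD C F) := by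
    refine ModuleCat.hom_ext (LinearMap.ext fun φ => LinearMap.ext fun x => ?_)
    simp [ModuleCat.hom_sum, LinearMap.sum_apply, LinearMap.smul_apply, map_sum]
  unfold Phi
  rw [this, Hmap_sum]
  refine Finset.sum_congr rfl fun k _ => ?_
  rw [Hmap_smul]

variable [IsLocalRing R]

/-- A presentation of a nonzero finitely generated module over a local ring admits a surjective
linear form on the free module taking the relations into the maximal ideal. -/
lemma exists_linear_form {Z : Type u} [AddCommGroup Z] [Module R Z] [Module.Finite R Z]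
    [Nontrivial Z] {n : ℕ} (f : (Fin n → R) →ₗ[R] Z) (hf : Function.Surjective f) :
    ∃ u : (Fin n → R) →ₗ[R] R, (∃ x, u x = 1) ∧ ∀ x ∈ LinearMap.ker f, u x ∈ maximalIdeal R := by
  obtain ⟨N, hN⟩ := IsCoatomic.exists_coatom (α := Submodule R Z)
  have hs : IsSimpleModule R (Z ⧸ N) := isSimpleModule_iff_isCoatom.2 hN
  obtain ⟨J, hJ, ⟨e⟩⟩ := isSimpleModule_iff_quot_maximal.1 hs
  have hJm : J = maximalIdeal R := IsLocalRing.eq_maximalIdeal hJ
  subst hJm
  let g : (Fin n → R) →ₗ[R] R ⧸ maximalIdeal R := e.toLinearMap ∘ₗ N.mkQ ∘ₗ f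
  have hg : Function.Surjective g :=
    e.surjective.comp ((Submodule.mkQ_surjective N).comp hf)
  obtain ⟨u, hu⟩ := Module.projective_lifting_property (Submodule.mkQ (maximalIdeal R)) g
    (Submodule.mkQ_surjective _)
  refine ⟨u, ?_, ?_⟩
  · obtain ⟨x, hx⟩ := hg (Submodule.Quotient.mk 1)
    have h1 : Submodule.mkQ (maximalIdeal R) (u x) = Submodule.Quotient.mk 1 := by
      rw [← hx, ← hu]; rfl
    have h2 : u x - 1 ∈ maximalIdeal R := by
      rw [Submodule.mkQ_apply] at h1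
      exact (Submodule.Quotient.eq _).1 h1
    have h3 : IsUnit (u x) := by
      by_contra hnu
      have h4 : u x ∈ maximalIdeal R := hnu
      have h5 : (1 : R) ∈ maximalIdeal R := by
        have := (maximalIdeal R).sub_mem h4 h2
        rwa [sub_sub_cancel] at this
      exact (Ideal.ne_top_iff_one _).1 (IsLocalRing.maximalIdeal.isMaximal R).ne_top h5
    obtain ⟨v, hv⟩ := h3
    refine ⟨(↑v⁻¹ : R) • x, ?_⟩
    rw [map_smul, ← hv, smul_eq_mul, Units.inv_mul]
  · intro x hx
    have h1 : Submodule.mkQ (maximalIdeal R) (u x) = 0 := by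
      have : Submodule.mkQ (maximalIdeal R) (u x) = g x := by rw [← hu]; rfl
      rw [this]
      simp only [g, LinearMap.comp_apply]
      rw [LinearMap.mem_ker.1 hx]
      simp
    rw [Submodule.mkQ_apply] at h1
    exact (Submodule.Quotient.mk_eq_zero _).1 h1

/-- Nonvanishing of `H_h(Hom(R, I))`. -/
lemma nontrivial_HR [IsNoetherianRing R] (hI : ∀ i, Injective (I.X i)) (C : ModuleCat.{u} R)
    (hCC : PC C C) [Nontrivial C] (hCfin : ∀ i, Module.Finite R (H I C i))
    (h : ℤ) (hC : ∀ i < h, Subsingleton (H I C i)) (hCh : Nontrivial (H I C h))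
    (lo : ℤ) (hlo : ∀ i < lo, Limits.IsZero (I.X i)) :
    ¬ Subsingleton (H I (DD C C) h) := by
  intro hsub
  have hfinC := hCC.fin
  obtain ⟨n₀, f₀, hf₀⟩ := Module.Finite.exists_fin' R C
  have hK₀ := (hCC.syz f₀ hf₀).1
  have hS₀ := dualSeq_shortExact hCC f₀ hf₀
  have hfinK := hK₀.fin
  obtain ⟨n₁, f₁, hf₁⟩ := Module.Finite.exists_fin' R (LinearMap.ker f₀)
  have hK₁ := (hK₀.syz f₁ hf₁).1
  have hS₁ := dualSeq_shortExact hK₀ f₁ hf₁
  obtain ⟨v, ⟨x₀, hx₀⟩, hv⟩ := exists_linear_form f₀ hf₀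
  let g : (Fin n₁ → R) →ₗ[R] (Fin n₀ → R) := (LinearMap.ker f₀).subtype ∘ₗ f₁
  -- `Phi g` is surjective
  have hsurj_g : Function.Surjective (Phi I C g h).hom := by
    intro x
    obtain ⟨y, hy⟩ := exact_mid (dualSeq C f₀) hS₀ I hI h x
      (Subsingleton.elim (α := H I (DD C C) h) _ _)
    have hz : Subsingleton (H I (DD C (LinearMap.ker f₁)) (h - 1)) :=
      vanish_dual' I hI C h hC lo hlo _ hK₁ (h - 1) (by linarith)
    obtain ⟨z, hz⟩ := exact_left (dualSeq C f₁) hS₁ I hI h y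
      (Subsingleton.elim (α := H I (DD C (LinearMap.ker f₁)) (h - 1)) _ _)
    refine ⟨z, ?_⟩
    have this := Phi_comp I C f₁ (LinearMap.ker f₀).subtype h
    have h3 := congrArg (fun φ => φ.hom z) this
    refine h3.trans ?_
    change (Hmap I (dualSeq C f₀).g h).hom ((Hmap I (dualSeq C f₁).f h).hom z) = x
    exact (congrArg (Hmap I (dualSeq C f₀).g h).hom hz).trans hy
  -- `Phi v` is surjective
  let s : R →ₗ[R] (Fin n₀ → R) := LinearMap.toSpanSingleton R _ x₀
  have hvs : v ∘ₗ s = LinearMap.id := by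
    ext
    simp [s, hx₀]
  have hsurj_v : Function.Surjective (Phi I C v h).hom := by
    intro x
    refine ⟨(Phi I C s h).hom x, ?_⟩
    have h1 := Phi_comp I C s v h
    rw [hvs, Phi_id] at h1
    have h2 := congrArg (fun φ => φ.hom x) h1
    exact h2.symm
  have hsurj : Function.Surjective (Phi I C (v ∘ₗ g) h).hom := by
    rw [Phi_comp]
    exact hsurj_v.comp hsurj_g
  -- but the image of `Phi (v ∘ g)` lies in `𝔪 •`.
  have hmem : ∀ x, v (g x) ∈ maximalIdeal R := fun x => hv _ (f₁ x).2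
  have hdec : v ∘ₗ g = ∑ k : Fin n₁, (v (g (Pi.single k 1))) •
      (LinearMap.proj (R := R) (φ := fun _ : Fin n₁ => R) k) := by
    refine LinearMap.pi_ext' fun j => ?_
    ext
    simp [Pi.single_apply]
  have hrange : ∀ x, (Phi I C (v ∘ₗ g) h).hom x ∈
      maximalIdeal R • (⊤ : Submodule R (H I (DD C R) h)) := by
    intro x
    rw [hdec, Phi_sum_smul, ModuleCat.hom_sum, LinearMap.sum_apply]
    refine Submodule.sum_mem _ fun k _ => ?_
    rw [ModuleCat.hom_smul, LinearMap.smul_apply]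
    exact Submodule.smul_mem_smul (hmem _) trivial
  have htop : (⊤ : Submodule R (H I (DD C R) h)) = maximalIdeal R • ⊤ := by
    refine le_antisymm ?_ le_top
    intro y _
    obtain ⟨x, rfl⟩ := hsurj y
    exact hrange x
  let e : DD C R ≅ C := (LinearMap.ringLmapEquivSelf R R C).toModuleIso
  have hfin : Module.Finite R (H I (DD C R) h) := finite_of_iso I e.symm h (hCfin h)
  have hnt : Nontrivial (H I (DD C R) h) :=
    (Hequiv I e h).toLinearEquiv.symm.toEquiv.nontrivial
  exact Submodule.top_ne_ideal_smul_of_le_jacobson_annihilator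
    (IsLocalRing.maximalIdeal_le_jacobson _) htop

end Pool.Agent.H83.Bass
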