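import Pool.Agent.H83.Bass5

open CategoryTheory IsLocalRing RingTheory.Sequence
open scoped Pointwise

universe u

namespace Pool.Agent.H83.Bass

variable {R : Type u} [CommRing R] (I : ChainComplex (ModuleCat.{u} R) ℤ)
  (hI : ∀ i, Injective (I.X i))

section
include hI

lemma reg_vanish (A : Type u) [AddCommGroup A] [Module R A] (x : R) (hx : IsSMulRegular A x)
    (c : ℤ) (hA : ∀ j < c, Subsingleton (H I (ModuleCat.of R A) j)) :
    ∀ j < c - 1, Subsingleton (H I (ModuleCat.of R (QuotSMulTop x A)) j) := by
  intro j hj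
  have hS := IsSMulRegular.smulShortComplex_shortExact (M := ModuleCat.of R A) hx
  have key : ∀ y : H I (ModuleCat.of R (QuotSMulTop x A)) j, y = 0 := by
    intro y
    obtain ⟨i, rfl⟩ : ∃ i, j = i - 1 := ⟨j + 1, by ring⟩
    have h1 : Subsingleton (H I (ModuleCat.of R A) (i - 1)) := hA _ (by linarith)
    have h2 : Subsingleton (H I (ModuleCat.of R A) i) := hA _ (by linarith)
    obtain ⟨z, hz⟩ := exact_right _ hS I hI i y
      (Subsingleton.elim (α := H I (ModuleCat.of R A) (i - 1)) _ _)
    have hz0 : z = 0 := Subsingleton.elim (α := H I (ModuleCat.of R A) i) _ _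
    rw [← hz, hz0, map_zero]
    rfl
  exact ⟨fun a b => by rw [key a, key b]⟩

lemma reg_nonvanish [IsLocalRing R] (A : Type u) [AddCommGroup A] [Module R A] (x : R)
    (hx : IsSMulRegular A x) (hxm : x ∈ maximalIdeal R)
    (c : ℤ) (hfin : Module.Finite R (H I (ModuleCat.of R A) c))
    (hA : ¬ Subsingleton (H I (ModuleCat.of R A) c)) :
    ¬ Subsingleton (H I (ModuleCat.of R (QuotSMulTop x A)) (c - 1)) := by
  intro hsub
  have hS := IsSMulRegular.smulShortComplex_shortExact (M := ModuleCat.of R A) hx
  have hnt : Nontrivial (H I (ModuleCat.of R A) c) := not_subsingleton_iff_nontrivial.1 hA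
  refine Submodule.top_ne_pointwise_smul_of_mem_jacobson_annihilator
    (M := H I (ModuleCat.of R A) c) (IsLocalRing.maximalIdeal_le_jacobson _ hxm) ?_
  refine le_antisymm ?_ le_top
  intro y _
  obtain ⟨z, hz⟩ := exact_left _ hS I hI c y
    (Subsingleton.elim (α := H I (ModuleCat.of R (QuotSMulTop x A)) (c - 1)) _ _)
  have h1 : Hmap I (ModuleCat.smulShortComplex (ModuleCat.of R A) x).f c = x • 𝟙 _ := by
    have h2 : (ModuleCat.smulShortComplex (ModuleCat.of R A) x).f = x • 𝟙 (ModuleCat.of R A) :=
      rfl
    have h3 := Hmap_smul I x (𝟙 (ModuleCat.of R A)) c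
    rw [Hmap_id] at h3
    exact h3
  have h4 : x • z = y := by
    rw [← hz, h1]
    rfl
  rw [← h4]
  exact Submodule.smul_mem_pointwise_smul _ _ _ trivial

/-- A regular sequence of length `n` shifts the bottom nonvanishing degree down by `n`. -/
lemma regseq_bound [IsLocalRing R] [IsNoetherianRing R]
    (hfin : ∀ (N : Type u) [AddCommGroup N] [Module R N] [Module.Finite R N] (i : ℤ),
      Module.Finite R (H I (ModuleCat.of R N) i))
    (rs : List R) (hm : ∀ r ∈ rs, r ∈ maximalIdeal R) :
    ∀ (A : Type u) [AddCommGroup A] [Module R A] [Module.Finite R A] (c : ℤ),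
      IsWeaklyRegular A rs → ¬ Subsingleton (H I (ModuleCat.of R A) c) →
      ∃ (B : ModuleCat.{u} R), ¬ Subsingleton (H I B (c - rs.length)) := by
  induction rs with
  | nil =>
    intro A _ _ _ c _ hA
    exact ⟨ModuleCat.of R A, by simpa using hA⟩
  | cons r rs ih =>
    intro A _ _ _ c hreg hA
    rw [isWeaklyRegular_cons_iff] at hreg
    have h1 := reg_nonvanish I hI A r hreg.1 (hm r (by simp)) c (hfin A c) hA
    obtain ⟨B, hB⟩ := ih (fun r' hr' => hm r' (by simp [hr'])) (QuotSMulTop r A) (c - 1) hreg.2 h1
    refine ⟨B, ?_⟩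
    have e : c - ((r :: rs).length : ℤ) = c - 1 - (rs.length : ℤ) := by
      simp; ring
    rw [e]; exact hB

/-- If the maximal length of a regular sequence in the maximal ideal on `A` is `n`, there is
`B` containing the residue field with vanishing below `c - n`. -/
lemma regseq_vanish [IsLocalRing R] [IsNoetherianRing R] (n : ℕ) :
    ∀ (A : Type u) [AddCommGroup A] [Module R A] [Module.Finite R A] [Nontrivial A] (c : ℤ),
      (∀ j < c, Subsingleton (H I (ModuleCat.of R A) j)) →
      (∃ rs : List R, rs.length = n ∧ (∀ r ∈ rs, r ∈ maximalIdeal R) ∧ IsWeaklyRegular A rs) →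
      (∀ rs : List R, (∀ r ∈ rs, r ∈ maximalIdeal R) → IsWeaklyRegular A rs → rs.length ≤ n) →
      ∃ (B : ModuleCat.{u} R) (f : (R ⧸ maximalIdeal R) →ₗ[R] B), Module.Finite R B ∧
        Function.Injective f ∧ ∀ j < c - n, Subsingleton (H I B j) := by
  induction n with
  | zero =>
    intro A _ _ _ _ c hA _ hmax
    have hzero : ((maximalIdeal R : Ideal R) : Set R) ⊆ ⋃ p ∈ associatedPrimes R A, p := by
      rw [biUnion_associatedPrimes_eq_compl_regular]
      intro x hx hreg
      have := hmax [x] (by simpa using hx) (by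
        rw [isWeaklyRegular_cons_iff]
        exact ⟨hreg, IsWeaklyRegular.nil _ _⟩)
      simp at this
    obtain ⟨p, hp, hle⟩ := (Ideal.subset_union_prime_finite (associatedPrimes.finite R A)
      (f := id) ⊥ ⊥ (fun i hi _ _ => hi.isPrime)).1 hzero
    have hpm : maximalIdeal R = p :=
      (IsLocalRing.maximalIdeal.isMaximal R).eq_of_le hp.isPrime.ne_top hle
    subst hpm
    obtain ⟨_, f, hf⟩ := (isAssociatedPrime_iff_exists_injective_linearMap _ _).1 hp
    exact ⟨ModuleCat.of R A, f, inferInstance, hf, by simpa using hA⟩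
  | succ n ih =>
    intro A _ _ _ _ c hA hex hmax
    obtain ⟨rs, hlen, hm, hreg⟩ := hex
    match rs, hlen, hm, hreg with
    | r :: rs, hlen, hm, hreg =>
      rw [isWeaklyRegular_cons_iff] at hreg
      have hrm : r ∈ maximalIdeal R := hm r (by simp)
      have hnt : Nontrivial (QuotSMulTop r A) := nontrivial_quotSMulTop_of_mem_maximalIdeal A hrm
      obtain ⟨B, f, h1, h2, h3⟩ := ih (QuotSMulTop r A) (c - 1)
        (reg_vanish I hI A r hreg.1 c hA)
        ⟨rs, by simpa using hlen, fun r' hr' => hm r' (by simp [hr']), hreg.2⟩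
        (by
          intro rs' hm' hreg'
          have := hmax (r :: rs') (by
            intro s hs
            rcases List.mem_cons.1 hs with rfl | hs
            · exact hrm
            · exact hm' s hs) (by
            rw [isWeaklyRegular_cons_iff]
            exact ⟨hreg.1, hreg'⟩)
          simpa using this)
      refine ⟨B, f, h1, h2, ?_⟩
      intro j hj
      exact h3 j (by push_cast at hj; linarith)

/-- Vanishing of `H_j(Hom(N, I))` for all finitely generated `N` and `j < c'`. -/
lemma vanish_all [IsLocalRing R] [IsNoetherianRing R]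
    (hfin : ∀ (N : Type u) [AddCommGroup N] [Module R N] [Module.Finite R N] (i : ℤ),
      Module.Finite R (H I (ModuleCat.of R N) i))
    (c : ℤ) (B : ModuleCat.{u} R) (f : (R ⧸ maximalIdeal R) →ₗ[R] B) (hBfin : Module.Finite R B)
    (hf : Function.Injective f) (hB : ∀ j < c, Subsingleton (H I B j))
    (lo : ℤ) (hlo : ∀ i < lo, Limits.IsZero (I.X i)) (k : ℕ) :
    ∀ (N : Type u) [AddCommGroup N] [Module R N] [Module.Finite R N], lo - 1 + k < c →
      Subsingleton (H I (ModuleCat.of R N) (lo - 1 + k)) := by
  induction k with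
  | zero =>
    intro N _ _ _ _
    exact subsingleton_H_of_isZero I _ (lo - 1 + (0 : ℕ)) (hlo _ (by simp))
  | succ k ih =>
    intro N _ _ hNfin hlt
    have e : lo - 1 + ((k + 1 : ℕ) : ℤ) - 1 = lo - 1 + (k : ℤ) := by push_cast; ring
    have hk : lo - 1 + (k : ℤ) < c := by push_cast at hlt; linarith
    -- general step: for a short exact sequence `0 → N' → N → N'' → 0`
    have hprev : ∀ (N : Type u) [AddCommGroup N] [Module R N] [Module.Finite R N],
        Subsingleton (H I (ModuleCat.of R N) (lo - 1 + (k + 1 : ℕ) - 1)) := by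
      intro N _ _ _
      rw [e]; exact ih N hk
    induction hNfin using IsNoetherianRing.induction_on_isQuotientEquivQuotientPrime R with
    | subsingleton N =>
      have key : ∀ y : H I (ModuleCat.of R N) (lo - 1 + (k + 1 : ℕ)), y = 0 := by
        intro y
        have h0 : (𝟙 (ModuleCat.of R N)) = 0 := by
          refine ModuleCat.hom_ext (LinearMap.ext fun x => Subsingleton.elim _ _)
        have h1 := Hmap_id I (ModuleCat.of R N) (lo - 1 + (k + 1 : ℕ))
        rw [h0, Hmap_zero] at h1
        have h2 := congrArg (fun φ => φ.hom y) h1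
        exact h2.symm
      exact ⟨fun a b => by rw [key a, key b]⟩
    | quotient N p e' =>
      by_cases hp : p.1 = maximalIdeal R
      · -- the residue field
        let g : N →ₗ[R] B := f ∘ₗ (Submodule.quotEquivOfEq _ _ hp).toLinearMap ∘ₗ e'.toLinearMap
        have hg : Function.Injective g := by
          refine hf.comp ?_
          exact (Submodule.quotEquivOfEq _ _ hp).injective.comp e'.injective
        let S : ShortComplex (ModuleCat.{u} R) :=
          ModuleCat.shortComplexOfCompEqZero g (LinearMap.range g).mkQ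
            (LinearMap.range_mkQ_comp g)
        have hS : S.ShortExact := by
          refine ModuleCat.shortComplex_shortExact _ ?_ hg (Submodule.mkQ_surjective _)
          exact LinearMap.exact_map_mkQ_range g
        have key : ∀ y : H I (ModuleCat.of R N) (lo - 1 + (k + 1 : ℕ)), y = 0 := by
          intro y
          have h3 : Subsingleton (H I (ModuleCat.of R (B ⧸ LinearMap.range g))
              (lo - 1 + (k + 1 : ℕ) - 1)) := hprev _
          obtain ⟨z, hz⟩ := exact_left S hS I hI (lo - 1 + (k + 1 : ℕ)) y
            (Subsingleton.elim (α := H I (ModuleCat.of R (B ⧸ LinearMap.range g))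
              (lo - 1 + (k + 1 : ℕ) - 1)) _ _)
          have h2 : Subsingleton (H I B (lo - 1 + (k + 1 : ℕ))) := hB _ hlt
          have hz0 : z = 0 := Subsingleton.elim (α := H I B (lo - 1 + (k + 1 : ℕ))) _ _
          rw [← hz, hz0, map_zero]
        exact ⟨fun a b => by rw [key a, key b]⟩
      · -- a non-maximal prime
        have hne : ∃ x ∈ maximalIdeal R, x ∉ p.1 := by
          by_contra hcon
          push Not at hcon
          exact hp ((IsLocalRing.maximalIdeal.isMaximal R).eq_of_le p.2.ne_top hcon).symm
        obtain ⟨x, hxm, hxp⟩ := hne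
        have hreg : IsSMulRegular N x := by
          intro a b hab
          have h1 : x • e' (a - b) = 0 := by
            rw [← map_smul, smul_sub, sub_eq_zero.2 hab, map_zero]
          obtain ⟨y, hy⟩ := Submodule.mkQ_surjective p.1 (e' (a - b))
          rw [← hy, ← map_smul, Submodule.mkQ_apply, Submodule.Quotient.mk_eq_zero,
            smul_eq_mul] at h1
          have h2 : y ∈ p.1 := (p.2.mem_or_mem h1).resolve_left hxp
          have h3 : e' (a - b) = 0 := by
            rw [← hy, Submodule.mkQ_apply, Submodule.Quotient.mk_eq_zero]; exact h2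
          have h4 : a - b = 0 := (LinearEquiv.map_eq_zero_iff e').1 h3
          exact sub_eq_zero.1 h4
        by_contra hcon
        exact reg_nonvanish I hI N x hreg hxm _ (hfin N _) hcon (hprev _)
    | exact N₁ N₂ N₃ f' g' hf' hg' hex h₁ h₃ =>
      let S : ShortComplex (ModuleCat.{u} R) :=
        ModuleCat.shortComplexOfCompEqZero f' g' hex.linearMap_comp_eq_zero
      have hS : S.ShortExact := ModuleCat.shortComplex_shortExact _ hex hf' hg'
      have key : ∀ y : H I (ModuleCat.of R N₂) (lo - 1 + (k + 1 : ℕ)), y = 0 := by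
        intro y
        obtain ⟨z, hz⟩ := exact_mid S hS I hI (lo - 1 + (k + 1 : ℕ)) y
          (Subsingleton.elim (α := H I (ModuleCat.of R N₁) (lo - 1 + (k + 1 : ℕ))) _ _)
        have hz0 : z = 0 :=
          Subsingleton.elim (α := H I (ModuleCat.of R N₃) (lo - 1 + (k + 1 : ℕ))) _ _
        rw [← hz, hz0, map_zero]
      exact ⟨fun a b => by rw [key a, key b]⟩

end

end Pool.Agent.H83.Bass
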