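import Pool.Agent.H83.Bass6

open CategoryTheory

universe u

namespace Pool.Agent.H83.Bass

variable {R : Type u} [CommRing R]

section general

variable (S : ShortComplex (ModuleCat.{u} R))

lemma exists_cycle (y : S.X₂) (hy : S.g.hom y = 0) : ∃ z : S.cycles, S.iCycles.hom z = y := by
  have h : (ShortComplex.mk S.iCycles S.g S.iCycles_g).Exact :=
    ShortComplex.exact_of_f_is_kernel _ S.cyclesIsKernel
  rw [ShortComplex.moduleCat_exact_iff] at h
  exact h y hy

lemma exists_boundary (z : S.cycles) (hz : S.homologyπ.hom z = 0) :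
    ∃ w : S.X₁, S.toCycles.hom w = z := by
  have h : (ShortComplex.mk S.toCycles S.homologyπ S.toCycles_comp_homologyπ).Exact :=
    ShortComplex.exact_of_g_is_cokernel _ S.homologyIsCokernel
  rw [ShortComplex.moduleCat_exact_iff] at h
  exact h z hz

lemma homologyπ_surj : Function.Surjective S.homologyπ.hom :=
  (ModuleCat.epi_iff_surjective _).1 inferInstance

lemma iCycles_inj : Function.Injective S.iCycles.hom :=
  (ModuleCat.mono_iff_injective _).1 inferInstance

variable {S}

lemma isIso_homologyMap {S₂ : ShortComplex (ModuleCat.{u} R)} (φ : S ⟶ S₂)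
    (h₁ : Function.Surjective φ.τ₁.hom) (h₂ : Function.Injective φ.τ₂.hom)
    (h : ∀ x : S₂.X₂, S₂.g.hom x = 0 → ∃ y : S.X₂, S.g.hom y = 0 ∧ φ.τ₂.hom y = x) :
    IsIso (ShortComplex.homologyMap φ) := by
  have hci : Function.Injective (ShortComplex.cyclesMap φ).hom := by
    intro a b hab
    apply iCycles_inj
    apply h₂
    have e := ShortComplex.cyclesMap_i φ
    have e1 := congrArg (fun ψ => ψ.hom a) e
    have e2 := congrArg (fun ψ => ψ.hom b) e
    refine (e1.symm.trans ?_).trans e2
    exact congrArg S₂.iCycles.hom hab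
  have hcs : Function.Surjective (ShortComplex.cyclesMap φ).hom := by
    intro w
    obtain ⟨y, hy, hyx⟩ := h (S₂.iCycles.hom w) (by
      have := congrArg (fun ψ => ψ.hom w) S₂.iCycles_g
      exact this)
    obtain ⟨z, hz⟩ := exists_cycle S y hy
    refine ⟨z, ?_⟩
    apply iCycles_inj
    have e := congrArg (fun ψ => ψ.hom z) (ShortComplex.cyclesMap_i φ)
    refine e.trans ?_
    change φ.τ₂.hom (S.iCycles.hom z) = _
    rw [hz, hyx]
  have hmono : Mono (ShortComplex.homologyMap φ) := by
    rw [ModuleCat.mono_iff_injective]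
    rw [injective_iff_map_eq_zero]
    intro x hx
    obtain ⟨z, rfl⟩ := homologyπ_surj S x
    have e := congrArg (fun ψ => ψ.hom z) (ShortComplex.homologyπ_naturality φ)
    have e' : S₂.homologyπ.hom ((ShortComplex.cyclesMap φ).hom z) = 0 := e.symm.trans hx
    obtain ⟨w, hw⟩ := exists_boundary S₂ _ e'
    obtain ⟨w', rfl⟩ := h₁ w
    have e2 := congrArg (fun ψ => ψ.hom w') (ShortComplex.toCycles_naturality φ)
    have e3 : (ShortComplex.cyclesMap φ).hom (S.toCycles.hom w') =
        (ShortComplex.cyclesMap φ).hom z := by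
      refine Eq.trans ?_ hw
      exact e2
    have e4 := hci e3
    rw [← e4]
    have e5 := congrArg (fun ψ => ψ.hom w') S.toCycles_comp_homologyπ
    exact e5
  have hepi : Epi (ShortComplex.homologyMap φ) := by
    rw [ModuleCat.epi_iff_surjective]
    intro x
    obtain ⟨z, rfl⟩ := homologyπ_surj S₂ x
    obtain ⟨z', rfl⟩ := hcs z
    refine ⟨S.homologyπ.hom z', ?_⟩
    have e := congrArg (fun ψ => ψ.hom z') (ShortComplex.homologyπ_naturality φ)
    exact e
  exact isIso_of_mono_of_epi _

end general

section trunc

variable (I : ChainComplex (ModuleCat.{u} R) ℤ) (n : ℤ)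

open Classical in
/-- The components of the truncated complex. -/
noncomputable def trSub (i : ℤ) : Submodule R (I.X i) :=
  if i < n then ⊥ else if i = n then LinearMap.ker (I.d i (i - 1)).hom else ⊤

lemma trSub_lt {i : ℤ} (h : i < n) : trSub I n i = ⊥ := by simp [trSub, h]

lemma trSub_eq : trSub I n n = LinearMap.ker (I.d n (n - 1)).hom := by simp [trSub]

lemma trSub_gt {i : ℤ} (h : n < i) : trSub I n i = ⊤ := by
  have h1 : ¬ i < n := by omega
  have h2 : ¬ i = n := by omega
  simp [trSub, h1, h2]

lemma trSub_d (i j : ℤ) : ∀ x ∈ trSub I n i, (I.d i j).hom x ∈ trSub I n j := by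
  intro x hx
  by_cases hij : (ComplexShape.down ℤ).Rel i j
  · have hj : j = i - 1 := by
      have : j + 1 = i := hij
      omega
    subst hj
    rcases lt_trichotomy i n with h | h | h
    · rw [trSub_lt I n h, Submodule.mem_bot] at hx
      rw [hx, map_zero]
      exact zero_mem _
    · subst h
      rw [trSub_eq, LinearMap.mem_ker] at hx
      rw [hx]
      exact zero_mem _
    · rcases eq_or_lt_of_le (show n ≤ i - 1 by omega) with h' | h'
      · subst h'
        rw [trSub_eq, LinearMap.mem_ker]
        have := I.d_comp_d i (i - 1) (i - 1 - 1)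
        have := congrArg (fun ψ => ψ.hom x) this
        exact this
      · rw [trSub_gt I n h']
        trivial
  · rw [I.shape i j hij]
    exact zero_mem _

/-- The truncated complex. -/
noncomputable def tr : ChainComplex (ModuleCat.{u} R) ℤ where
  X i := ModuleCat.of R (trSub I n i)
  d i j := ModuleCat.ofHom ((I.d i j).hom.restrict (trSub_d I n i j))
  shape i j hij := by
    refine ModuleCat.hom_ext (LinearMap.ext fun x => Subtype.ext ?_)
    have := congrArg (fun ψ => ψ.hom x.1) (I.shape i j hij)
    exact this
  d_comp_d' i j k hij hjk := by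
    refine ModuleCat.hom_ext (LinearMap.ext fun x => Subtype.ext ?_)
    have := congrArg (fun ψ => ψ.hom x.1) (I.d_comp_d' i j k hij hjk)
    exact this

/-- The inclusion of the truncated complex. -/
noncomputable def trι : tr I n ⟶ I where
  f i := ModuleCat.ofHom (trSub I n i).subtype
  comm' i j hij := by
    refine ModuleCat.hom_ext (LinearMap.ext fun x => ?_)
    rfl

end trunc

end Pool.Agent.H83.Bass
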