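import Pool.Agent.H83.Bass7

open CategoryTheory

universe u

namespace Pool.Agent.H83.Bass

variable {R : Type u} [CommRing R] (I : ChainComplex (ModuleCat.{u} R) ℤ)

/-- Vanishing homology of `Hom(N, I)` in elementary terms. -/
lemma exact_of_subsingleton (N : ModuleCat.{u} R) (i : ℤ) (h : Subsingleton (H I N i))
    (φ : N ⟶ I.X i) (hφ : φ ≫ I.d i (i - 1) = 0) :
    ∃ ψ : N ⟶ I.X (i + 1), ψ ≫ I.d (i + 1) i = φ := by
  have h1 : (homComplex N I).ExactAt i := by
    rw [HomologicalComplex.exactAt_iff_isZero_homology]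
    exact ModuleCat.isZero_of_subsingleton _
  rw [HomologicalComplex.exactAt_iff' _ (i + 1) i (i - 1) (by simp) (by simp),
    ShortComplex.moduleCat_exact_iff] at h1
  exact h1 φ hφ

variable (n : ℤ)

lemma exact_of_zero_below (N : ModuleCat.{u} R) (hlow : ∀ i < n - 1, Limits.IsZero (I.X i))
    (h : Subsingleton (H I N (n - 1))) (φ : N ⟶ I.X (n - 1)) :
    ∃ ψ : N ⟶ I.X n, ψ ≫ I.d n (n - 1) = φ := by
  obtain ⟨ψ, hψ⟩ := exact_of_subsingleton I N (n - 1) h φ
    ((hlow _ (by omega)).eq_of_tgt _ _)
  have e : n - 1 + 1 = n := by omega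
  have key : ∀ m : ℤ, m = n → (∃ ψ : N ⟶ I.X m, ψ ≫ I.d m (n - 1) = φ) →
      ∃ ψ : N ⟶ I.X n, ψ ≫ I.d n (n - 1) = φ := by
    rintro m rfl h
    exact h
  exact key _ e ⟨ψ, hψ⟩

lemma injective_ker (hI : ∀ i, Injective (I.X i)) (hlow : ∀ i < n - 1, Limits.IsZero (I.X i))
    (hvan : ∀ (N : Type u) [AddCommGroup N] [Module R N] [Module.Finite R N],
      Subsingleton (H I (ModuleCat.of R N) (n - 1))) :
    Module.Injective R (LinearMap.ker (I.d n (n - 1)).hom) := by
  apply Module.Baer.injective
  intro J g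
  have hIn : Module.Injective R (I.X n) :=
    (Module.injective_iff_injective_object R (I.X n)).2 (hI n)
  -- extend `J → K ⊆ I_n` to `g' : R → I_n`
  obtain ⟨g', hg'⟩ := hIn.out (J.subtype) Subtype.val_injective
    ((LinearMap.ker (I.d n (n - 1)).hom).subtype ∘ₗ g)
  -- the composite `R → I_{n-1}` kills `J`
  let q : R →ₗ[R] I.X (n - 1) := (I.d n (n - 1)).hom ∘ₗ g'
  have hq : J ≤ LinearMap.ker q := by
    intro x hx
    have h1 := hg' ⟨x, hx⟩
    have h2 := (g ⟨x, hx⟩).2
    rw [LinearMap.mem_ker] at h2 ⊢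
    change (I.d n (n - 1)).hom (g' x) = 0
    have h3 : g' x = (g ⟨x, hx⟩ : I.X n) := h1
    rw [h3]
    exact h2
  obtain ⟨ψ, hψ⟩ := exact_of_zero_below I n (ModuleCat.of R (R ⧸ J)) hlow
    (hvan (R ⧸ J)) (ModuleCat.ofHom (Submodule.liftQ J q hq))
  have hψ' : ∀ x : R, (I.d n (n - 1)).hom (ψ.hom (Submodule.Quotient.mk x)) =
      (I.d n (n - 1)).hom (g' x) := by
    intro x
    have := congrArg (fun ρ => ρ.hom (Submodule.Quotient.mk x)) hψ
    exact this
  let g'' : R →ₗ[R] LinearMap.ker (I.d n (n - 1)).hom :=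
    (g' - ψ.hom ∘ₗ J.mkQ).codRestrict _ (by
      intro x
      rw [LinearMap.mem_ker, LinearMap.sub_apply, map_sub, sub_eq_zero]
      exact (hψ' x).symm)
  refine ⟨g'', ?_⟩
  intro x hx
  apply Subtype.ext
  change g' x - ψ.hom (Submodule.Quotient.mk x) = (g ⟨x, hx⟩ : I.X n)
  have h1 := hg' ⟨x, hx⟩
  have h3 : g' x = (g ⟨x, hx⟩ : I.X n) := h1
  rw [h3, (Submodule.Quotient.mk_eq_zero J).2 hx, map_zero, sub_zero]

lemma tr_isZero {i : ℤ} (hi : i < n) : Limits.IsZero ((tr I n).X i) := by
  have : Subsingleton (trSub I n i) := by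
    rw [trSub_lt I n hi]
    infer_instance
  exact ModuleCat.isZero_of_subsingleton (ModuleCat.of R (trSub I n i))

lemma tr_injective (hI : ∀ i, Injective (I.X i)) (hlow : ∀ i < n - 1, Limits.IsZero (I.X i))
    (hvan : ∀ (N : Type u) [AddCommGroup N] [Module R N] [Module.Finite R N],
      Subsingleton (H I (ModuleCat.of R N) (n - 1))) (i : ℤ) :
    Injective ((tr I n).X i) := by
  rcases lt_trichotomy i n with h | h | h
  · exact (tr_isZero I n h).injective
  · subst h
    have h1 := injective_ker I i hI hlow hvan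
    have h2 : Module.Injective R (trSub I i i) := by
      rw [trSub_eq]; exact h1
    exact (Module.injective_iff_injective_object R (trSub I i i)).1 h2
  · have h1 : Module.Injective R (I.X i) :=
      (Module.injective_iff_injective_object R (I.X i)).2 (hI i)
    have e : trSub I n i ≃ₗ[R] I.X i := by
      refine (LinearEquiv.ofEq _ _ (trSub_gt I n h)).trans Submodule.topEquiv
    have h2 := (hI i)
    exact Injective.of_iso e.toModuleIso.symm h2

/-- The truncation has the same homology after applying `Hom(C, -)`. -/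
lemma tr_homology (C : ModuleCat.{u} R) (hlow : ∀ i < n - 1, Limits.IsZero (I.X i))
    (hvan : Subsingleton (H I C (n - 1))) (i : ℤ) :
    Nonempty ((homComplex C (tr I n)).homology i ≅ (homComplex C I).homology i) := by
  rcases lt_or_ge i n with h | h
  · have h1 : Limits.IsZero ((homComplex C (tr I n)).homology i) := by
      have := subsingleton_H_of_isZero (tr I n) C i (tr_isZero I n h)
      exact ModuleCat.isZero_of_subsingleton _
    have h2 : Limits.IsZero ((homComplex C I).homology i) := by
      rcases eq_or_lt_of_le (show i ≤ n - 1 by omega) with h' | h'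
      · subst h'
        exact ModuleCat.isZero_of_subsingleton _
      · have := subsingleton_H_of_isZero I C i (hlow i h')
        exact ModuleCat.isZero_of_subsingleton _
    exact ⟨h1.iso h2⟩
  · let φ : homComplex C (tr I n) ⟶ homComplex C I :=
      (((linearCoyoneda R (ModuleCat.{u} R)).obj (Opposite.op C)).mapHomologicalComplex
        (ComplexShape.down ℤ)).map (trι I n)
    have : QuasiIsoAt φ i := by
      rw [quasiIsoAt_iff' φ (i + 1) i (i - 1) (by simp) (by simp),
        ShortComplex.quasiIso_iff]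
      apply isIso_homologyMap
      · intro (x : C ⟶ I.X (i + 1))
        refine ⟨(ModuleCat.ofHom (x.hom.codRestrict (trSub I n (i + 1)) ?_) :
          C ⟶ (tr I n).X (i + 1)), ?_⟩
        · intro c
          rw [trSub_gt I n (by omega)]
          trivial
        · rfl
      · intro (x : C ⟶ (tr I n).X i) (y : C ⟶ (tr I n).X i) hxy
        refine ModuleCat.hom_ext (LinearMap.ext fun c => Subtype.ext ?_)
        have := congrArg (fun (ρ : C ⟶ I.X i) => ρ.hom c) hxy
        exact this
      · intro (x : C ⟶ I.X i) (hx : x ≫ I.d i (i - 1) = 0)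
        have hmem : ∀ c : C, x.hom c ∈ trSub I n i := by
          intro c
          rcases eq_or_lt_of_le h with h' | h'
          · subst h'
            rw [trSub_eq, LinearMap.mem_ker]
            exact congrArg (fun ρ => ρ.hom c) hx
          · rw [trSub_gt I n h']
            trivial
        refine ⟨(ModuleCat.ofHom (x.hom.codRestrict (trSub I n i) hmem) :
          C ⟶ (tr I n).X i), ?_, ?_⟩
        · change (ModuleCat.ofHom (x.hom.codRestrict (trSub I n i) hmem) :
            C ⟶ (tr I n).X i) ≫ (tr I n).d i (i - 1) = 0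
          refine ModuleCat.hom_ext (LinearMap.ext fun c => Subtype.ext ?_)
          exact congrArg (fun ρ => ρ.hom c) hx
        · rfl
    exact ⟨isoOfQuasiIsoAt φ i⟩

end Pool.Agent.H83.Bass
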