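import Pool.Agent.H83.Bass8

open CategoryTheory IsLocalRing RingTheory.Sequence

universe u

namespace Pool.Agent.H83.Bass

variable {R : Type u} [CommRing R]

lemma isZero_iff_subsingleton' (M : ModuleCat.{u} R) : Limits.IsZero M ↔ Subsingleton M :=
  ⟨fun h => ModuleCat.subsingleton_of_isZero h, fun _ => ModuleCat.isZero_of_subsingleton _⟩

/-- If `C` is finitely generated and faithful, `E` injective and `Hom(C, E) = 0`, then `E = 0`. -/
lemma isZero_of_hom (C E : ModuleCat.{u} R) (hfin : Module.Finite R C)
    (hfaith : Function.Injective (LinearMap.lsmul R C)) (hE : Injective E)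
    (h : Subsingleton (C ⟶ E)) : Limits.IsZero E := by
  rw [isZero_iff_subsingleton']
  obtain ⟨n, s, hs⟩ := Module.Finite.exists_fin (R := R) (M := C)
  have hEm : Module.Injective R E := (Module.injective_iff_injective_object R E).2 hE
  let φ : R →ₗ[R] (Fin n → C) := LinearMap.pi (fun i => LinearMap.toSpanSingleton R C (s i))
  have hφ : Function.Injective φ := by
    rw [injective_iff_map_eq_zero]
    intro r hr
    have h1 : ∀ i, r • s i = 0 := fun i => congrFun hr i
    apply hfaith
    rw [map_zero]
    refine LinearMap.ext fun c => ?_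
    have hc : c ∈ Submodule.span R (Set.range s) := by rw [hs]; trivial
    induction hc using Submodule.span_induction with
    | mem x hx =>
      obtain ⟨i, rfl⟩ := hx
      exact h1 i
    | zero => simp
    | add x y _ _ hx hy => rw [map_add, hx, hy]; simp
    | smul a x _ hx => rw [map_smul, hx]; simp
  have key : ∀ e : E, e = 0 := by
    intro e
    obtain ⟨g, hg⟩ := hEm.out φ hφ (LinearMap.toSpanSingleton R E e)
    have hg0 : g = 0 := by
      refine LinearMap.pi_ext' fun i => ?_
      have : ModuleCat.ofHom (g ∘ₗ LinearMap.single R (fun _ => C) i) = (0 : C ⟶ E) :=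
        Subsingleton.elim _ _
      have h2 := congrArg ModuleCat.Hom.hom this
      exact h2
    have := hg 1
    rw [hg0] at this
    simpa using this.symm
  exact ⟨fun a b => by rw [key a, key b]⟩

section facts

variable {C M : ModuleCat.{u} R} {I : ChainComplex (ModuleCat.{u} R) ℤ}

lemma exists_bounds (h : {i : ℤ | ¬ Limits.IsZero (I.X i)}.Finite) :
    ∃ lo up : ℤ, (∀ i < lo, Limits.IsZero (I.X i)) ∧ (∀ i > up, Limits.IsZero (I.X i)) := by
  obtain ⟨lo, hlo⟩ := h.bddBelow
  obtain ⟨up, hup⟩ := h.bddAbove
  refine ⟨lo, up, fun i hi => ?_, fun i hi => ?_⟩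
  · by_contra hcon
    have := hlo hcon
    omega
  · by_contra hcon
    have := hup hcon
    omega

lemma subsingleton_homX (i : ℤ) :
    Limits.IsZero ((homComplex C I).X i) ↔ Subsingleton (C ⟶ I.X i) :=
  isZero_iff_subsingleton' _

lemma infDeg_spec (hC : IsSemidualizing C) (hI : IsQuasiInjectiveResolution C M I) (i : ℤ)
    (hi : i < infDeg (homComplex C I)) : Limits.IsZero (I.X i) := by
  obtain ⟨lo, up, hlo, hup⟩ := exists_bounds hI.bounded
  have hbdd : BddBelow {i : ℤ | ¬ Limits.IsZero ((homComplex C I).X i)} := by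
    refine ⟨lo, fun j hj => ?_⟩
    by_contra hcon
    apply hj
    rw [subsingleton_homX]
    have := hlo j (by omega)
    exact ⟨fun a b => this.eq_of_tgt a b⟩
  have h1 : i ∉ {i : ℤ | ¬ Limits.IsZero ((homComplex C I).X i)} :=
    notMem_of_lt_csInf hi hbdd
  rw [Set.mem_ofPred_eq, not_not, subsingleton_homX] at h1
  exact isZero_of_hom C (I.X i) hC.finite hC.homothety_bijective.1 (hI.injective i) h1

lemma homology_nonempty (hI : IsQuasiInjectiveResolution C M I) :
    {i : ℤ | ¬ Limits.IsZero ((homComplex C I).homology i)}.Nonempty := by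
  by_contra hcon
  apply hI.not_acyclic
  intro i
  rw [HomologicalComplex.exactAt_iff_isZero_homology]
  by_contra h
  exact hcon ⟨i, h⟩

lemma homology_bdd (hI : IsQuasiInjectiveResolution C M I) :
    BddBelow {i : ℤ | ¬ Limits.IsZero ((homComplex C I).homology i)} := by
  obtain ⟨lo, up, hlo, hup⟩ := exists_bounds hI.bounded
  refine ⟨lo, fun j hj => ?_⟩
  by_contra hcon
  apply hj
  rw [isZero_iff_subsingleton']
  exact subsingleton_H_of_isZero I C j (hlo j (by omega))

lemma hinf_lt (hI : IsQuasiInjectiveResolution C M I) (i : ℤ)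
    (hi : i < hinfDeg (homComplex C I)) : Subsingleton (H I C i) := by
  have h1 : i ∉ {i : ℤ | ¬ Limits.IsZero ((homComplex C I).homology i)} :=
    notMem_of_lt_csInf hi (homology_bdd hI)
  rw [Set.mem_ofPred_eq, not_not, isZero_iff_subsingleton'] at h1
  exact h1

lemma hinf_ne (hI : IsQuasiInjectiveResolution C M I) :
    ¬ Subsingleton (H I C (hinfDeg (homComplex C I))) := by
  have h1 := Int.csInf_mem (homology_nonempty hI) (homology_bdd hI)
  rw [Set.mem_ofPred_eq, isZero_iff_subsingleton'] at h1
  exact h1

lemma finite_HC [Module.Finite R M] (hI : IsQuasiInjectiveResolution C M I) (i : ℤ) :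
    Module.Finite R (H I C i) := by
  obtain ⟨a, ⟨e⟩⟩ := hI.homology_iso i
  exact Module.Finite.equiv e.toLinearEquiv.symm

/-- `Hom(C, C) ≅ R` for a semidualizing module. -/
noncomputable def dualIso (hC : IsSemidualizing C) : ModuleCat.of R R ≅ DD C C :=
  (LinearEquiv.ofBijective (LinearMap.lsmul R C) hC.homothety_bijective).toModuleIso

lemma pc_self (hC : IsSemidualizing C) : PC C C := ⟨hC.finite, hC.ext_subsingleton⟩

variable [IsNoetherianRing R]

lemma finite_HN [Module.Finite R M] (hC : IsSemidualizing C)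
    (hI : IsQuasiInjectiveResolution C M I) (N : Type u) [AddCommGroup N] [Module R N]
    [Module.Finite R N] (i : ℤ) : Module.Finite R (H I (ModuleCat.of R N) i) := by
  obtain ⟨lo, up, hlo, hup⟩ := exists_bounds hI.bounded
  refine finite_all' I hI.injective (fun j => ?_) up hup N i
  exact finite_of_iso I (dualIso hC).symm j
    (finite_dual' I hI.injective C (finite_HC hI) lo hlo C (pc_self hC) j)

lemma vanish_HR (hC : IsSemidualizing C)
    (hI : IsQuasiInjectiveResolution C M I) (i : ℤ) (hi : i < hinfDeg (homComplex C I)) :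
    Subsingleton (H I (ModuleCat.of R R) i) := by
  obtain ⟨lo, up, hlo, hup⟩ := exists_bounds hI.bounded
  exact subsingleton_of_iso I (dualIso hC).symm i
    (vanish_dual' I hI.injective C _ (hinf_lt hI) lo hlo C (pc_self hC) i hi)

variable [IsLocalRing R]

lemma nonvanish_HR [Module.Finite R M] (hC : IsSemidualizing C)
    (hI : IsQuasiInjectiveResolution C M I) :
    ¬ Subsingleton (H I (ModuleCat.of R R) (hinfDeg (homComplex C I))) := by
  obtain ⟨lo, up, hlo, hup⟩ := exists_bounds hI.bounded
  have hnt : Nontrivial C := by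
    by_contra hcon
    rw [not_nontrivial_iff_subsingleton] at hcon
    have : Subsingleton R := by
      refine ⟨fun a b => hC.homothety_bijective.1 ?_⟩
      refine LinearMap.ext fun c => Subsingleton.elim _ _
    exact not_subsingleton R this
  intro hsub
  refine nontrivial_HR I hI.injective C (pc_self hC) (finite_HC hI) _ (hinf_lt hI)
    (not_subsingleton_iff_nontrivial.1 (hinf_ne hI)) lo hlo ?_
  exact subsingleton_of_iso I (dualIso hC) _ hsub

/-- A regular sequence has length at most `hinf - inf`. -/
lemma length_le [Module.Finite R M] (hC : IsSemidualizing C)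
    (hI : IsQuasiInjectiveResolution C M I) (rs : List R)
    (hm : ∀ r ∈ rs, r ∈ maximalIdeal R) (hreg : IsWeaklyRegular R rs) :
    (rs.length : ℤ) ≤ hinfDeg (homComplex C I) - infDeg (homComplex C I) := by
  obtain ⟨B, hB⟩ := regseq_bound I hI.injective (fun N _ _ _ i => finite_HN hC hI N i) rs hm R
    (hinfDeg (homComplex C I)) hreg (nonvanish_HR hC hI)
  by_contra hcon
  apply hB
  apply subsingleton_H_of_isZero
  apply infDeg_spec hC hI
  omega

/-- Existence of a regular sequence of maximal length. -/
lemma exists_max [Module.Finite R M] (hC : IsSemidualizing C)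
    (hI : IsQuasiInjectiveResolution C M I) :
    ∃ n : ℕ, (∃ rs : List R, rs.length = n ∧ (∀ r ∈ rs, r ∈ maximalIdeal R) ∧
      IsWeaklyRegular R rs) ∧
      (∀ rs : List R, (∀ r ∈ rs, r ∈ maximalIdeal R) → IsWeaklyRegular R rs →
        rs.length ≤ n) := by
  let T : Set ℕ := {n | ∃ rs : List R, rs.length = n ∧ (∀ r ∈ rs, r ∈ maximalIdeal R) ∧
      IsWeaklyRegular R rs}
  have hne : T.Nonempty := ⟨0, [], rfl, by simp, IsWeaklyRegular.nil _ _⟩
  have hbdd : BddAbove T := by
    refine ⟨(hinfDeg (homComplex C I) - infDeg (homComplex C I)).toNat, ?_⟩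
    rintro n ⟨rs, rfl, hm, hreg⟩
    have := length_le hC hI rs hm hreg
    omega
  refine ⟨sSup T, Nat.sSup_mem hne hbdd, ?_⟩
  intro rs hm hreg
  exact le_csSup hbdd ⟨rs, rfl, hm, hreg⟩

lemma depth_eq {n : ℕ} (h1 : ∃ rs : List R, rs.length = n ∧ (∀ r ∈ rs, r ∈ maximalIdeal R) ∧
      IsWeaklyRegular R rs)
    (h2 : ∀ rs : List R, (∀ r ∈ rs, r ∈ maximalIdeal R) → IsWeaklyRegular R rs →
        rs.length ≤ n) : depth R = n := by
  apply le_antisymm
  · refine iSup₂_le fun rs hrs => ?_
    exact_mod_cast h2 rs hrs.2 hrs.1.toIsWeaklyRegular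
  · obtain ⟨rs, hlen, hm, hreg⟩ := h1
    have h3 : IsRegular R rs := IsRegular.of_isWeaklyRegular_of_mem_maximalIdeal R hm hreg
    have h4 : (rs.length : ℕ∞) ≤ depth R := le_iSup₂ (f := fun (rs : List R)
      (_ : IsRegular R rs ∧ ∀ r ∈ rs, r ∈ maximalIdeal R) => (rs.length : ℕ∞)) rs ⟨h3, hm⟩
    rwa [hlen] at h4

/-- If `hinf - inf > depth R`, the resolution can be shortened. -/
lemma exists_shorter [Module.Finite R M] (hC : IsSemidualizing C)
    (hI : IsQuasiInjectiveResolution C M I) {n : ℕ}
    (h1 : ∃ rs : List R, rs.length = n ∧ (∀ r ∈ rs, r ∈ maximalIdeal R) ∧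
      IsWeaklyRegular R rs)
    (h2 : ∀ rs : List R, (∀ r ∈ rs, r ∈ maximalIdeal R) → IsWeaklyRegular R rs →
        rs.length ≤ n)
    (hlt : (n : ℤ) < hinfDeg (homComplex C I) - infDeg (homComplex C I)) :
    ∃ I' : ChainComplex (ModuleCat.{u} R) ℤ, IsQuasiInjectiveResolution C M I' ∧
      hinfDeg (homComplex C I') = hinfDeg (homComplex C I) ∧
      infDeg (homComplex C I) < infDeg (homComplex C I') := by
  obtain ⟨lo, up, hlo, hup⟩ := exists_bounds hI.bounded
  set h := hinfDeg (homComplex C I) with hh
  set m := infDeg (homComplex C I) with hm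
  obtain ⟨B, f, hBfin, hf, hB⟩ := regseq_vanish I hI.injective n R h (vanish_HR hC hI) h1 h2
  have hvan : ∀ (N : Type u) [AddCommGroup N] [Module R N] [Module.Finite R N] (i : ℤ),
      i < h - n → Subsingleton (H I (ModuleCat.of R N) i) := by
    intro N _ _ _ i hi
    rcases lt_or_ge i lo with h' | h'
    · exact subsingleton_H_of_isZero I _ i (hlo i h')
    · obtain ⟨k, hk⟩ := Int.eq_ofNat_of_zero_le (show 0 ≤ i - (lo - 1) by linarith)
      have e : i = lo - 1 + (k : ℤ) := by linarith
      have := vanish_all I hI.injective (fun N _ _ _ i => finite_HN hC hI N i) (h - n) B f hBfin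
        hf hB lo hlo k N (by linarith)
      rw [e]; exact this
  have hlow : ∀ i < m + 1 - 1, Limits.IsZero (I.X i) := by
    intro i hi
    exact infDeg_spec hC hI i (by omega)
  have hvan' : ∀ (N : Type u) [AddCommGroup N] [Module R N] [Module.Finite R N],
      Subsingleton (H I (ModuleCat.of R N) (m + 1 - 1)) := by
    intro N _ _ _
    exact hvan N _ (by omega)
  have hfinC := hC.finite
  have hiso := tr_homology I (m + 1) C hlow (hvan' C)
  have hiso' : ∀ i, Limits.IsZero ((homComplex C (tr I (m + 1))).homology i) ↔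
      Limits.IsZero ((homComplex C I).homology i) := by
    intro i
    obtain ⟨e⟩ := hiso i
    exact e.isZero_iff
  have hres : IsQuasiInjectiveResolution C M (tr I (m + 1)) := by
    refine ⟨?_, ?_, ?_, ?_⟩
    · refine hI.bounded.subset ?_
      intro i hi
      intro hz
      apply hi
      have : Subsingleton (I.X i) := ModuleCat.subsingleton_of_isZero hz
      have : Subsingleton (trSub I (m + 1) i) := inferInstance
      exact ModuleCat.isZero_of_subsingleton (ModuleCat.of R (trSub I (m + 1) i))
    · exact tr_injective I (m + 1) hI.injective hlow hvan'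
    · intro hac
      apply hI.not_acyclic
      intro i
      rw [HomologicalComplex.exactAt_iff_isZero_homology, ← hiso' i,
        ← HomologicalComplex.exactAt_iff_isZero_homology]
      exact hac i
    · intro i
      obtain ⟨a, ⟨e⟩⟩ := hI.homology_iso i
      obtain ⟨e'⟩ := hiso i
      exact ⟨a, ⟨e'.trans e⟩⟩
  refine ⟨tr I (m + 1), hres, ?_, ?_⟩
  · rw [hh]
    unfold hinfDeg
    congr 1
    ext i
    rw [Set.mem_ofPred_eq, Set.mem_ofPred_eq, hiso' i]
  · have hne : {i : ℤ | ¬ Limits.IsZero ((homComplex C (tr I (m + 1))).X i)}.Nonempty := by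
      obtain ⟨i, hi⟩ := homology_nonempty hres
      refine ⟨i, fun hz => hi ?_⟩
      exact ShortComplex.isZero_homology_of_isZero_X₂ _ hz
    have : m + 1 ≤ infDeg (homComplex C (tr I (m + 1))) := by
      refine le_csInf hne ?_
      intro i hi
      by_contra hcon
      apply hi
      rw [subsingleton_homX]
      have := tr_isZero I (m + 1) (i := i) (by omega)
      exact ⟨fun a b => this.eq_of_tgt a b⟩
    omega

theorem main [Module.Finite R M] (hC : IsSemidualizing C) (hfin : qid C M ≠ ⊤) :
    qid C M = depth R := by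
  -- a resolution exists
  obtain ⟨I₀, hI₀⟩ : ∃ I, IsQuasiInjectiveResolution C M I := by
    by_contra hcon
    push Not at hcon
    apply hfin
    unfold qid
    simp [hcon]
  obtain ⟨n, hn1, hn2⟩ := exists_max hC hI₀
  have hdepth : depth R = n := depth_eq hn1 hn2
  apply le_antisymm
  · have key : ∀ (k : ℕ) (I : ChainComplex (ModuleCat.{u} R) ℤ),
        IsQuasiInjectiveResolution C M I →
        (hinfDeg (homComplex C I) - infDeg (homComplex C I)).toNat = k →
        qid C M ≤ depth R := by
      intro k
      induction k using Nat.strong_induction_on with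
      | _ k ih =>
        intro I hI hk
        by_cases hle : k ≤ n
        · have h1 : qid C M ≤ (k : ℕ∞) := by
            rw [← hk]
            exact iInf₂_le (f := fun (I : ChainComplex (ModuleCat.{u} R) ℤ)
              (_ : IsQuasiInjectiveResolution C M I) =>
              ((hinfDeg (homComplex C I) - infDeg (homComplex C I)).toNat : ℕ∞)) I hI
          rw [hdepth]
          exact h1.trans (by exact_mod_cast hle)
        · obtain ⟨I', hI', h1, h2⟩ := exists_shorter hC hI hn1 hn2 (by omega)
          exact ih _ (by omega) I' hI' rfl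
    exact key _ I₀ hI₀ rfl
  · refine le_iInf₂ fun I hI => ?_
    rw [hdepth]
    obtain ⟨rs, hlen, hm, hreg⟩ := hn1
    have := length_le hC hI rs hm hreg
    rw [hlen] at this
    have h3 : n ≤ (hinfDeg (homComplex C I) - infDeg (homComplex C I)).toNat := by omega
    exact_mod_cast h3

end facts

end Pool.Agent.H83.Bass
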