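import Mathlib

/-!
# Definitions for the Bass formula for the `C`-quasi-injective dimension

Complexes are indexed homologically by `ℤ`: a `ChainComplex (ModuleCat R) ℤ` is
`⋯ → X_{i+1} → X_i → X_{i-1} → ⋯`.
-/

open CategoryTheory

universe u

namespace Pool.Agent.H83.Bass

variable {R : Type u} [CommRing R]

/-- The complex `Hom_R(N, I)`, with the `R`-module `Hom_R(N, I_i)` in degree `i` and
differential `f ↦ d ∘ f`. -/
noncomputable abbrev homComplex (N : ModuleCat.{u} R) (I : ChainComplex (ModuleCat.{u} R) ℤ) :
    ChainComplex (ModuleCat.{u} R) ℤ :=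
  (((linearCoyoneda R (ModuleCat.{u} R)).obj (Opposite.op N)).mapHomologicalComplex
    (ComplexShape.down ℤ)).obj I

/-- A semidualizing module: finitely generated, the homothety map `R → Hom_R(C, C)` is
an isomorphism, and `Ext^i_R(C, C) = 0` for all `i > 0`. -/
structure IsSemidualizing (C : ModuleCat.{u} R) : Prop where
  finite : Module.Finite R C
  homothety_bijective : Function.Bijective (LinearMap.lsmul R C)
  ext_subsingleton : ∀ i : ℕ, 0 < i → Subsingleton (Abelian.Ext C C i)

/-- `inf X = inf {i | X_i ≠ 0}`. -/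
noncomputable def infDeg (X : ChainComplex (ModuleCat.{u} R) ℤ) : ℤ :=
  sInf {i : ℤ | ¬ Limits.IsZero (X.X i)}

/-- `hinf X = inf {i | H_i(X) ≠ 0}`. -/
noncomputable def hinfDeg (X : ChainComplex (ModuleCat.{u} R) ℤ) : ℤ :=
  sInf {i : ℤ | ¬ Limits.IsZero (X.homology i)}

/-- `I` is a `C`-quasi-injective resolution of `M`: a bounded complex of injective modules such
that `Hom_R(C, I)` is not acyclic and each `H_i(Hom_R(C, I))` is isomorphic to a finite direct
power of `M`. -/
structure IsQuasiInjectiveResolution (C M : ModuleCat.{u} R)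
    (I : ChainComplex (ModuleCat.{u} R) ℤ) : Prop where
  bounded : {i : ℤ | ¬ Limits.IsZero (I.X i)}.Finite
  injective : ∀ i, Injective (I.X i)
  not_acyclic : ¬ (homComplex C I).Acyclic
  homology_iso : ∀ i, ∃ a : ℕ,
    Nonempty ((homComplex C I).homology i ≅ ModuleCat.of R (Fin a → M))

/-- The `C`-quasi-injective dimension of `M`: the infimum, over all `C`-quasi-injective
resolutions `I` of `M`, of the (nonnegative) integers `hinf Hom_R(C, I) - inf Hom_R(C, I)`;
it is `⊤` when no such resolution exists. -/
noncomputable def qid (C M : ModuleCat.{u} R) : ℕ∞ :=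
  ⨅ (I : ChainComplex (ModuleCat.{u} R) ℤ) (_ : IsQuasiInjectiveResolution C M I),
    ((hinfDeg (homComplex C I) - infDeg (homComplex C I)).toNat : ℕ∞)

/-- The depth of a local ring: the supremum of the lengths of the `R`-regular sequences
contained in the maximal ideal. -/
noncomputable def depth (R : Type u) [CommRing R] [IsLocalRing R] : ℕ∞ :=
  ⨆ (rs : List R) (_ : RingTheory.Sequence.IsRegular R rs ∧
    ∀ r ∈ rs, r ∈ IsLocalRing.maximalIdeal R), (rs.length : ℕ∞)

end Pool.Agent.H83.Bass
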