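import Pool.Agent.H83.EhrDefs
import Mathlib.Tactic.Common
import Mathlib.Data.Finset.Card
import Mathlib.Data.Set.Finite.Basic
import Mathlib.Data.Set.Finite.Lattice
import Mathlib.Data.Fintype.Prod
import Mathlib.Data.Fintype.EquivFin

/-!
# Algebra in Ehresmann monoids; criterion for weak coherence
-/

universe u

namespace Pool.Agent.H83.Ehr

open EhresmannMonoid

section algebra

variable {M : Type u} [EhresmannMonoid M]

lemma plus_one : plus (1 : M) = 1 := by
  have := plus_mul_self (1 : M)
  rwa [mul_one] at this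

lemma star_one : star (1 : M) = 1 := by
  have := mul_star_self (1 : M)
  rwa [one_mul] at this

lemma plus_plus (x : M) : plus (plus x) = plus x := by
  have := plus_plus_mul x 1
  rwa [mul_one, plus_one, mul_one] at this

lemma star_star (x : M) : star (star x) = star x := by
  have := star_mul_star 1 x
  rwa [one_mul, star_one, one_mul] at this

/-- Projections. -/
def IsProj (e : M) : Prop := plus e = e

lemma isProj_plus (x : M) : IsProj (plus x) := plus_plus x
lemma isProj_star (x : M) : IsProj (star x) := plus_star x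
lemma isProj_one : IsProj (1 : M) := plus_one

lemma IsProj.star_eq {e : M} (h : IsProj e) : star e = e := by
  have := star_plus e
  rwa [show plus e = e from h] at this

lemma IsProj.plus_eq {e : M} (h : IsProj e) : plus e = e := h

lemma IsProj.idem {e : M} (h : IsProj e) : e * e = e := by
  have := plus_mul_self e
  rwa [show plus e = e from h] at this

lemma IsProj.comm {e f : M} (he : IsProj e) (hf : IsProj f) : e * f = f * e := by
  have := plus_comm e f
  rwa [show plus e = e from he, show plus f = f from hf] at this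

lemma IsProj.plus_mul' {e : M} (he : IsProj e) (y : M) :
    plus (e * y) = e * plus y := by
  have := plus_plus_mul e y
  rwa [show plus e = e from he] at this

lemma IsProj.star_mul' {e : M} (he : IsProj e) (y : M) :
    star (y * e) = star y * e := by
  have := star_mul_star y e
  rwa [he.star_eq] at this

lemma IsProj.mul {e f : M} (he : IsProj e) (hf : IsProj f) : IsProj (e * f) := by
  unfold IsProj
  rw [he.plus_mul', hf.plus_eq]

/-- The order on projections: `e ≤ f` iff `e * f = e`. -/
def Le (e f : M) : Prop := e * f = e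

lemma Le.symm_mul {e f : M} (he : IsProj e) (hf : IsProj f) (h : Le e f) : f * e = e := by
  rw [hf.comm he]; exact h

lemma Le.trans {e f g : M} (h1 : Le e f) (h2 : Le f g) : Le e g := by
  unfold Le at *
  rw [← h1, mul_assoc, h2]

lemma Le.antisymm {e f : M} (he : IsProj e) (hf : IsProj f) (h1 : Le e f) (h2 : Le f e) :
    e = f := by
  unfold Le at *
  rw [← h1, he.comm hf, h2]

lemma le_mul_iff {e f g : M} (_he : IsProj e) (hf : IsProj f) (hg : IsProj g) :
    Le e (f * g) ↔ Le e f ∧ Le e g := by
  unfold Le
  constructor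
  · intro h
    constructor
    · have : e * (f * g) * f = e * (f * g) := by
        rw [mul_assoc, mul_assoc, hg.comm hf, ← mul_assoc f f g, hf.idem]
      rw [h] at this
      exact this
    · have : e * (f * g) * g = e * (f * g) := by
        rw [mul_assoc, mul_assoc, hg.idem]
      rw [h] at this
      exact this
  · rintro ⟨h1, h2⟩
    rw [← mul_assoc, h1, h2]

lemma le_refl' {e : M} (he : IsProj e) : Le e e := he.idem

lemma le_one (e : M) : Le e 1 := mul_one e

/-- `(x e)⁺ ≤ (x f)⁺` when `e ≤ f`. -/
lemma plus_mono (x : M) {e f : M} (he : IsProj e) (hf : IsProj f) (h : Le e f) :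
    Le (plus (x * e)) (plus (x * f)) := by
  unfold Le
  have h1 : f * e = e := h.symm_mul he hf
  have h2 : plus (x * f) * (x * e) = x * e := by
    rw [← h1, ← mul_assoc x f e, ← mul_assoc, plus_mul_self]
  rw [plus_comm, ← (isProj_plus (x * f)).plus_mul' (x * e), h2]

/-- `(e x)* ≤ (f x)*` when `e ≤ f`. -/
lemma star_mono (x : M) {e f : M} (_he : IsProj e) (_hf : IsProj f) (h : Le e f) :
    Le (star (e * x)) (star (f * x)) := by
  unfold Le
  have h1 : e * x * star (f * x) = e * x := by
    have h3 : e * x = e * (f * x) := by rw [← mul_assoc, h]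
    rw [h3, mul_assoc, mul_star_self]
  rw [← (isProj_star (f * x)).star_mul' (e * x), h1]

/-- `(e y)⁺ ≤ y⁺`. -/
lemma plus_mul_le {e : M} (he : IsProj e) (y : M) : Le (plus (e * y)) (plus y) := by
  unfold Le
  rw [he.plus_mul', mul_assoc, (isProj_plus y).idem]

lemma star_mul_le {e : M} (he : IsProj e) (y : M) : Le (star (y * e)) (star y) := by
  unfold Le
  rw [he.star_mul', mul_assoc, he.comm (isProj_star y), ← mul_assoc, (isProj_star y).idem]

lemma mul_le_right {e f : M} (_he : IsProj e) (hf : IsProj f) : Le (e * f) f := by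
  unfold Le
  rw [mul_assoc, hf.idem]

lemma mul_le_left {e f : M} (he : IsProj e) (hf : IsProj f) : Le (e * f) e := by
  unfold Le
  rw [he.comm hf, mul_assoc, he.idem]

end algebra

/-! ### The criterion -/

/-- Right adequacy. -/
def RAdq (S : Type u) [EhresmannMonoid S] : Prop :=
  ∀ a u v : S, a * u = a * v → star a * u = star a * v

/-- A strong form of the right ideal Howson property. -/
def RHow (S : Type u) [EhresmannMonoid S] : Prop :=
  ∀ a b : S, (∃ (r : S) (F : Finset S), ∀ s t, a * s = b * t →
      ∃ g ∈ F, b * g = a * (r * g) ∧ g * t = t) ∨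
    (∃ (r : S) (F : Finset S), ∀ s t, a * s = b * t →
      ∃ g ∈ F, a * g = b * (r * g) ∧ g * s = s)

theorem weaklyRightCoherent_of (S : Type u) [EhresmannMonoid S] (h1 : RAdq S) (h2 : RHow S) :
    WeaklyRightCoherent S := by
  classical
  rintro I ⟨F, hF⟩
  obtain ⟨n, ⟨e⟩⟩ := Finite.exists_equiv_fin F
  let a : Fin n → S := fun i => (e.symm i : S)
  have haF : ∀ i, a i ∈ F := fun i => (e.symm i).2
  have hI : ∀ x, x ∈ I ↔ ∃ i s, x = a i * s := by
    intro x
    have : x ∈ I ↔ x ∈ (I : Set S) := Iff.rfl
    rw [this, hF]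
    constructor
    · rintro ⟨c, hc, s, rfl⟩
      refine ⟨e ⟨c, hc⟩, s, ?_⟩
      simp [a]
    · rintro ⟨i, s, rfl⟩
      exact ⟨a i, haF i, s, rfl⟩
  let f : Fin n × S → I := fun p => ⟨a p.1 * p.2, (hI _).2 ⟨p.1, p.2, rfl⟩⟩
  -- choose Howson data for each pair
  have h2' : ∀ i j : Fin n, ∃ G : Finset ((Fin n × S) × (Fin n × S)),
      (∀ pq ∈ G, f pq.1 = f pq.2) ∧
      ∀ s t, a i * s = a j * t → ∃ r s' t' : S, ((i, s'), (j, t')) ∈ G ∧ s' * r = s' * r ∧
        a i * s = a i * (s' * r) ∧ a j * t = a j * (t' * r) := by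
    intro i j
    rcases h2 (a i) (a j) with ⟨r, G, hG⟩ | ⟨r, G, hG⟩
    · refine ⟨(G.filter (fun g => a j * g = a i * (r * g))).image
        (fun g => ((i, r * g), (j, g))), ?_, ?_⟩
      · intro pq hpq
        rw [Finset.mem_image] at hpq
        obtain ⟨g, hg, rfl⟩ := hpq
        rw [Finset.mem_filter] at hg
        apply Subtype.ext
        exact hg.2.symm
      · intro s t hst
        obtain ⟨g, hg, h3, h4⟩ := hG s t hst
        refine ⟨t, r * g, g, ?_, rfl, ?_, ?_⟩
        · rw [Finset.mem_image]
          exact ⟨g, Finset.mem_filter.2 ⟨hg, h3⟩, rfl⟩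
        · rw [hst, ← h4, ← mul_assoc (a j) g t, h3, h4, mul_assoc]
        · rw [h4]
    · refine ⟨(G.filter (fun g => a i * g = a j * (r * g))).image
        (fun g => ((i, g), (j, r * g))), ?_, ?_⟩
      · intro pq hpq
        rw [Finset.mem_image] at hpq
        obtain ⟨g, hg, rfl⟩ := hpq
        rw [Finset.mem_filter] at hg
        apply Subtype.ext
        exact hg.2
      · intro s t hst
        obtain ⟨g, hg, h3, h4⟩ := hG s t hst
        refine ⟨s, g, r * g, ?_, rfl, ?_, ?_⟩
        · rw [Finset.mem_image]
          exact ⟨g, Finset.mem_filter.2 ⟨hg, h3⟩, rfl⟩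
        · rw [h4]
        · rw [← hst, ← h4, ← mul_assoc (a i) g s, h3, h4, mul_assoc]
  choose G hG1 hG2 using h2'
  let H0 : Finset ((Fin n × S) × (Fin n × S)) :=
    (Finset.univ : Finset (Fin n)).image (fun i => ((i, star (a i)), (i, 1)))
  let H1 : Finset ((Fin n × S) × (Fin n × S)) :=
    (Finset.univ : Finset (Fin n × Fin n)).biUnion (fun ij => G ij.1 ij.2)
  have hcancel : ∀ (i : Fin n) (u v : S), a i * u = a i * v →
      RightCong ((H0 ∪ H1 : Finset _) : Set ((Fin n × S) × (Fin n × S))) (i, u) (i, v) := by
    intro i u v huv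
    have h3 : ∀ w : S, RightCong ((H0 ∪ H1 : Finset _) : Set ((Fin n × S) × (Fin n × S)))
        (i, star (a i) * w) (i, w) := by
      intro w
      have h4 : RightCong ((H0 ∪ H1 : Finset _) : Set ((Fin n × S) × (Fin n × S)))
          (i, star (a i)) (i, 1) := by
        apply RightCong.of
        simp [H0]
      have h5 := RightCong.act w h4
      simpa using h5
    have h4 := h1 (a i) u v huv
    have h5 := h3 u
    rw [h4] at h5
    exact (h5.symm).trans (h3 v)
  refine ⟨n, H0 ∪ H1, f, ?_, ?_, ?_⟩
  · rintro ⟨x, hx⟩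
    obtain ⟨i, s, rfl⟩ := (hI x).1 hx
    exact ⟨(i, s), rfl⟩
  · intro i s u
    apply Subtype.ext
    change a i * (s * u) = a i * s * u
    rw [mul_assoc]
  · intro p q
    constructor
    · obtain ⟨i, s⟩ := p
      obtain ⟨j, t⟩ := q
      intro hf
      have hst : a i * s = a j * t := congrArg Subtype.val hf
      obtain ⟨r, s', t', hmem, _, h3, h4⟩ := hG2 i j s t hst
      have h5 := hcancel i _ _ h3
      have h6 := hcancel j _ _ h4
      have h7 : RightCong ((H0 ∪ H1 : Finset _) : Set ((Fin n × S) × (Fin n × S)))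
          (i, s') (j, t') := by
        apply RightCong.of
        rw [Finset.mem_coe, Finset.mem_union]
        right
        rw [Finset.mem_biUnion]
        exact ⟨(i, j), Finset.mem_univ _, hmem⟩
      have h8 := RightCong.act r h7
      exact (h5.trans h8).trans h6.symm
    · intro hr
      induction hr with
      | of hmem =>
        rw [Finset.mem_coe, Finset.mem_union] at hmem
        rcases hmem with hmem | hmem
        · rw [Finset.mem_image] at hmem
          obtain ⟨k, _, hk⟩ := hmem
          rw [Prod.mk.injEq] at hk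
          rw [← hk.1, ← hk.2]
          apply Subtype.ext
          change a k * star (a k) = a k * 1
          rw [mul_star_self, mul_one]
        · rw [Finset.mem_biUnion] at hmem
          obtain ⟨ij, _, hmem⟩ := hmem
          exact hG1 ij.1 ij.2 _ hmem
      | refl p => rfl
      | symm _ ih => exact ih.symm
      | trans _ _ ih1 ih2 => exact ih1.trans ih2
      | act u _ ih =>
        have h3 := congrArg Subtype.val ih
        apply Subtype.ext
        change a _ * (_ * u) = a _ * (_ * u)
        rw [← mul_assoc, ← mul_assoc]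
        exact congrArg (· * u) h3

end Pool.Agent.H83.Ehr
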