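import Pool.Agent.H83.Ehr1

/-!
# Tree formulas, path values, relational semantics
-/

universe u v

namespace Pool.Agent.H83.Ehr

open EhresmannMonoid

/-- Tree formulas, in first-child / next-sibling form. -/
inductive T (X : Type u) : Type u
  | nil : T X
  | cons (d : Bool) (x : X) (c r : T X) : T X

variable {X : Type u}

/-- Gluing two trees at the root. -/
def T.append : T X → T X → T X
  | .nil, t => t
  | .cons d x c r, t => .cons d x c (r.append t)

section ev

variable {M : Type v} [EhresmannMonoid M] (ι : X → M)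

/-- Evaluation of a tree formula as a projection. -/
def ev : T X → M
  | .nil => 1
  | .cons true x c r => plus (ι x * ev c) * ev r
  | .cons false x c r => star (ev c * ι x) * ev r

lemma isProj_ev (t : T X) : IsProj (ev ι t) := by
  induction t with
  | nil => exact isProj_one
  | cons d x c r _ ihr =>
    cases d
    · exact (isProj_star _).mul ihr
    · exact (isProj_plus _).mul ihr

lemma ev_append (s t : T X) : ev ι (s.append t) = ev ι s * ev ι t := by
  induction s with
  | nil => simp [T.append, ev]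
  | cons d x c r _ ihr =>
    cases d
    · simp only [T.append, ev, ihr, mul_assoc]
    · simp only [T.append, ev, ihr, mul_assoc]

/-- The product `δ₀ ξ₀ δ₁ ξ₁ ⋯ ξ_{n-1} δ_n`. -/
def valM (ξ δ : ℕ → M) : ℕ → M
  | 0 => δ 0
  | n + 1 => valM ξ δ n * ξ n * δ (n + 1)

lemma valM_congr {ξ ξ' δ δ' : ℕ → M} {n : ℕ} (h1 : ∀ i < n, ξ i = ξ' i)
    (h2 : ∀ i ≤ n, δ i = δ' i) : valM ξ δ n = valM ξ' δ' n := by
  induction n with
  | zero => exact h2 0 le_rfl
  | succ n ih =>
    simp only [valM]
    rw [ih (fun i hi => h1 i (by omega)) (fun i hi => h2 i (by omega)), h1 n (by omega),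
      h2 (n + 1) le_rfl]

lemma valM_succ' (ξ δ : ℕ → M) (n : ℕ) :
    valM ξ δ (n + 1) = δ 0 * ξ 0 * valM (fun i => ξ (i + 1)) (fun i => δ (i + 1)) n := by
  induction n with
  | zero => rfl
  | succ n ih =>
    rw [valM, ih]
    simp only [valM, mul_assoc]

lemma valM_add (ξ δ : ℕ → M) (n k : ℕ) (hn : δ n * δ n = δ n) :
    valM ξ δ (n + k) = valM ξ δ n * valM (fun i => ξ (n + i)) (fun i => δ (n + i)) k := by
  induction k with
  | zero =>
    simp only [valM, Nat.add_zero]
    cases n with
    | zero => simp only [valM]; exact hn.symm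
    | succ n => simp only [valM]; rw [mul_assoc (valM ξ δ n * ξ n), hn]
  | succ k ih =>
    rw [← Nat.add_assoc, valM, ih]
    simp only [valM, mul_assoc]
    rfl

/-- The value of a path formula. -/
def val (x : ℕ → X) (C : ℕ → T X) (n : ℕ) : M :=
  valM (fun i => ι (x i)) (fun i => ev ι (C i)) n

lemma val_add (x : ℕ → X) (C : ℕ → T X) (n k : ℕ) :
    val ι x C (n + k) = val ι x C n * val ι (fun i => x (n + i)) (fun i => C (n + i)) k :=
  valM_add _ _ n k (isProj_ev ι _).idem

lemma val_succ' (x : ℕ → X) (C : ℕ → T X) (n : ℕ) :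
    val ι x C (n + 1) = ev ι (C 0) * ι (x 0) *
      val ι (fun i => x (i + 1)) (fun i => C (i + 1)) n := valM_succ' _ _ _

lemma val_congr {x x' : ℕ → X} {C C' : ℕ → T X} {n : ℕ} (h1 : ∀ i < n, x i = x' i)
    (h2 : ∀ i ≤ n, ev ι (C i) = ev ι (C' i)) : val ι x C n = val ι x' C' n :=
  valM_congr (fun i hi => by rw [h1 i hi]) h2

/-- The formula of `(val n)⁺`. -/
def plusT : ℕ → (ℕ → X) → (ℕ → T X) → T X
  | 0, _, C => C 0
  | n + 1, x, C => (C 0).append
      (.cons true (x 0) (plusT n (fun i => x (i + 1)) (fun i => C (i + 1))) .nil)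

lemma ev_plusT (n : ℕ) (x : ℕ → X) (C : ℕ → T X) :
    ev ι (plusT n x C) = plus (val ι x C n) := by
  induction n generalizing x C with
  | zero => exact (isProj_ev ι (C 0)).plus_eq.symm
  | succ n ih =>
    rw [plusT, ev_append, val_succ', mul_assoc, (isProj_ev ι (C 0)).plus_mul', plus_mul, ← ih]
    simp [ev]

/-- The formula of `(val n)*`. -/
def starT : ℕ → (ℕ → X) → (ℕ → T X) → T X
  | 0, _, C => C 0
  | n + 1, x, C => T.cons false (x n) (starT n x C) (C (n + 1))

lemma ev_starT (n : ℕ) (x : ℕ → X) (C : ℕ → T X) :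
    ev ι (starT n x C) = star (val ι x C n) := by
  induction n with
  | zero => exact (isProj_ev ι (C 0)).star_eq.symm
  | succ n ih =>
    have : val ι x C (n + 1) = val ι x C n * ι (x n) * ev ι (C (n + 1)) := rfl
    rw [this, (isProj_ev ι (C (n + 1))).star_mul', star_mul, ← ih]
    simp [starT, ev]

end ev

section sem

/-- Satisfaction of a tree formula at a point of a labelled directed graph. -/
def sat {V : Type v} (R : X → V → V → Prop) : T X → V → Prop
  | .nil, _ => True
  | .cons true x c r, u => (∃ v, R x u v ∧ sat R c v) ∧ sat R r u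
  | .cons false x c r, u => (∃ v, R x v u ∧ sat R c v) ∧ sat R r u

lemma sat_append {V : Type v} (R : X → V → V → Prop) (s t : T X) (u : V) :
    sat R (s.append t) u ↔ sat R s u ∧ sat R t u := by
  induction s with
  | nil => simp [T.append, sat]
  | cons d x c r _ ihr =>
    cases d
    · simp only [T.append, sat, ihr]; tauto
    · simp only [T.append, sat, ihr]; tauto

/-- Satisfaction is preserved by graph morphisms. -/
lemma sat_hom {V : Type v} {W : Type*} (R : X → V → V → Prop) (Q : X → W → W → Prop)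
    (f : V → W) (hf : ∀ x u v, R x u v → Q x (f u) (f v)) (t : T X) :
    ∀ u, sat R t u → sat Q t (f u) := by
  induction t with
  | nil => intro _ _; trivial
  | cons d x c r ihc ihr =>
    intro u hu
    cases d
    · obtain ⟨⟨v, hv1, hv2⟩, hr⟩ := hu
      exact ⟨⟨f v, hf _ _ _ hv1, ihc v hv2⟩, ihr u hr⟩
    · obtain ⟨⟨v, hv1, hv2⟩, hr⟩ := hu
      exact ⟨⟨f v, hf _ _ _ hv1, ihc v hv2⟩, ihr u hr⟩

/-- Binary relations on `V`. -/
def RelM (V : Type v) : Type v := V → V → Prop

lemma RelM.ext {V : Type v} {r s : RelM V} (h : ∀ u v, r u v ↔ s u v) : r = s := by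
  funext u v
  exact propext (h u v)

instance (V : Type v) : EhresmannMonoid (RelM V) where
  mul r s := fun u w => ∃ v, r u v ∧ s v w
  one := fun u v => u = v
  mul_assoc a b c := by
    apply RelM.ext
    intro u w
    constructor
    · rintro ⟨v, ⟨v', h1, h2⟩, h3⟩
      exact ⟨v', h1, v, h2, h3⟩
    · rintro ⟨v', h1, v, h2, h3⟩
      exact ⟨v, ⟨v', h1, h2⟩, h3⟩
  one_mul a := by
    apply RelM.ext
    intro u w
    constructor
    · rintro ⟨v, h1, h2⟩
      have h1' : u = v := h1
      rw [h1']; exact h2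
    · intro h
      exact ⟨u, rfl, h⟩
  mul_one a := by
    apply RelM.ext
    intro u w
    constructor
    · rintro ⟨v, h1, h2⟩
      have h2' : v = w := h2
      rw [← h2']; exact h1
    · intro h
      exact ⟨w, h, rfl⟩
  plus r := fun u v => u = v ∧ ∃ w, r u w
  star r := fun u v => u = v ∧ ∃ w, r w u
  plus_mul_self r := by
    apply RelM.ext
    intro u w
    constructor
    · rintro ⟨v, ⟨h1, _⟩, h2⟩
      rw [h1]; exact h2
    · intro h
      exact ⟨u, ⟨rfl, w, h⟩, h⟩
  plus_comm r s := by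
    apply RelM.ext
    intro u w
    constructor
    · rintro ⟨v, ⟨h1, h2⟩, ⟨h3, h4⟩⟩
      subst h1; subst h3
      exact ⟨u, ⟨rfl, h4⟩, ⟨rfl, h2⟩⟩
    · rintro ⟨v, ⟨h1, h2⟩, ⟨h3, h4⟩⟩
      subst h1; subst h3
      exact ⟨u, ⟨rfl, h4⟩, ⟨rfl, h2⟩⟩
  plus_plus_mul r s := by
    apply RelM.ext
    intro u w
    constructor
    · rintro ⟨h1, v, v', ⟨h2, h3⟩, h4⟩
      subst h1; subst h2
      exact ⟨u, ⟨rfl, h3⟩, ⟨rfl, v, h4⟩⟩
    · rintro ⟨v, ⟨h1, h2⟩, ⟨h3, v', h4⟩⟩
      subst h1; subst h3
      exact ⟨rfl, v', u, ⟨rfl, h2⟩, h4⟩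
  plus_mul r s := by
    apply RelM.ext
    intro u w
    constructor
    · rintro ⟨h1, v, v', h2, h3⟩
      exact ⟨h1, v', v', h2, ⟨rfl, v, h3⟩⟩
    · rintro ⟨h1, v, v', h2, ⟨h3, v'', h4⟩⟩
      exact ⟨h1, v'', v', h2, h4⟩
  mul_star_self r := by
    apply RelM.ext
    intro u w
    constructor
    · rintro ⟨v, h1, ⟨h2, _⟩⟩
      rw [← h2]; exact h1
    · intro h
      exact ⟨w, h, ⟨rfl, u, h⟩⟩
  star_comm r s := by
    apply RelM.ext
    intro u w
    constructor
    · rintro ⟨v, ⟨h1, h2⟩, ⟨h3, h4⟩⟩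
      subst h1; subst h3
      exact ⟨u, ⟨rfl, h4⟩, ⟨rfl, h2⟩⟩
    · rintro ⟨v, ⟨h1, h2⟩, ⟨h3, h4⟩⟩
      subst h1; subst h3
      exact ⟨u, ⟨rfl, h4⟩, ⟨rfl, h2⟩⟩
  star_mul_star r s := by
    apply RelM.ext
    intro u w
    constructor
    · rintro ⟨h1, v, v', h2, ⟨h3, h4⟩⟩
      subst h1; subst h3
      exact ⟨v', ⟨rfl, v, h2⟩, ⟨rfl, h4⟩⟩
    · rintro ⟨v, ⟨h1, v'', h2⟩, ⟨h3, h4⟩⟩
      subst h1; subst h3
      exact ⟨rfl, v'', u, h2, ⟨rfl, h4⟩⟩
  star_mul r s := by
    apply RelM.ext
    intro u w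
    constructor
    · rintro ⟨h1, v, v', h2, h3⟩
      exact ⟨h1, v', v', ⟨rfl, v, h2⟩, h3⟩
    · rintro ⟨h1, v, v', ⟨h2, v'', h3⟩, h4⟩
      subst h2
      exact ⟨h1, v'', v, h3, h4⟩
  star_plus r := by
    apply RelM.ext
    intro u w
    constructor
    · rintro ⟨h1, v, ⟨h2, h3⟩⟩
      subst h2
      exact ⟨h1, h3⟩
    · rintro ⟨h1, h2⟩
      exact ⟨h1, u, ⟨rfl, h2⟩⟩
  plus_star r := by
    apply RelM.ext
    intro u w
    constructor
    · rintro ⟨h1, v, ⟨h2, h3⟩⟩
      exact ⟨h1, h3⟩
    · rintro ⟨h1, h2⟩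
      exact ⟨h1, u, ⟨rfl, h2⟩⟩

/-- Type ascription. -/
def toRel {V : Type v} (r : V → V → Prop) : RelM V := r

lemma RelM.mul_apply {V : Type v} (r s : RelM V) (u w : V) :
    (r * s) u w ↔ ∃ v, r u v ∧ s v w := Iff.rfl

lemma ev_rel {V : Type v} (R : X → V → V → Prop) (t : T X) (u w : V) :
    ev (M := RelM V) R t u w ↔ u = w ∧ sat R t u := by
  induction t generalizing u w with
  | nil =>
    constructor
    · intro h; exact ⟨h, trivial⟩
    · intro h; exact h.1
  | cons d x c r ihc ihr =>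
    cases d
    · simp only [ev, sat, RelM.mul_apply]
      constructor
      · rintro ⟨v, ⟨h1, v', v'', h2, h3⟩, h4⟩
        rw [ihc] at h2
        rw [ihr] at h4
        obtain ⟨h2, h2'⟩ := h2
        obtain ⟨h4, h4'⟩ := h4
        subst h1; subst h2; subst h4
        exact ⟨rfl, ⟨v', h3, h2'⟩, h4'⟩
      · rintro ⟨h1, ⟨v', h2, h3⟩, h4⟩
        subst h1
        exact ⟨u, ⟨rfl, v', v', (ihc _ _).2 ⟨rfl, h3⟩, h2⟩, (ihr _ _).2 ⟨rfl, h4⟩⟩
    · simp only [ev, sat, RelM.mul_apply]
      constructor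
      · rintro ⟨v, ⟨h1, v', v'', h2, h3⟩, h4⟩
        rw [ihc] at h3
        rw [ihr] at h4
        obtain ⟨h3, h3'⟩ := h3
        obtain ⟨h4, h4'⟩ := h4
        subst h1; subst h3; subst h4
        exact ⟨rfl, ⟨v'', h2, h3'⟩, h4'⟩
      · rintro ⟨h1, ⟨v', h2, h3⟩, h4⟩
        subst h1
        exact ⟨u, ⟨rfl, v', v', h2, (ihc _ _).2 ⟨rfl, h3⟩⟩, (ihr _ _).2 ⟨rfl, h4⟩⟩

/-- A path along the word `x` of length `n`. -/
def IsPath {V : Type v} (R : X → V → V → Prop) (x : ℕ → X) (n : ℕ) (w : ℕ → V) : Prop :=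
  ∀ i < n, R (x i) (w i) (w (i + 1))

/-- The path satisfies the decorations. -/
def PSat {V : Type v} (R : X → V → V → Prop) (C : ℕ → T X) (n : ℕ) (w : ℕ → V) : Prop :=
  ∀ i ≤ n, sat R (C i) (w i)

lemma val_rel {V : Type v} (R : X → V → V → Prop) (x : ℕ → X) (C : ℕ → T X) (n : ℕ) (u v : V) :
    val (M := RelM V) R x C n u v ↔
      ∃ w : ℕ → V, w 0 = u ∧ w n = v ∧ IsPath R x n w ∧ PSat R C n w := by
  induction n generalizing v with
  | zero =>
    change ev (M := RelM V) R (C 0) u v ↔ _
    rw [ev_rel]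
    constructor
    · rintro ⟨h1, h2⟩
      refine ⟨fun _ => u, rfl, h1, fun i hi => absurd hi (by omega), fun i hi => ?_⟩
      have : i = 0 := by omega
      subst this
      exact h2
    · rintro ⟨w, h1, h2, _, h4⟩
      refine ⟨h1.symm.trans h2, ?_⟩
      have := h4 0 le_rfl
      rwa [h1] at this
  | succ n ih =>
    have key : val (M := RelM V) R x C (n + 1) =
      val (M := RelM V) R x C n * toRel (R (x n)) * ev (M := RelM V) R (C (n + 1)) := rfl
    rw [key, RelM.mul_apply]
    constructor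
    · rintro ⟨v', ⟨v'', h1, h2⟩, h3⟩
      rw [ih] at h1
      rw [ev_rel] at h3
      obtain ⟨w, hw0, hwn, hp, hs⟩ := h1
      obtain ⟨h3, h4⟩ := h3
      subst h3
      refine ⟨fun i => if i ≤ n then w i else v', ?_, ?_, ?_, ?_⟩
      · simp [hw0]
      · simp
      · intro i hi
        rcases Nat.lt_or_ge i n with h | h
        · have e1 : i ≤ n := by omega
          have e2 : i + 1 ≤ n := by omega
          simp only [e1, e2, if_true]
          exact hp i h
        · have e1 : i = n := by omega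
          subst e1
          have e2 : ¬ (i + 1 ≤ i) := by omega
          simp only [le_refl, if_true, e2, if_false, hwn]
          exact h2
      · intro i hi
        rcases Nat.lt_or_ge n i with h | h
        · have e1 : i = n + 1 := by omega
          subst e1
          have e2 : ¬ (n + 1 ≤ n) := by omega
          simp only [e2, if_false]
          exact h4
        · simp only [h, if_true]
          exact hs i h
    · rintro ⟨w, h1, h2, h3, h4⟩
      refine ⟨w (n + 1), ⟨w n, ?_, h3 n (by omega)⟩, ?_⟩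
      · rw [ih]
        exact ⟨w, h1, rfl, fun i hi => h3 i (by omega), fun i hi => h4 i (by omega)⟩
      · rw [ev_rel]
        exact ⟨h2, h4 _ le_rfl⟩

end sem

section lift

variable {M : Type v} [EhresmannMonoid M] (f : X → M)

/-- Evaluation of terms. -/
def evalTerm : Term X → M
  | .var x => f x
  | .one => 1
  | .mul s t => evalTerm s * evalTerm t
  | .plus s => plus (evalTerm s)
  | .star s => star (evalTerm s)

lemma evalTerm_eqv {s t : Term X} (h : Term.Eqv s t) : evalTerm f s = evalTerm f t := by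
  induction h with
  | refl => rfl
  | symm _ ih => exact ih.symm
  | trans _ _ ih1 ih2 => exact ih1.trans ih2
  | congr_mul _ _ ih1 ih2 => simp only [evalTerm, ih1, ih2]
  | congr_plus _ ih => simp only [evalTerm, ih]
  | congr_star _ ih => simp only [evalTerm, ih]
  | mul_assoc x y z => exact mul_assoc _ _ _
  | one_mul x => exact one_mul _
  | mul_one x => exact mul_one _
  | plus_mul_self x => exact plus_mul_self _
  | plus_comm x y => exact plus_comm _ _
  | plus_plus_mul x y => exact plus_plus_mul _ _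
  | plus_mul x y => exact plus_mul _ _
  | mul_star_self x => exact mul_star_self _
  | star_comm x y => exact star_comm _ _
  | star_mul_star x y => exact star_mul_star _ _
  | star_mul x y => exact star_mul _ _
  | star_plus x => exact star_plus _
  | plus_star x => exact plus_star _

/-- The generators of `FE X`. -/
def gen (x : X) : FE X := Quotient.mk (termSetoid X) (Term.var x)

/-- The universal property map. -/
def lift : FE X → M := Quotient.lift (evalTerm f) (fun _ _ h => evalTerm_eqv f h)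

lemma lift_gen (x : X) : lift f (gen x) = f x := rfl

lemma lift_one : lift f (1 : FE X) = 1 := rfl

lemma lift_mul (a b : FE X) : lift f (a * b) = lift f a * lift f b :=
  Quotient.inductionOn₂ a b fun _ _ => rfl

lemma lift_plus (a : FE X) : lift f (plus a) = plus (lift f a) :=
  Quotient.inductionOn a fun _ => rfl

lemma lift_star (a : FE X) : lift f (star a) = star (lift f a) :=
  Quotient.inductionOn a fun _ => rfl

lemma lift_ev (t : T X) : lift f (ev gen t) = ev f t := by
  induction t with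
  | nil => rfl
  | cons d x c r ihc ihr =>
    cases d
    · simp only [ev, lift_mul, lift_star, lift_gen, ihc, ihr]
    · simp only [ev, lift_mul, lift_plus, lift_gen, ihc, ihr]

lemma lift_val (x : ℕ → X) (C : ℕ → T X) (n : ℕ) :
    lift f (val gen x C n) = val f x C n := by
  induction n with
  | zero => exact lift_ev f (C 0)
  | succ n ih =>
    change lift f (val gen x C n * gen (x n) * ev gen (C (n + 1))) = _
    rw [lift_mul, lift_mul, ih, lift_ev, lift_gen]
    rfl

end lift

end Pool.Agent.H83.Ehr
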