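import Pool.Agent.H83.Ehr2

/-!
# Completeness: path formulas with the same semantics have the same value
-/

universe u v

namespace Pool.Agent.H83.Ehr

open EhresmannMonoid

section canonical

variable {X : Type u} {M : Type v} [EhresmannMonoid M] (ι : X → M)

/-- The points of the canonical graph: the projections. -/
def Proj (M : Type v) [EhresmannMonoid M] : Type v := {e : M // IsProj e}

/-- The canonical graph. -/
def canR (x : X) (e f : Proj M) : Prop :=
  Le e.1 (plus (ι x * f.1)) ∧ Le f.1 (star (e.1 * ι x))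

lemma truth (t : T X) (e : Proj M) : sat (canR ι) t e ↔ Le e.1 (ev ι t) := by
  induction t generalizing e with
  | nil =>
    simp only [sat, ev, true_iff]
    exact le_one _
  | cons d x c r ihc ihr =>
    have hc := isProj_ev ι c
    have hr := isProj_ev ι r
    cases d
    · simp only [sat, ev]
      rw [le_mul_iff e.2 (isProj_star _) hr, ihr]
      refine and_congr_left fun _ => ?_
      constructor
      · rintro ⟨f, ⟨h1, h2⟩, h3⟩
        rw [ihc] at h3
        exact h2.trans (star_mono (ι x) f.2 hc h3)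
      · intro h
        have hp := (hc.mul (isProj_plus (ι x * e.1)))
        refine ⟨⟨ev ι c * plus (ι x * e.1), hp⟩, ⟨?_, ?_⟩, ?_⟩
        · exact mul_le_right hc (isProj_plus _)
        · change e.1 * star (ev ι c * plus (ι x * e.1) * ι x) = e.1
          have h4 : star (ev ι c * plus (ι x * e.1) * ι x) * e.1 = star (ev ι c * ι x) * e.1 := by
            rw [← e.2.star_mul', ← e.2.star_mul']
            congr 1
            rw [mul_assoc _ (ι x), mul_assoc (ev ι c), plus_mul_self, ← mul_assoc]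
          rw [e.2.comm (isProj_star _), h4, ← e.2.comm (isProj_star _)]
          exact h
        · rw [ihc]
          exact mul_le_left hc (isProj_plus _)
    · simp only [sat, ev]
      rw [le_mul_iff e.2 (isProj_plus _) hr, ihr]
      refine and_congr_left fun _ => ?_
      constructor
      · rintro ⟨f, ⟨h1, h2⟩, h3⟩
        rw [ihc] at h3
        exact h1.trans (plus_mono (ι x) f.2 hc h3)
      · intro h
        have hp := ((isProj_star (e.1 * ι x)).mul hc)
        refine ⟨⟨star (e.1 * ι x) * ev ι c, hp⟩, ⟨?_, ?_⟩, ?_⟩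
        · change e.1 * plus (ι x * (star (e.1 * ι x) * ev ι c)) = e.1
          rw [← e.2.plus_mul', ← mul_assoc, ← mul_assoc, mul_star_self, mul_assoc,
            e.2.plus_mul']
          exact h
        · exact mul_le_left (isProj_star _) hc
        · rw [ihc]
          exact mul_le_right (isProj_star _) hc

end canonical

section saturation

variable {M : Type v} [EhresmannMonoid M] (ξ δ : ℕ → M) (hδ : ∀ i, IsProj (δ i)) (n : ℕ)

/-- The suffix starting at `i` of length `k`. -/
def suf (i k : ℕ) : M := valM (fun j => ξ (i + j)) (fun j => δ (i + j)) k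

lemma suf_zero (i : ℕ) : suf ξ δ i 0 = δ i := rfl

lemma suf_succ (i k : ℕ) : suf ξ δ i (k + 1) = δ i * ξ i * suf ξ δ (i + 1) k := by
  unfold suf
  rw [valM_succ']
  have h1 : (fun j => ξ (i + (j + 1))) = (fun j => ξ (i + 1 + j)) := by
    funext j; congr 1; omega
  have h2 : (fun j => δ (i + (j + 1))) = (fun j => δ (i + 1 + j)) := by
    funext j; congr 1; omega
  rw [h1, h2]
  rfl

/-- The global decoration at position `i`. -/
def gam (i : ℕ) : M := star (valM ξ δ i) * plus (suf ξ δ i (n - i))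

lemma isProj_gam (i : ℕ) : IsProj (gam ξ δ n i) := (isProj_star _).mul (isProj_plus _)

include hδ in
lemma pre_succ (i : ℕ) :
    star (valM ξ δ (i + 1)) = star (star (valM ξ δ i) * ξ i) * δ (i + 1) := by
  rw [valM, (hδ _).star_mul', star_mul]

include hδ in
lemma post_succ (i : ℕ) (hi : i < n) :
    plus (suf ξ δ i (n - i)) = δ i * plus (ξ i * plus (suf ξ δ (i + 1) (n - (i + 1)))) := by
  have : n - i = (n - (i + 1)) + 1 := by omega
  rw [this, suf_succ, mul_assoc, (hδ _).plus_mul', plus_mul]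

include hδ in
lemma pre_mul (i : ℕ) : star (valM ξ δ i) * δ i = star (valM ξ δ i) := by
  cases i with
  | zero => simp only [valM]; rw [(hδ 0).star_eq, (hδ 0).idem]
  | succ i => rw [pre_succ ξ δ hδ, mul_assoc, (hδ _).idem]

include hδ in
lemma mul_suf (i k : ℕ) : δ i * suf ξ δ i k = suf ξ δ i k := by
  cases k with
  | zero => rw [suf_zero, (hδ i).idem]
  | succ k => rw [suf_succ, ← mul_assoc, ← mul_assoc, (hδ i).idem]

include hδ in
lemma mul_post (i k : ℕ) : δ i * plus (suf ξ δ i k) = plus (suf ξ δ i k) := by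
  rw [← (hδ i).plus_mul', mul_suf ξ δ hδ]

include hδ in
lemma gam_eq (i : ℕ) (hi : i < n) : gam ξ δ n i =
    star (valM ξ δ i) * plus (ξ i * plus (suf ξ δ (i + 1) (n - (i + 1)))) := by
  rw [gam, post_succ ξ δ hδ n i hi, ← mul_assoc, pre_mul ξ δ hδ]

include hδ in
lemma gam_succ_eq (i : ℕ) : gam ξ δ n (i + 1) =
    star (star (valM ξ δ i) * ξ i) * plus (suf ξ δ (i + 1) (n - (i + 1))) := by
  rw [gam, pre_succ ξ δ hδ, mul_assoc, mul_post ξ δ hδ]

include hδ in
lemma gam_path (i : ℕ) (hi : i < n) :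
    Le (gam ξ δ n i) (plus (ξ i * gam ξ δ n (i + 1))) ∧
      Le (gam ξ δ n (i + 1)) (star (gam ξ δ n i * ξ i)) := by
  set p := star (valM ξ δ i) with hp
  set q := plus (suf ξ δ (i + 1) (n - (i + 1))) with hq
  have hpp : IsProj p := isProj_star _
  have hqq : IsProj q := isProj_plus _
  rw [gam_succ_eq ξ δ hδ n i, gam_eq ξ δ hδ n i hi, ← hp, ← hq]
  constructor
  · unfold Le
    have h1 : p * plus (ξ i * (star (p * ξ i) * q)) = p * plus (ξ i * q) := by
      rw [← hpp.plus_mul', ← hpp.plus_mul']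
      congr 1
      rw [← mul_assoc (ξ i), ← mul_assoc p, ← mul_assoc p, mul_star_self, mul_assoc]
    rw [hpp.comm (isProj_plus _), mul_assoc, h1, hpp.comm (isProj_plus _), ← mul_assoc,
      (isProj_plus _).idem]
  · unfold Le
    have h1 : star (p * plus (ξ i * q) * ξ i) * q = star (p * ξ i) * q := by
      rw [← hqq.star_mul', ← hqq.star_mul']
      congr 1
      rw [mul_assoc, mul_assoc, plus_mul_self, ← mul_assoc]
    rw [mul_assoc, hqq.comm (isProj_star _), h1, ← mul_assoc, (isProj_star _).idem]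

include hδ in
lemma gam_le (i : ℕ) : Le (gam ξ δ n i) (δ i) := by
  unfold Le gam
  rw [mul_assoc, (isProj_plus _).comm (hδ i), mul_post ξ δ hδ]

include hδ in
lemma gam_mul (i : ℕ) : valM ξ (gam ξ δ n) i * δ i = valM ξ (gam ξ δ n) i := by
  cases i with
  | zero => simp only [valM]; exact gam_le ξ δ hδ n 0
  | succ i =>
    simp only [valM]
    rw [mul_assoc, gam_le ξ δ hδ n (i + 1)]

lemma gam_pre (i : ℕ) : gam ξ δ n i * star (valM ξ δ i) = gam ξ δ n i := by
  unfold gam
  rw [mul_assoc, (isProj_plus _).comm (isProj_star _), ← mul_assoc, (isProj_star _).idem]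

lemma gam_mul_pre (i : ℕ) :
    valM ξ (gam ξ δ n) i * star (valM ξ δ i) = valM ξ (gam ξ δ n) i := by
  cases i with
  | zero => simp only [valM]; exact gam_pre ξ δ n 0
  | succ i =>
    have : valM ξ (gam ξ δ n) (i + 1) =
      valM ξ (gam ξ δ n) i * ξ i * gam ξ δ n (i + 1) := rfl
    rw [this, mul_assoc _ (gam ξ δ n (i + 1)), gam_pre]

include hδ in
lemma valM_gam_aux (i : ℕ) (hi : i ≤ n) :
    valM ξ (gam ξ δ n) i * suf ξ δ i (n - i) = valM ξ δ n := by
  induction i with
  | zero =>
    change gam ξ δ n 0 * suf ξ δ 0 (n - 0) = _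
    have h0 : suf ξ δ 0 (n - 0) = valM ξ δ n := by
      unfold suf
      simp
    unfold gam
    rw [h0, mul_assoc, plus_mul_self]
    change star (δ 0) * _ = _
    rw [(hδ 0).star_eq, ← h0, mul_suf ξ δ hδ]
  | succ i ih =>
    have hi' : i < n := by omega
    rw [← ih (by omega)]
    have h1 : n - i = (n - (i + 1)) + 1 := by omega
    have h2 : valM ξ (gam ξ δ n) (i + 1) =
      valM ξ (gam ξ δ n) i * ξ i * gam ξ δ n (i + 1) := rfl
    have h3 : suf ξ δ i (n - i) = δ i * ξ i * suf ξ δ (i + 1) (n - (i + 1)) := by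
      rw [h1, suf_succ]
    rw [h2, h3, gam_succ_eq ξ δ hδ]
    set p := star (valM ξ δ i) with hp
    set Q := suf ξ δ (i + 1) (n - (i + 1)) with hQ
    set P := valM ξ (gam ξ δ n) i with hP
    have h4 : P * p = P := gam_mul_pre ξ δ n i
    have h5 : P * δ i = P := gam_mul ξ δ hδ n i
    have h6 : P * ξ i * star (p * ξ i) = P * ξ i := by
      conv_lhs => rw [← h4]
      rw [mul_assoc P p, mul_assoc P, mul_star_self, ← mul_assoc, h4]
    rw [← mul_assoc (P * ξ i), h6, mul_assoc (P * ξ i), plus_mul_self, ← mul_assoc, ← mul_assoc,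
      h5]

include hδ in
/-- Saturating the decorations does not change the value. -/
lemma valM_gam : valM ξ (gam ξ δ n) n = valM ξ δ n := by
  have := valM_gam_aux ξ δ hδ n n le_rfl
  rw [Nat.sub_self, suf_zero, gam_mul ξ δ hδ] at this
  exact this

include hδ in
/-- Saturated sequences below `δ` are below the global decorations. -/
lemma le_gam (ε : ℕ → M) (hε : ∀ i, IsProj (ε i))
    (hpath : ∀ i < n, Le (ε i) (plus (ξ i * ε (i + 1))) ∧ Le (ε (i + 1)) (star (ε i * ξ i)))
    (hle : ∀ i ≤ n, Le (ε i) (δ i)) (i : ℕ) (hi : i ≤ n) : Le (ε i) (gam ξ δ n i) := by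
  have h1 : ∀ i ≤ n, Le (ε i) (star (valM ξ δ i)) := by
    intro i hi
    induction i with
    | zero =>
      change Le (ε 0) (star (δ 0))
      rw [(hδ 0).star_eq]
      exact hle 0 hi
    | succ i ih =>
      rw [pre_succ ξ δ hδ, le_mul_iff (hε _) (isProj_star _) (hδ _)]
      refine ⟨?_, hle _ hi⟩
      exact (hpath i (by omega)).2.trans
        (star_mono (ξ i) (hε i) (isProj_star _) (ih (by omega)))
  have h2 : ∀ k ≤ n, Le (ε (n - k)) (plus (suf ξ δ (n - k) k)) := by
    intro k hk
    induction k with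
    | zero =>
      rw [suf_zero, (hδ _).plus_eq]
      exact hle _ (by omega)
    | succ k ih =>
      have e1 : n - (k + 1) + 1 = n - k := by omega
      have e2 : n - (n - (k + 1)) = k + 1 := by omega
      have e3 : n - (n - (k + 1) + 1) = k := by omega
      have h3 := post_succ ξ δ hδ n (n - (k + 1)) (by omega)
      rw [e2, e3, e1] at h3
      rw [h3, le_mul_iff (hε _) (hδ _) (isProj_plus _)]
      refine ⟨hle _ (by omega), ?_⟩
      have h4 := (hpath (n - (k + 1)) (by omega)).1
      rw [e1] at h4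
      exact h4.trans (plus_mono _ (hε _) (isProj_plus _) (ih (by omega)))
  have h3 := h2 (n - i) (by omega)
  have e : n - (n - i) = i := by omega
  rw [e] at h3
  unfold gam
  rw [le_mul_iff (hε _) (isProj_star _) (isProj_plus _)]
  exact ⟨h1 i hi, h3⟩

end saturation

section completeness

variable {X : Type u}

/-- Entailment between path formulas over the same word. -/
def PEnt (x : ℕ → X) (n : ℕ) (C C' : ℕ → T X) : Prop :=
  ∀ (V : Type u) (R : X → V → V → Prop) (w : ℕ → V), IsPath R x n w → PSat R C n w →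
    PSat R C' n w

variable {M : Type u} [EhresmannMonoid M] (ι : X → M)

lemma gam_le_gam {x : ℕ → X} {n : ℕ} {C C' : ℕ → T X} (h : PEnt x n C C') (i : ℕ) (hi : i ≤ n) :
    Le (gam (fun i => ι (x i)) (fun i => ev ι (C i)) n i)
      (gam (fun i => ι (x i)) (fun i => ev ι (C' i)) n i) := by
  have hC : ∀ i, IsProj (ev ι (C i)) := fun i => isProj_ev ι _
  have hC' : ∀ i, IsProj (ev ι (C' i)) := fun i => isProj_ev ι _
  have hp := gam_path (fun i => ι (x i)) (fun i => ev ι (C i)) hC n
  let w : ℕ → Proj M := fun i =>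
    ⟨gam (fun i => ι (x i)) (fun i => ev ι (C i)) n i, isProj_gam _ _ _ _⟩
  have h1 : PSat (canR ι) C' n w := by
    refine h (Proj M) (canR ι) w (fun i hi => hp i hi) ?_
    intro i hi
    rw [truth]
    exact gam_le _ _ hC n i
  refine le_gam _ _ hC' n (fun i => (w i).1) (fun i => (w i).2) hp ?_ i hi
  intro i hi
  have := h1 i hi
  rwa [truth] at this

/-- Completeness. -/
theorem val_eq_of_pent {x : ℕ → X} {n : ℕ} {C C' : ℕ → T X} (h : PEnt x n C C')
    (h' : PEnt x n C' C) : val ι x C n = val ι x C' n := by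
  have hC : ∀ i, IsProj (ev ι (C i)) := fun i => isProj_ev ι _
  have hC' : ∀ i, IsProj (ev ι (C' i)) := fun i => isProj_ev ι _
  unfold val
  rw [← valM_gam _ _ hC n, ← valM_gam _ _ hC' n]
  refine valM_congr (fun _ _ => rfl) fun i hi => ?_
  exact Le.antisymm (isProj_gam _ _ _ _) (isProj_gam _ _ _ _) (gam_le_gam ι h i hi)
    (gam_le_gam ι h' i hi)

end completeness

section rigid

variable {X : Type u}

/-- The rigidified graph of a path `u` along the word `x` of length `n`. -/
def rigR {V : Type u} (R : X → V → V → Prop) (x : ℕ → X) (n : ℕ) (u : ℕ → V) (z : X) :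
    ℕ ⊕ (ℕ × V) → ℕ ⊕ (ℕ × V) → Prop
  | .inl i, .inl j => i < n ∧ j = i + 1 ∧ z = x i
  | .inl i, .inr (j, y) => j = i ∧ R z (u i) y
  | .inr (i, y), .inl j => i = j ∧ R z y (u j)
  | .inr (i, y), .inr (j, y') => i = j ∧ R z y y'

/-- Projection of the rigidified graph. -/
def rigP {V : Type u} (u : ℕ → V) : ℕ ⊕ (ℕ × V) → V
  | .inl i => u i
  | .inr (_, y) => y

/-- Position. -/
def rigPos {V : Type u} : ℕ ⊕ (ℕ × V) → ℕ
  | .inl i => i
  | .inr (i, _) => i

lemma sat_rigP {V : Type u} {R : X → V → V → Prop} {x : ℕ → X} {n : ℕ} {u : ℕ → V}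
    (hu : IsPath R x n u) (t : T X) (a : ℕ ⊕ (ℕ × V)) (h : sat (rigR R x n u) t a) :
    sat R t (rigP u a) := by
  refine sat_hom (rigR R x n u) R (rigP u) ?_ t a h
  rintro z (i | ⟨i, y⟩) (j | ⟨j, y'⟩) hab
  · obtain ⟨h1, rfl, rfl⟩ := hab
    exact hu i h1
  · exact hab.2
  · exact hab.2
  · exact hab.2

lemma sat_rig_inr {V : Type u} {R : X → V → V → Prop} {x : ℕ → X} {n : ℕ} {u : ℕ → V}
    (t : T X) (i : ℕ) (y : V) (h : sat R t y) : sat (rigR R x n u) t (.inr (i, y)) :=
  sat_hom R (rigR R x n u) (fun y => .inr (i, y)) (fun _ _ _ h => ⟨rfl, h⟩) t y h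

lemma sat_rig_inl {V : Type u} {R : X → V → V → Prop} {x : ℕ → X} {n : ℕ} {u : ℕ → V}
    (t : T X) (i : ℕ) (h : sat R t (u i)) : sat (rigR R x n u) t (.inl i) := by
  induction t with
  | nil => trivial
  | cons d z c r _ ihr =>
    cases d
    · obtain ⟨⟨v, h1, h2⟩, h3⟩ := h
      exact ⟨⟨.inr (i, v), ⟨rfl, h1⟩, sat_rig_inr c i v h2⟩, ihr h3⟩
    · obtain ⟨⟨v, h1, h2⟩, h3⟩ := h
      exact ⟨⟨.inr (i, v), ⟨rfl, h1⟩, sat_rig_inr c i v h2⟩, ihr h3⟩

/-- Paths of length `n` from `inl 0` to `inl n` are the trunk. -/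
lemma rig_unique {V : Type u} {R : X → V → V → Prop} {x y : ℕ → X} {n : ℕ} {u : ℕ → V}
    (w : ℕ → ℕ ⊕ (ℕ × V)) (h0 : w 0 = .inl 0) (hn : w n = .inl n)
    (hp : IsPath (rigR R x n u) y n w) : ∀ i ≤ n, w i = .inl i := by
  have hstep : ∀ z a b, rigR R x n u z a b → rigPos b ≤ rigPos a + 1 := by
    rintro z (i | ⟨i, y⟩) (j | ⟨j, y'⟩) hab
    · obtain ⟨_, rfl, _⟩ := hab; simp [rigPos]
    · obtain ⟨rfl, _⟩ := hab; simp [rigPos]
    · obtain ⟨rfl, _⟩ := hab; simp [rigPos]
    · obtain ⟨rfl, _⟩ := hab; simp [rigPos]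
  have hup : ∀ i ≤ n, rigPos (w i) ≤ i := by
    intro i hi
    induction i with
    | zero => rw [h0]; simp [rigPos]
    | succ i ih =>
      have := hstep _ _ _ (hp i (by omega))
      have := ih (by omega)
      omega
  have hdown : ∀ k ≤ n, n - k ≤ rigPos (w (n - k)) := by
    intro k hk
    induction k with
    | zero => rw [Nat.sub_zero, hn]; simp [rigPos]
    | succ k ih =>
      have h1 := hstep _ _ _ (hp (n - (k + 1)) (by omega))
      have e : n - (k + 1) + 1 = n - k := by omega
      rw [e] at h1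
      have := ih (by omega)
      omega
  have hpos : ∀ i ≤ n, rigPos (w i) = i := by
    intro i hi
    have h1 := hup i hi
    have h2 := hdown (n - i) (by omega)
    have e : n - (n - i) = i := by omega
    rw [e] at h2
    omega
  intro i hi
  rcases Nat.lt_or_ge i n with h | h
  · have h1 := hp i h
    have h2 := hpos i (by omega)
    have h3 := hpos (i + 1) (by omega)
    rcases hwi : w i with a | ⟨a, ya⟩
    · rw [hwi] at h2
      simp only [rigPos] at h2
      rw [h2]
    · rcases hwi' : w (i + 1) with b | ⟨b, yb⟩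
      · rw [hwi, hwi'] at h1
        rw [hwi] at h2
        rw [hwi'] at h3
        simp only [rigPos] at h2 h3
        have := h1.1
        omega
      · rw [hwi, hwi'] at h1
        rw [hwi] at h2
        rw [hwi'] at h3
        simp only [rigPos] at h2 h3
        have := h1.1
        omega
  · have : i = n := by omega
    rw [this]; exact hn

/-- Soundness: equality in the free Ehresmann monoid gives path entailment. -/
theorem pent_of_val_eq {x : ℕ → X} {n : ℕ} {C C' : ℕ → T X}
    (h : val gen x C n = (val gen x C' n : FE X)) : PEnt x n C C' := by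
  intro V R u hu hC
  have h1 := congrArg (lift (M := RelM (ℕ ⊕ (ℕ × V))) (rigR R x n u)) h
  rw [lift_val, lift_val] at h1
  have h2 : val (M := RelM (ℕ ⊕ (ℕ × V))) (rigR R x n u) x C n (.inl 0) (.inl n) := by
    rw [val_rel]
    refine ⟨fun i => .inl i, rfl, rfl, ?_, ?_⟩
    · intro i hi
      exact ⟨hi, rfl, rfl⟩
    · intro i hi
      exact sat_rig_inl _ _ (hC i hi)
  rw [h1, val_rel] at h2
  obtain ⟨w, h0, hn, hp, hs⟩ := h2
  have hw := rig_unique w h0 hn hp
  intro i hi
  have h3 := hs i hi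
  rw [hw i hi] at h3
  exact sat_rigP hu _ _ h3

end rigid

end Pool.Agent.H83.Ehr
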