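import Pool.Agent.H83.Ehr3
import Mathlib.Algebra.FreeMonoid.Basic
import Mathlib.Data.List.Range
import Mathlib.Data.Finset.Lattice.Fold

/-!
# Normal forms in `FE X`, right adequacy, concatenation
-/

universe u v

namespace Pool.Agent.H83.Ehr

open EhresmannMonoid

variable {X : Type u}

/-! ### Words -/

/-- Lists as an Ehresmann monoid with trivial unary operations. -/
def WordM (X : Type u) : Type u := FreeMonoid X

instance : EhresmannMonoid (WordM X) where
  mul := fun a b : FreeMonoid X => a * b
  one := (1 : FreeMonoid X)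
  mul_assoc := fun a b c : FreeMonoid X => mul_assoc a b c
  one_mul := fun a : FreeMonoid X => one_mul a
  mul_one := fun a : FreeMonoid X => mul_one a
  plus := fun _ => (1 : FreeMonoid X)
  star := fun _ => (1 : FreeMonoid X)
  plus_mul_self := fun a : FreeMonoid X => one_mul a
  plus_comm := fun _ _ => rfl
  plus_plus_mul := fun _ _ => rfl
  plus_mul := fun _ _ => rfl
  mul_star_self := fun a : FreeMonoid X => mul_one a
  star_comm := fun _ _ => rfl
  star_mul_star := fun _ _ => rfl
  star_mul := fun _ _ => rfl
  star_plus := fun _ => rfl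
  plus_star := fun _ => rfl

/-- Generator of the word monoid. -/
def wgen (x : X) : WordM X := FreeMonoid.of x

/-- Underlying list. -/
def WordM.toL (w : WordM X) : List X := FreeMonoid.toList w

lemma toL_mul (a b : WordM X) : (a * b).toL = a.toL ++ b.toL := rfl
lemma toL_one : (1 : WordM X).toL = [] := rfl
lemma toL_gen (x : X) : (wgen x).toL = [x] := rfl

lemma ev_word (t : T X) : ev wgen t = (1 : WordM X) := by
  induction t with
  | nil => rfl
  | cons d x c r ihc ihr =>
    cases d
    · simp only [ev, ihr]; rfl
    · simp only [ev, ihr]; rfl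

lemma val_word (x : ℕ → X) (C : ℕ → T X) (n : ℕ) :
    (val wgen x C n : WordM X).toL = (List.range n).map x := by
  induction n with
  | zero =>
    change (ev wgen (C 0) : WordM X).toL = _
    rw [ev_word, toL_one]
    rfl
  | succ n ih =>
    change (val wgen x C n * wgen (x n) * ev wgen (C (n + 1)) : WordM X).toL = _
    rw [ev_word, mul_one, toL_mul, ih, toL_gen, List.range_succ, List.map_append]
    rfl

lemma word_of_val_eq {x x' : ℕ → X} {C C' : ℕ → T X} {n n' : ℕ}
    (h : (val gen x C n : FE X) = val gen x' C' n') : n = n' ∧ ∀ i < n, x i = x' i := by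
  have h1 := congrArg (fun s => (lift wgen s : WordM X).toL) h
  simp only [lift_val, val_word] at h1
  have h2 : n = n' := by
    have := congrArg List.length h1
    simpa using this
  subst h2
  refine ⟨rfl, fun i hi => ?_⟩
  rw [List.map_inj_left] at h1
  exact h1 i (List.mem_range.2 hi)

/-! ### Concatenation -/

/-- Concatenation of words. -/
def catX {Y : Type*} (n : ℕ) (x y : ℕ → Y) (i : ℕ) : Y := if i < n then x i else y (i - n)

/-- Concatenation of decorations. -/
def catC (n : ℕ) (C D : ℕ → T X) (i : ℕ) : T X :=
  if i < n then C i else if i = n then (C n).append (D 0) else D (i - n)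

/-- Concatenation of paths. -/
def catW {Y : Type*} (n : ℕ) (q w : ℕ → Y) (i : ℕ) : Y := if i ≤ n then q i else w (i - n)

/-- Adding a decoration at the start. -/
def pre (S : T X) (C : ℕ → T X) (i : ℕ) : T X := if i = 0 then S.append (C 0) else C i

/-- Adding a decoration at the end. -/
def post (n : ℕ) (S : T X) (C : ℕ → T X) (i : ℕ) : T X := if i = n then (C n).append S else C i

section
variable {M : Type v} [EhresmannMonoid M] (ι : X → M)

lemma val_post (x : ℕ → X) (C : ℕ → T X) (n : ℕ) (S : T X) :
    val ι x (post n S C) n = val ι x C n * ev ι S := by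
  cases n with
  | zero =>
    change ev ι (post 0 S C 0) = ev ι (C 0) * ev ι S
    simp [post, ev_append]
  | succ n =>
    have h1 : val ι x (post (n + 1) S C) (n + 1) =
      val ι x (post (n + 1) S C) n * ι (x n) * ev ι (post (n + 1) S C (n + 1)) := rfl
    have h2 : val ι x C (n + 1) = val ι x C n * ι (x n) * ev ι (C (n + 1)) := rfl
    rw [h1, h2]
    have h3 : val ι x (post (n + 1) S C) n = val ι x C n := by
      refine val_congr ι (fun _ _ => rfl) fun i hi => ?_
      have : i ≠ n + 1 := by omega
      simp [post, this]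
    rw [h3]
    simp [post, ev_append, mul_assoc]

lemma val_pre (x : ℕ → X) (C : ℕ → T X) (n : ℕ) (S : T X) :
    val ι x (pre S C) n = ev ι S * val ι x C n := by
  induction n with
  | zero =>
    change ev ι (pre S C 0) = ev ι S * ev ι (C 0)
    simp [pre, ev_append]
  | succ n ih =>
    have h1 : val ι x (pre S C) (n + 1) =
      val ι x (pre S C) n * ι (x n) * ev ι (pre S C (n + 1)) := rfl
    have h2 : val ι x C (n + 1) = val ι x C n * ι (x n) * ev ι (C (n + 1)) := rfl
    rw [h1, h2, ih]
    simp [pre, mul_assoc]

lemma val_cat (x y : ℕ → X) (C D : ℕ → T X) (n k : ℕ) :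
    val ι (catX n x y) (catC n C D) (n + k) = val ι x C n * val ι y D k := by
  induction k with
  | zero =>
    have h1 : val ι (catX n x y) (catC n C D) (n + 0) = val ι x (post n (D 0) C) n := by
      refine val_congr ι (fun i hi => ?_) (fun i hi => ?_)
      · simp [catX, show i < n from hi]
      · rcases Nat.lt_or_ge i n with h | h
        · simp [catC, post, h, show i ≠ n by omega]
        · have : i = n := by omega
          subst this
          simp [catC, post]
    rw [h1, val_post]
    rfl
  | succ k ih =>
    have h1 : val ι (catX n x y) (catC n C D) (n + (k + 1)) =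
      val ι (catX n x y) (catC n C D) (n + k) * ι (catX n x y (n + k)) *
        ev ι (catC n C D (n + k + 1)) := rfl
    have h2 : val ι y D (k + 1) = val ι y D k * ι (y k) * ev ι (D (k + 1)) := rfl
    rw [h1, h2, ih]
    have e1 : catX n x y (n + k) = y k := by
      simp [catX]
    have e2 : catC n C D (n + k + 1) = D (k + 1) := by
      have h3 : ¬ (n + k + 1 < n) := by omega
      have h4 : ¬ (n + k + 1 = n) := by omega
      have h5 : n + k + 1 - n = k + 1 := by omega
      simp only [catC, h3, h4, if_false, h5]
    rw [e1, e2]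
    simp only [mul_assoc]

end

/-- Every element of `FE X` is the value of a path formula. -/
theorem exists_val [Nonempty X] (s : FE X) : ∃ (x : ℕ → X) (C : ℕ → T X) (n : ℕ),
    s = val gen x C n := by
  obtain ⟨x0⟩ := (inferInstance : Nonempty X)
  refine Quotient.inductionOn s fun t => ?_
  induction t with
  | var x =>
    refine ⟨fun _ => x, fun _ => .nil, 1, ?_⟩
    change gen x = 1 * gen x * 1
    rw [one_mul, mul_one]
  | one => exact ⟨fun _ => x0, fun _ => .nil, 0, rfl⟩
  | mul s t ihs iht =>
    obtain ⟨x, C, n, hs⟩ := ihs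
    obtain ⟨y, D, k, ht⟩ := iht
    refine ⟨catX n x y, catC n C D, n + k, ?_⟩
    rw [val_cat, ← hs, ← ht]
    rfl
  | plus s ihs =>
    obtain ⟨x, C, n, hs⟩ := ihs
    refine ⟨x, fun _ => plusT n x C, 0, ?_⟩
    change plus (show FE X from Quotient.mk (termSetoid X) s) = ev gen (plusT n x C)
    rw [ev_plusT]
    exact congrArg (plus : FE X → FE X) hs
  | star s ihs =>
    obtain ⟨x, C, n, hs⟩ := ihs
    refine ⟨x, fun _ => starT n x C, 0, ?_⟩
    change EhresmannMonoid.star (show FE X from Quotient.mk (termSetoid X) s) =
      ev gen (starT n x C)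
    rw [ev_starT]
    exact congrArg (EhresmannMonoid.star : FE X → FE X) hs

/-! ### Semantics of concatenation -/

section
variable {V : Type v} (R : X → V → V → Prop)

lemma sat_starT (n : ℕ) (x : ℕ → X) (C : ℕ → T X) (p : V) :
    sat R (starT n x C) p ↔ ∃ q : ℕ → V, q n = p ∧ IsPath R x n q ∧ PSat R C n q := by
  have h := ev_rel R (starT n x C) p p
  rw [ev_starT (M := RelM V) R n x C] at h
  have h2 : star (val (M := RelM V) R x C n) p p ↔
    p = p ∧ ∃ w, val (M := RelM V) R x C n w p := Iff.rfl
  rw [h2] at h
  simp only [true_and] at h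
  rw [← h]
  constructor
  · rintro ⟨w, hw⟩
    rw [val_rel] at hw
    obtain ⟨q, _, hq, h3, h4⟩ := hw
    exact ⟨q, hq, h3, h4⟩
  · rintro ⟨q, hq, h3, h4⟩
    refine ⟨q 0, ?_⟩
    rw [val_rel]
    exact ⟨q, rfl, hq, h3, h4⟩

lemma sat_plusT (n : ℕ) (x : ℕ → X) (C : ℕ → T X) (p : V) :
    sat R (plusT n x C) p ↔ ∃ q : ℕ → V, q 0 = p ∧ IsPath R x n q ∧ PSat R C n q := by
  have h := ev_rel R (plusT n x C) p p
  rw [ev_plusT (M := RelM V) R n x C] at h
  have h2 : plus (val (M := RelM V) R x C n) p p ↔
    p = p ∧ ∃ w, val (M := RelM V) R x C n p w := Iff.rfl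
  rw [h2] at h
  simp only [true_and] at h
  rw [← h]
  constructor
  · rintro ⟨w, hw⟩
    rw [val_rel] at hw
    obtain ⟨q, hq, _, h3, h4⟩ := hw
    exact ⟨q, hq, h3, h4⟩
  · rintro ⟨q, hq, h3, h4⟩
    refine ⟨q n, ?_⟩
    rw [val_rel]
    exact ⟨q, hq, rfl, h3, h4⟩

lemma isPath_cat {n k : ℕ} {x y : ℕ → X} {q w : ℕ → V} (h : q n = w 0)
    (h1 : IsPath R x n q) (h2 : IsPath R y k w) :
    IsPath R (catX n x y) (n + k) (catW n q w) := by
  intro i hi
  rcases Nat.lt_or_ge i n with h' | h'
  · have e1 : i ≤ n := by omega
    have e2 : i + 1 ≤ n := by omega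
    simp only [catX, catW, h', e1, e2, if_true]
    exact h1 i h'
  · have e1 : ¬ (i < n) := by omega
    have e2 : ¬ (i + 1 ≤ n) := by omega
    have e3 : i + 1 - n = (i - n) + 1 := by omega
    have h3 := h2 (i - n) (by omega)
    rcases Nat.eq_or_lt_of_le h' with h4 | h4
    · subst h4
      simp only [catX, catW, e1, e2, if_false, le_refl, if_true, e3, h]
      simpa using h3
    · have e4 : ¬ (i ≤ n) := by omega
      simp only [catX, catW, e1, e2, e4, if_false, e3]
      exact h3

lemma pSat_cat {n k : ℕ} {C D : ℕ → T X} {q w : ℕ → V} (h : q n = w 0) :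
    PSat R (catC n C D) (n + k) (catW n q w) ↔ PSat R C n q ∧ PSat R D k w := by
  constructor
  · intro hs
    constructor
    · intro i hi
      have h1 := hs i (by omega)
      rcases Nat.lt_or_ge i n with h' | h'
      · simp only [catC, catW, h', hi, if_true] at h1
        exact h1
      · have : i = n := by omega
        subst this
        simp only [catC, catW, lt_irrefl, if_false, le_refl, if_true, sat_append] at h1
        exact h1.1
    · intro i hi
      have h1 := hs (n + i) (by omega)
      have e1 : ¬ (n + i < n) := by omega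
      rcases Nat.eq_zero_or_pos i with h' | h'
      · subst h'
        simp only [Nat.add_zero, catC, catW, lt_irrefl, if_false, le_refl, if_true,
          sat_append] at h1
        rw [← h]
        exact h1.2
      · have e2 : ¬ (n + i = n) := by omega
        have e3 : ¬ (n + i ≤ n) := by omega
        have e4 : n + i - n = i := by omega
        simp only [catC, catW, e1, e2, e3, if_false, e4] at h1
        exact h1
  · rintro ⟨h1, h2⟩ i hi
    rcases Nat.lt_trichotomy i n with h' | h' | h'
    · have e1 : i ≤ n := by omega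
      simp only [catC, catW, h', e1, if_true]
      exact h1 i e1
    · subst h'
      simp only [catC, catW, lt_irrefl, if_false, le_refl, if_true, sat_append]
      exact ⟨h1 i le_rfl, by rw [h]; exact h2 0 (by omega)⟩
    · have e1 : ¬ (i < n) := by omega
      have e2 : ¬ (i = n) := by omega
      have e3 : ¬ (i ≤ n) := by omega
      simp only [catC, catW, e1, e2, e3, if_false]
      exact h2 (i - n) (by omega)

lemma pSat_pre {k : ℕ} {S : T X} {C : ℕ → T X} {w : ℕ → V} :
    PSat R (pre S C) k w ↔ sat R S (w 0) ∧ PSat R C k w := by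
  constructor
  · intro h
    have h0 := h 0 (by omega)
    simp only [pre, if_true, sat_append] at h0
    refine ⟨h0.1, fun i hi => ?_⟩
    rcases Nat.eq_zero_or_pos i with h' | h'
    · subst h'; exact h0.2
    · have := h i hi
      simp only [pre, show ¬ (i = 0) by omega, if_false] at this
      exact this
  · rintro ⟨h1, h2⟩ i hi
    rcases Nat.eq_zero_or_pos i with h' | h'
    · subst h'
      simp only [pre, if_true, sat_append]
      exact ⟨h1, h2 0 hi⟩
    · simp only [pre, show ¬ (i = 0) by omega, if_false]
      exact h2 i hi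

lemma pSat_post {k : ℕ} {S : T X} {C : ℕ → T X} {w : ℕ → V} :
    PSat R (post k S C) k w ↔ sat R S (w k) ∧ PSat R C k w := by
  constructor
  · intro h
    have h0 := h k le_rfl
    simp only [post, if_true, sat_append] at h0
    refine ⟨h0.2, fun i hi => ?_⟩
    rcases Nat.eq_or_lt_of_le hi with h' | h'
    · subst h'; exact h0.1
    · have := h i hi
      simp only [post, show ¬ (i = k) by omega, if_false] at this
      exact this
  · rintro ⟨h1, h2⟩ i hi
    rcases Nat.eq_or_lt_of_le hi with h' | h'
    · subst h'
      simp only [post, if_true, sat_append]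
      exact ⟨h2 i hi, h1⟩
    · simp only [post, show ¬ (i = k) by omega, if_false]
      exact h2 i hi

end

/-- `FE X` is right adequate. -/
theorem radq_FE [Nonempty X] : RAdq (FE X) := by
  intro a u v huv
  obtain ⟨x, A, n, rfl⟩ := exists_val a
  obtain ⟨y, U, k, rfl⟩ := exists_val u
  obtain ⟨y', U', k', rfl⟩ := exists_val v
  rw [← val_cat, ← val_cat] at huv
  obtain ⟨h1, h2⟩ := word_of_val_eq huv
  have hk : k = k' := by omega
  subst hk
  have hy : ∀ i < k, y' i = y i := by
    intro i hi
    have := h2 (n + i) (by omega)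
    simp only [catX, show ¬ (n + i < n) by omega, if_false, Nat.add_sub_cancel_left] at this
    exact this.symm
  have hv : (val gen y' U' k : FE X) = val gen y U' k := val_congr gen hy (fun _ _ => rfl)
  rw [hv]
  have huv' : (val gen (catX n x y) (catC n A U) (n + k) : FE X) =
      val gen (catX n x y) (catC n A U') (n + k) := by
    rw [huv]
    refine val_congr gen (fun i hi => (h2 i hi).symm) (fun _ _ => rfl)
  have key : ∀ W W' : ℕ → T X, (val gen (catX n x y) (catC n A W) (n + k) : FE X) =
      val gen (catX n x y) (catC n A W') (n + k) →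
      PEnt y k (pre (starT n x A) W) (pre (starT n x A) W') := by
    intro W W' hW V R w hw hs
    rw [pSat_pre] at hs ⊢
    obtain ⟨q, hq, h3, h4⟩ := (sat_starT R n x A (w 0)).1 hs.1
    have h5 := pent_of_val_eq hW V R (catW n q w) (isPath_cat R hq h3 hw)
      ((pSat_cat R hq).2 ⟨h4, hs.2⟩)
    exact ⟨hs.1, ((pSat_cat R hq).1 h5).2⟩
  have h6 := val_eq_of_pent (M := FE X) gen (key U U' huv') (key U' U huv'.symm)
  rw [val_pre, val_pre, ev_starT] at h6
  exact h6

end Pool.Agent.H83.Ehr
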