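import Pool.Agent.H83.Ehr4
import Mathlib.Order.Fin.Basic

/-!
# Truncation and the right ideal Howson property
-/

universe u v

namespace Pool.Agent.H83.Ehr

open EhresmannMonoid

variable {X : Type u}

/-- Modal depth. -/
def T.depth : T X → ℕ
  | .nil => 0
  | .cons _ _ c r => max (c.depth + 1) r.depth

/-- All letters lie in `A`. -/
def T.lettersIn (A : Set X) : T X → Prop
  | .nil => True
  | .cons _ x c r => x ∈ A ∧ c.lettersIn A ∧ r.lettersIn A

open Classical in
/-- Truncation at depth `N`, keeping only letters in `A`. -/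
noncomputable def trunc (A : Set X) : T X → ℕ → T X
  | .nil, _ => .nil
  | .cons _ _ _ _, 0 => .nil
  | .cons d x c r, N + 1 =>
    if x ∈ A then .cons d x (trunc A c N) (trunc A r (N + 1)) else trunc A r (N + 1)

lemma trunc_zero (A : Set X) (t : T X) : trunc A t 0 = .nil := by
  cases t <;> rfl

lemma trunc_mem {A : Set X} {d : Bool} {x : X} {c r : T X} {N : ℕ} (h : x ∈ A) :
    trunc A (.cons d x c r) (N + 1) = .cons d x (trunc A c N) (trunc A r (N + 1)) := by
  simp [trunc, h]

lemma trunc_notMem {A : Set X} {d : Bool} {x : X} {c r : T X} {N : ℕ} (h : x ∉ A) :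
    trunc A (.cons d x c r) (N + 1) = trunc A r (N + 1) := by
  simp [trunc, h]

section ev
variable {M : Type v} [EhresmannMonoid M] (ι : X → M)

/-- A formula entails its truncations. -/
lemma ev_le_trunc (A : Set X) (t : T X) (N : ℕ) : Le (ev ι t) (ev ι (trunc A t N)) := by
  induction t generalizing N with
  | nil => exact (isProj_one).idem
  | cons d x c r ihc ihr =>
    cases N with
    | zero => exact le_one _
    | succ N =>
      have hr := isProj_ev ι r
      have hc := isProj_ev ι c
      by_cases hx : x ∈ A
      · rw [trunc_mem hx]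
        cases d
        · simp only [ev]
          have h1 := (isProj_star (ev ι c * ι x)).mul hr
          rw [le_mul_iff h1 (isProj_star _) (isProj_ev ι _)]
          refine ⟨(mul_le_left (isProj_star _) hr).trans ?_,
            (mul_le_right (isProj_star _) hr).trans (ihr _)⟩
          exact star_mono (ι x) hc (isProj_ev ι _) (ihc N)
        · simp only [ev]
          have h1 := (isProj_plus (ι x * ev ι c)).mul hr
          rw [le_mul_iff h1 (isProj_plus _) (isProj_ev ι _)]
          refine ⟨(mul_le_left (isProj_plus _) hr).trans ?_,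
            (mul_le_right (isProj_plus _) hr).trans (ihr _)⟩
          exact plus_mono (ι x) hc (isProj_ev ι _) (ihc N)
      · rw [trunc_notMem hx]
        cases d
        · exact (mul_le_right (isProj_star _) hr).trans (ihr _)
        · exact (mul_le_right (isProj_plus _) hr).trans (ihr _)

/-- A finite set of projections is contained in a finite set containing `1` and closed under
multiplication by the given projections. -/
lemma exists_closed (K : Finset M) (hK : ∀ k ∈ K, IsProj k) :
    ∃ P : Finset M, (1 : M) ∈ P ∧ ∀ k ∈ K, ∀ p ∈ P, k * p ∈ P := by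
  classical
  induction K using Finset.induction_on with
  | empty => exact ⟨{1}, by simp, by simp⟩
  | insert k K _ ih =>
    obtain ⟨P, h1, h2⟩ := ih (fun k' hk' => hK k' (Finset.mem_insert_of_mem hk'))
    have hk := hK k (Finset.mem_insert_self _ _)
    refine ⟨P ∪ P.image (fun p => k * p), by simp [h1], ?_⟩
    intro k' hk' p hp
    rw [Finset.mem_union, Finset.mem_image] at hp
    rw [Finset.mem_union, Finset.mem_image]
    rw [Finset.mem_insert] at hk'
    rcases hk' with rfl | hk'
    · rcases hp with hp | ⟨p', hp', rfl⟩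
      · right; exact ⟨p, hp, rfl⟩
      · right; exact ⟨p', hp', by rw [← mul_assoc, hk.idem]⟩
    · have hk'' := hK k' (Finset.mem_insert_of_mem hk')
      rcases hp with hp | ⟨p', hp', rfl⟩
      · left; exact h2 k' hk' p hp
      · right
        exact ⟨k' * p', h2 k' hk' p' hp', by rw [← mul_assoc, hk.comm hk'', mul_assoc]⟩

/-- There are only finitely many truncations up to equality of values. -/
lemma finite_trunc (A : Finset X) (N : ℕ) :
    ∃ F : Finset M, ∀ t : T X, ev ι (trunc (A : Set X) t N) ∈ F := by
  classical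
  induction N with
  | zero =>
    refine ⟨{1}, fun t => ?_⟩
    rw [trunc_zero]
    simp [ev]
  | succ N ih =>
    obtain ⟨F, hF⟩ := ih
    let K : Finset M := (A ×ˢ F).image (fun p => plus (ι p.1 * p.2)) ∪
      (A ×ˢ F).image (fun p => star (p.2 * ι p.1))
    have hK : ∀ k ∈ K, IsProj k := by
      intro k hk
      rw [Finset.mem_union, Finset.mem_image, Finset.mem_image] at hk
      rcases hk with ⟨p, _, rfl⟩ | ⟨p, _, rfl⟩
      · exact isProj_plus _
      · exact isProj_star _
    obtain ⟨P, hP1, hP2⟩ := exists_closed K hK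
    refine ⟨P, fun t => ?_⟩
    induction t with
    | nil => exact hP1
    | cons d x c r _ ihr =>
      by_cases hx : x ∈ (A : Set X)
      · rw [trunc_mem hx]
        cases d
        · apply hP2 _ _ _ ihr
          rw [Finset.mem_union, Finset.mem_image, Finset.mem_image]
          right
          exact ⟨(x, ev ι (trunc (A : Set X) c N)), Finset.mem_product.2 ⟨hx, hF c⟩, rfl⟩
        · apply hP2 _ _ _ ihr
          rw [Finset.mem_union, Finset.mem_image, Finset.mem_image]
          left
          exact ⟨(x, ev ι (trunc (A : Set X) c N)), Finset.mem_product.2 ⟨hx, hF c⟩, rfl⟩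
      · rw [trunc_notMem hx]
        exact ihr

end ev

section model

variable {V : Type u} (R : X → V → V → Prop) (A : Set X)

/-- The graph with budget levels and a universal point. -/
def trR (z : X) : Option (V × ℕ) → Option (V × ℕ) → Prop
  | some (y, j), some (y', j') => R z y y' ∧ j ≤ j' + 1 ∧ j' ≤ j + 1
  | some (_, j), none => j = 0 ∨ z ∉ A
  | none, some (_, j) => j = 0 ∨ z ∉ A
  | none, none => True

lemma sat_none (t : T X) : sat (trR R A) t none := by
  induction t with
  | nil => trivial
  | cons d x c r ihc ihr =>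
    cases d
    · exact ⟨⟨none, trivial, ihc⟩, ihr⟩
    · exact ⟨⟨none, trivial, ihc⟩, ihr⟩

lemma sat_level (t : T X) (y : V) (j : ℕ) (h : sat R t y) : sat (trR R A) t (some (y, j)) :=
  sat_hom R (trR R A) (fun y => some (y, j)) (fun _ _ _ h => ⟨h, by omega, by omega⟩) t y h

lemma sat_of_trunc (t : T X) : ∀ (y : V) (j : ℕ), sat R (trunc A t j) y →
    sat (trR R A) t (some (y, j)) := by
  induction t with
  | nil => intro _ _ _; trivial
  | cons d x c r ihc ihr =>
    intro y j h
    cases j with
    | zero =>
      have h1 : sat (trR R A) r (some (y, 0)) := ihr y 0 (by rw [trunc_zero]; trivial)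
      cases d
      · exact ⟨⟨none, Or.inl rfl, sat_none R A c⟩, h1⟩
      · exact ⟨⟨none, Or.inl rfl, sat_none R A c⟩, h1⟩
    | succ j =>
      by_cases hx : x ∈ A
      · rw [trunc_mem hx] at h
        cases d
        · obtain ⟨⟨v, h1, h2⟩, h3⟩ := h
          exact ⟨⟨some (v, j), ⟨h1, by omega, by omega⟩, ihc v j h2⟩, ihr y _ h3⟩
        · obtain ⟨⟨v, h1, h2⟩, h3⟩ := h
          exact ⟨⟨some (v, j), ⟨h1, by omega, by omega⟩, ihc v j h2⟩, ihr y _ h3⟩
      · rw [trunc_notMem hx] at h
        cases d
        · exact ⟨⟨none, Or.inr hx, sat_none R A c⟩, ihr y _ h⟩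
        · exact ⟨⟨none, Or.inr hx, sat_none R A c⟩, ihr y _ h⟩

lemma sat_of_level (t : T X) : ∀ (y : V) (j : ℕ), t.depth ≤ j → t.lettersIn A →
    sat (trR R A) t (some (y, j)) → sat R t y := by
  induction t with
  | nil => intro _ _ _ _ _; trivial
  | cons d x c r ihc ihr =>
    intro y j hd hl h
    simp only [T.depth] at hd
    simp only [T.lettersIn] at hl
    have hd1 : c.depth + 1 ≤ j := le_trans (le_max_left _ _) hd
    have hd2 : r.depth ≤ j := le_trans (le_max_right _ _) hd
    cases d
    · obtain ⟨⟨v, h1, h2⟩, h3⟩ := h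
      refine ⟨?_, ihr y j hd2 hl.2.2 h3⟩
      match v, h1, h2 with
      | none, h1, _ =>
        rcases h1 with h1 | h1
        · omega
        · exact absurd hl.1 h1
      | some (v, j'), h1, h2 =>
        exact ⟨v, h1.1, ihc v j' (by have := h1.2.2; omega) hl.2.1 h2⟩
    · obtain ⟨⟨v, h1, h2⟩, h3⟩ := h
      refine ⟨?_, ihr y j hd2 hl.2.2 h3⟩
      match v, h1, h2 with
      | none, h1, _ =>
        rcases h1 with h1 | h1
        · omega
        · exact absurd hl.1 h1
      | some (v, j'), h1, h2 =>
        exact ⟨v, h1.1, ihc v j' (by have := h1.2.1; omega) hl.2.1 h2⟩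

end model

/-- Truncation lemma. -/
lemma pent_trunc {y : ℕ → X} {m : ℕ} {G : T X} {C D : ℕ → T X} (A : Set X) (N : ℕ)
    (hN : ∀ i ≤ m, (D i).depth ≤ N) (hA : ∀ i ≤ m, (D i).lettersIn A)
    (h : PEnt y m (post m G C) (post m G D)) :
    PEnt y m (post m (trunc A G N) C) (post m (trunc A G N) D) := by
  intro V R w hw hs
  rw [pSat_post] at hs ⊢
  refine ⟨hs.1, ?_⟩
  have h1 := h (Option (V × ℕ)) (trR R A) (fun i => some (w i, N))
    (fun i hi => ⟨hw i hi, by omega, by omega⟩)
    ((pSat_post (trR R A)).2 ⟨sat_of_trunc R A G _ _ hs.1,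
      fun i hi => sat_level R A _ _ _ (hs.2 i hi)⟩)
  have h2 := ((pSat_post (trR R A)).1 h1).2
  intro i hi
  exact sat_of_level R A _ _ N (hN i hi) (hA i hi) (h2 i hi)

/-- Finitely many formulas involve boundedly many letters and bounded depth. -/
lemma exists_bound (C : ℕ → T X) (m : ℕ) : ∃ (A : Finset X) (N : ℕ),
    ∀ i ≤ m, (C i).depth ≤ N ∧ (C i).lettersIn (A : Set X) := by
  classical
  have hone : ∀ t : T X, ∃ A : Finset X, t.lettersIn (A : Set X) := by
    intro t
    induction t with
    | nil => exact ⟨∅, trivial⟩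
    | cons d x c r ihc ihr =>
      obtain ⟨A, hA⟩ := ihc
      obtain ⟨B, hB⟩ := ihr
      have mono : ∀ (t : T X) (A B : Set X), A ⊆ B → t.lettersIn A → t.lettersIn B := by
        intro t A B hAB
        induction t with
        | nil => intro _; trivial
        | cons d x c r ihc ihr => exact fun h => ⟨hAB h.1, ihc h.2.1, ihr h.2.2⟩
      refine ⟨insert x (A ∪ B), ?_, ?_, ?_⟩
      · simp
      · refine mono c _ _ ?_ hA
        intro z hz
        simp only [Finset.coe_insert, Finset.coe_union]
        right; left; exact hz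
      · refine mono r _ _ ?_ hB
        intro z hz
        simp only [Finset.coe_insert, Finset.coe_union]
        right; right; exact hz
  have mono : ∀ (t : T X) (A B : Set X), A ⊆ B → t.lettersIn A → t.lettersIn B := by
    intro t A B hAB
    induction t with
    | nil => intro _; trivial
    | cons d x c r ihc ihr => exact fun h => ⟨hAB h.1, ihc h.2.1, ihr h.2.2⟩
  induction m with
  | zero =>
    obtain ⟨A, hA⟩ := hone (C 0)
    refine ⟨A, (C 0).depth, fun i hi => ?_⟩
    have : i = 0 := by omega
    subst this
    exact ⟨le_rfl, hA⟩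
  | succ m ih =>
    obtain ⟨A, N, h⟩ := ih
    obtain ⟨B, hB⟩ := hone (C (m + 1))
    refine ⟨A ∪ B, max N (C (m + 1)).depth, fun i hi => ?_⟩
    rcases Nat.eq_or_lt_of_le hi with h' | h'
    · subst h'
      refine ⟨le_max_right _ _, mono _ _ _ ?_ hB⟩
      intro z hz
      simp only [Finset.coe_union]
      right; exact hz
    · obtain ⟨h1, h2⟩ := h i (by omega)
      refine ⟨le_trans h1 (le_max_left _ _), mono _ _ _ ?_ h2⟩
      intro z hz
      simp only [Finset.coe_union]
      left; exact hz

lemma lettersIn_mono {t : T X} {A B : Set X} (hAB : A ⊆ B) (h : t.lettersIn A) :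
    t.lettersIn B := by
  induction t with
  | nil => trivial
  | cons d x c r ihc ihr => exact ⟨hAB h.1, ihc h.2.1, ihr h.2.2⟩

/-- The one-sided Howson statement for `|a| ≤ |b|`. -/
theorem rhow_aux [Nonempty X] (x y : ℕ → X) (A B : ℕ → T X) (n m : ℕ) (hnm : n ≤ m) :
    ∃ (r : FE X) (F : Finset (FE X)), ∀ s t : FE X,
      val gen x A n * s = val gen y B m * t →
      ∃ g ∈ F, val gen y B m * g = val gen x A n * (r * g) ∧ g * t = t := by
  classical
  -- trivial case: no solutions
  by_cases hex : ∃ s t : FE X, val gen x A n * s = val gen y B m * t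
  swap
  · push Not at hex
    exact ⟨1, ∅, fun s t h => absurd h (hex s t)⟩
  have hxy : ∀ i < n, x i = y i := by
    obtain ⟨s, t, hst⟩ := hex
    obtain ⟨z, S, k, rfl⟩ := exists_val s
    obtain ⟨z', T', l, rfl⟩ := exists_val t
    rw [← val_cat, ← val_cat] at hst
    obtain ⟨h1, h2⟩ := word_of_val_eq hst
    intro i hi
    have := h2 i (by omega)
    simpa [catX, hi, show i < m by omega] using this
  have hx : (val gen x A n : FE X) = val gen y A n := val_congr gen hxy (fun _ _ => rfl)
  -- data
  set S1 : T X := starT n y B with hS1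
  let D : ℕ → T X := catC n (post n S1 A) (fun j => B (n + j))
  have hcatX : catX n y (fun j => y (n + j)) = y := by
    funext i
    by_cases hi : i < n
    · simp [catX, hi]
    · simp only [catX, hi, if_false]
      congr 1
      omega
  -- value of `a * r * g`
  have hvalD : ∀ G : T X, (val gen y (post m G D) m : FE X) =
      val gen y A n * (ev gen S1 * val gen (fun j => y (n + j)) (fun j => B (n + j)) (m - n) *
        ev gen G) := by
    intro G
    rw [val_post]
    have e : n + (m - n) = m := by omega
    have h1 := val_cat (M := FE X) gen y (fun j => y (n + j)) (post n S1 A)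
      (fun j => B (n + j)) n (m - n)
    rw [hcatX, e] at h1
    have h2 : (val gen y D m : FE X) = _ := h1
    rw [h2, val_post]
    simp only [mul_assoc]
  obtain ⟨A1, N1, hb1⟩ := exists_bound B m
  obtain ⟨A2, N2, hb2⟩ := exists_bound D m
  obtain ⟨F, hF⟩ := finite_trunc (M := FE X) gen (A1 ∪ A2) (max N1 N2)
  refine ⟨ev gen S1 * val gen (fun j => y (n + j)) (fun j => B (n + j)) (m - n), F, ?_⟩
  intro s t hst
  obtain ⟨z, Sg, k, rfl⟩ := exists_val s
  obtain ⟨z', Tg, l, rfl⟩ := exists_val t
  set G : T X := plusT l z' Tg with hG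
  refine ⟨ev gen (trunc ((A1 ∪ A2 : Finset X) : Set X) G (max N1 N2)), hF G, ?_, ?_⟩
  swap
  · -- `g * t = t`
    have h1 := ev_le_trunc (M := FE X) gen ((A1 ∪ A2 : Finset X) : Set X) G (max N1 N2)
    have h2 : ev gen G = plus (val gen z' Tg l : FE X) := ev_plusT gen l z' Tg
    have h3 : ev gen G * val gen z' Tg l = (val gen z' Tg l : FE X) := by
      rw [h2, plus_mul_self]
    conv_lhs => rw [← h3]
    rw [← mul_assoc, (isProj_ev gen _).comm (isProj_ev gen _), h1, h3]
  -- the words of both sides
  rw [hx] at hst ⊢
  rw [← val_cat, ← val_cat] at hst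
  obtain ⟨hlen, hword⟩ := word_of_val_eq hst
  have hst' : (val gen (catX m y z') (catC n A Sg) (m + l) : FE X) =
      val gen (catX m y z') (catC m B Tg) (m + l) := by
    rw [← hst, ← hlen]
    exact val_congr gen (fun i hi => (hword i hi).symm) (fun _ _ => rfl)
  have hE1 := pent_of_val_eq hst'
  have hE2 := pent_of_val_eq hst'.symm
  -- restriction to the first `n` steps
  have hD1 : ∀ (V : Type u) (R : X → V → V → Prop) (w : ℕ → V),
      PSat R D m w ↔ (∀ i ≤ n, sat R (A i) (w i)) ∧ sat R S1 (w n) ∧
        ∀ i, n ≤ i → i ≤ m → sat R (B i) (w i) := by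
    intro V R w
    have e : n + (m - n) = m := by omega
    have hcat : ∀ i, catW n w (fun j => w (n + j)) i = w i := by
      intro i
      by_cases hi : i ≤ n
      · simp [catW, hi]
      · simp only [catW, hi, if_false]
        congr 1
        omega
    have h1 := pSat_cat (C := post n S1 A) (D := fun j => B (n + j)) (n := n) (k := m - n) R
      (q := w) (w := fun j => w (n + j)) rfl
    have h2 : catW n w (fun j => w (n + j)) = w := funext hcat
    rw [h2, e, pSat_post] at h1
    have h3 : PSat R D m w ↔ _ := h1
    rw [h3]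
    constructor
    · rintro ⟨⟨h4, h5⟩, h6⟩
      refine ⟨h5, h4, fun i hi1 hi2 => ?_⟩
      have := h6 (i - n) (by omega)
      have e2 : n + (i - n) = i := by omega
      simp only [e2] at this
      exact this
    · rintro ⟨h4, h5, h6⟩
      exact ⟨⟨h5, h4⟩, fun i hi => h6 (n + i) (by omega) (by omega)⟩
  -- first entailment
  have hK1 : PEnt y m (post m G B) (post m G D) := by
    intro V R w hw hs
    rw [pSat_post] at hs ⊢
    refine ⟨hs.1, ?_⟩
    obtain ⟨q, hq0, hq1, hq2⟩ := (sat_plusT R l z' Tg (w m)).1 hs.1
    have h1 := hE2 V R (catW m w q) (isPath_cat R hq0.symm hw hq1)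
      ((pSat_cat R hq0.symm).2 ⟨hs.2, hq2⟩)
    rw [hD1]
    refine ⟨fun i hi => ?_, ?_, fun i _ hi => hs.2 i hi⟩
    · have h2 := h1 i (by omega)
      rcases Nat.eq_or_lt_of_le hi with h' | h'
      · subst h'
        simp only [catC, catW, lt_irrefl, if_false, if_true, hnm, sat_append] at h2
        exact h2.1
      · simp only [catC, catW, h', show i ≤ m by omega, if_true] at h2
        exact h2
    · rw [hS1, sat_starT]
      exact ⟨w, rfl, fun i hi => hw i (by omega), fun i hi => hs.2 i (by omega)⟩
  -- second entailment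
  have hK2 : PEnt y m (post m G D) (post m G B) := by
    intro V R w hw hs
    rw [pSat_post] at hs ⊢
    refine ⟨hs.1, ?_⟩
    obtain ⟨hsG, hsD⟩ := hs
    rw [hD1] at hsD
    obtain ⟨hA, hSn, hB⟩ := hsD
    obtain ⟨p, hp0, hp1, hp2⟩ := (sat_plusT R l z' Tg (w m)).1 hsG
    rw [hS1, sat_starT] at hSn
    obtain ⟨q, hq0, hq1, hq2⟩ := hSn
    -- the path `q` followed by `w` from `n`
    let w' : ℕ → V := fun i => if i ≤ n then q i else w i
    have hw'n : ∀ i, n ≤ i → w' i = w i := by
      intro i hi
      rcases Nat.eq_or_lt_of_le hi with h' | h'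
      · subst h'
        simp only [w', le_refl, if_true, hq0]
      · simp only [w', show ¬ (i ≤ n) by omega, if_false]
    have hpath' : IsPath R y m w' := by
      intro i hi
      rcases Nat.lt_or_ge i n with h' | h'
      · simp only [w', show i ≤ n by omega, show i + 1 ≤ n by omega, if_true]
        exact hq1 i h'
      · rw [hw'n i h', hw'n (i + 1) (by omega)]
        exact hw i hi
    have hsat' : PSat R B m w' := by
      intro i hi
      rcases Nat.lt_or_ge i n with h' | h'
      · simp only [w', show i ≤ n by omega, if_true]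
        exact hq2 i (by omega)
      · rw [hw'n i h']
        exact hB i h' hi
    have hj' : w' m = p 0 := by rw [hw'n m hnm, hp0]
    have h1 := hE2 V R (catW m w' p) (isPath_cat R hj' hpath' hp1)
      ((pSat_cat R hj').2 ⟨hsat', hp2⟩)
    -- the path `w` followed by `p`
    have hj : w m = p 0 := hp0.symm
    have h2 : PSat R (catC n A Sg) (m + l) (catW m w p) := by
      intro i hi
      rcases Nat.lt_trichotomy i n with h' | h' | h'
      · simp only [catC, catW, h', show i ≤ m by omega, if_true]
        exact hA i (by omega)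
      · subst h'
        simp only [catC, catW, lt_irrefl, if_false, if_true, hnm, sat_append]
        refine ⟨hA i le_rfl, ?_⟩
        have h3 := h1 i hi
        simp only [catC, catW, lt_irrefl, if_false, if_true, hnm, sat_append] at h3
        rw [hw'n i le_rfl] at h3
        exact h3.2
      · have h3 := h1 i hi
        have e1 : ¬ (i < n) := by omega
        have e2 : ¬ (i = n) := by omega
        simp only [catC, e1, e2, if_false] at h3 ⊢
        have e3 : catW m w' p i = catW m w p i := by
          by_cases hi' : i ≤ m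
          · simp only [catW, hi', if_true]
            exact hw'n i (by omega)
          · simp only [catW, hi', if_false]
        rw [e3] at h3
        exact h3
    have h3 := hE1 V R (catW m w p) (isPath_cat R hj hw hp1) h2
    exact ((pSat_cat R hj).1 h3).1
  -- truncate
  have hT1 := pent_trunc ((A1 ∪ A2 : Finset X) : Set X) (max N1 N2)
    (fun i hi => le_trans (hb2 i hi).1 (le_max_right _ _))
    (fun i hi => lettersIn_mono (by
      intro z hz
      simp only [Finset.coe_union]
      right; exact hz) (hb2 i hi).2) hK1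
  have hT2 := pent_trunc ((A1 ∪ A2 : Finset X) : Set X) (max N1 N2)
    (fun i hi => le_trans (hb1 i hi).1 (le_max_left _ _))
    (fun i hi => lettersIn_mono (by
      intro z hz
      simp only [Finset.coe_union]
      left; exact hz) (hb1 i hi).2) hK2
  have h4 := val_eq_of_pent (M := FE X) gen hT1 hT2
  rw [hvalD, val_post] at h4
  exact h4

/-- `FE X` has the strong right Howson property. -/
theorem rhow_FE [Nonempty X] : RHow (FE X) := by
  intro a b
  obtain ⟨x, A, n, rfl⟩ := exists_val a
  obtain ⟨y, B, m, rfl⟩ := exists_val b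
  rcases Nat.le_total n m with h | h
  · left
    exact rhow_aux x y A B n m h
  · right
    obtain ⟨r, F, hF⟩ := rhow_aux y x B A m n h
    exact ⟨r, F, fun s t hst => hF t s hst.symm⟩

theorem weaklyRightCoherent_FE [Nonempty X] : WeaklyRightCoherent (FE X) :=
  weaklyRightCoherent_of (FE X) radq_FE rhow_FE

end Pool.Agent.H83.Ehr
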