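import Pool.Agent.H83.Ehr5

/-!
# The left-right dual
-/

universe u v

namespace Pool.Agent.H83.Ehr

open EhresmannMonoid MulOpposite

/-- The opposite of an Ehresmann monoid. -/
instance opEhr (M : Type v) [EhresmannMonoid M] : EhresmannMonoid Mᵐᵒᵖ where
  plus a := op (star (unop a))
  star a := op (plus (unop a))
  plus_mul_self a := unop_injective (mul_star_self (unop a))
  plus_comm a b := unop_injective (star_comm (unop b) (unop a))
  plus_plus_mul a b := unop_injective (by
    change star (unop b * star (unop a)) = star (unop b) * star (unop a)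
    exact star_mul_star _ _)
  plus_mul a b := unop_injective (star_mul (unop b) (unop a))
  mul_star_self a := unop_injective (plus_mul_self (unop a))
  star_comm a b := unop_injective (plus_comm (unop b) (unop a))
  star_mul_star a b := unop_injective (by
    change plus (plus (unop b) * unop a) = plus (unop b) * plus (unop a)
    exact plus_plus_mul _ _)
  star_mul a b := unop_injective (plus_mul (unop b) (unop a))
  star_plus a := unop_injective (plus_star (unop a))
  plus_star a := unop_injective (star_plus (unop a))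

variable {X : Type u}

/-- The reversal anti-automorphism of `FE X`. -/
def rev (a : FE X) : FE X := unop (lift (M := (FE X)ᵐᵒᵖ) (fun x => op (gen x)) a)

lemma rev_mul (a b : FE X) : rev (a * b) = rev b * rev a := by
  unfold rev; rw [lift_mul]; rfl

lemma rev_plus (a : FE X) : rev (plus a) = star (rev a) := by
  unfold rev; rw [lift_plus]; rfl

lemma rev_star (a : FE X) : rev (star a) = plus (rev a) := by
  unfold rev; rw [lift_star]; rfl

lemma rev_rev (a : FE X) : rev (rev a) = a := by
  refine Quotient.inductionOn a fun t => ?_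
  induction t with
  | var x => rfl
  | one => rfl
  | mul s t ihs iht =>
    have h : (Quotient.mk (termSetoid X) (Term.mul s t) : FE X) =
      (show FE X from Quotient.mk (termSetoid X) s) *
        (show FE X from Quotient.mk (termSetoid X) t) := rfl
    rw [h, rev_mul, rev_mul]
    exact congrArg₂ (· * ·) ihs iht
  | plus s ihs =>
    have h : (Quotient.mk (termSetoid X) (Term.plus s) : FE X) =
      plus (show FE X from Quotient.mk (termSetoid X) s) := rfl
    rw [h, rev_plus, rev_star]
    exact congrArg plus ihs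
  | star s ihs =>
    have h : (Quotient.mk (termSetoid X) (Term.star s) : FE X) =
      EhresmannMonoid.star (show FE X from Quotient.mk (termSetoid X) s) := rfl
    rw [h, rev_star, rev_plus]
    exact congrArg EhresmannMonoid.star ihs

/-- Left adequacy. -/
def LAdq (S : Type u) [EhresmannMonoid S] : Prop :=
  ∀ a u v : S, u * a = v * a → u * plus a = v * plus a

/-- A strong form of the left ideal Howson property. -/
def LHow (S : Type u) [EhresmannMonoid S] : Prop :=
  ∀ a b : S, (∃ (r : S) (F : Finset S), ∀ s t, s * a = t * b →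
      ∃ g ∈ F, g * b = (g * r) * a ∧ t * g = t) ∨
    (∃ (r : S) (F : Finset S), ∀ s t, s * a = t * b →
      ∃ g ∈ F, g * a = (g * r) * b ∧ s * g = s)

theorem weaklyLeftCoherent_of (S : Type u) [EhresmannMonoid S] (h1 : LAdq S) (h2 : LHow S) :
    WeaklyLeftCoherent S := by
  classical
  rintro I ⟨F, hF⟩
  obtain ⟨n, ⟨e⟩⟩ := Finite.exists_equiv_fin F
  let a : Fin n → S := fun i => (e.symm i : S)
  have haF : ∀ i, a i ∈ F := fun i => (e.symm i).2
  have hI : ∀ x, x ∈ I ↔ ∃ i s, x = s * a i := by
    intro x
    have : x ∈ I ↔ x ∈ (I : Set S) := Iff.rfl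
    rw [this, hF]
    constructor
    · rintro ⟨c, hc, s, rfl⟩
      refine ⟨e ⟨c, hc⟩, s, ?_⟩
      simp [a]
    · rintro ⟨i, s, rfl⟩
      exact ⟨a i, haF i, s, rfl⟩
  let f : Fin n × S → I := fun p => ⟨p.2 * a p.1, (hI _).2 ⟨p.1, p.2, rfl⟩⟩
  have h2' : ∀ i j : Fin n, ∃ G : Finset ((Fin n × S) × (Fin n × S)),
      (∀ pq ∈ G, f pq.1 = f pq.2) ∧
      ∀ s t, s * a i = t * a j → ∃ r s' t' : S, ((i, s'), (j, t')) ∈ G ∧
        s * a i = (r * s') * a i ∧ t * a j = (r * t') * a j := by
    intro i j
    rcases h2 (a i) (a j) with ⟨r, G, hG⟩ | ⟨r, G, hG⟩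
    · refine ⟨(G.filter (fun g => g * a j = (g * r) * a i)).image
        (fun g => ((i, g * r), (j, g))), ?_, ?_⟩
      · intro pq hpq
        rw [Finset.mem_image] at hpq
        obtain ⟨g, hg, rfl⟩ := hpq
        rw [Finset.mem_filter] at hg
        apply Subtype.ext
        exact hg.2.symm
      · intro s t hst
        obtain ⟨g, hg, h3, h4⟩ := hG s t hst
        refine ⟨t, g * r, g, ?_, ?_, ?_⟩
        · rw [Finset.mem_image]
          exact ⟨g, Finset.mem_filter.2 ⟨hg, h3⟩, rfl⟩
        · rw [hst, mul_assoc t, ← h3, ← mul_assoc, h4]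
        · rw [h4]
    · refine ⟨(G.filter (fun g => g * a i = (g * r) * a j)).image
        (fun g => ((i, g), (j, g * r))), ?_, ?_⟩
      · intro pq hpq
        rw [Finset.mem_image] at hpq
        obtain ⟨g, hg, rfl⟩ := hpq
        rw [Finset.mem_filter] at hg
        apply Subtype.ext
        exact hg.2
      · intro s t hst
        obtain ⟨g, hg, h3, h4⟩ := hG s t hst
        refine ⟨s, g, g * r, ?_, ?_, ?_⟩
        · rw [Finset.mem_image]
          exact ⟨g, Finset.mem_filter.2 ⟨hg, h3⟩, rfl⟩
        · rw [h4]
        · rw [← hst, mul_assoc s, ← h3, ← mul_assoc, h4]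
  choose G hG1 hG2 using h2'
  let H0 : Finset ((Fin n × S) × (Fin n × S)) :=
    (Finset.univ : Finset (Fin n)).image (fun i => ((i, plus (a i)), (i, 1)))
  let H1 : Finset ((Fin n × S) × (Fin n × S)) :=
    (Finset.univ : Finset (Fin n × Fin n)).biUnion (fun ij => G ij.1 ij.2)
  have hcancel : ∀ (i : Fin n) (u v : S), u * a i = v * a i →
      LeftCong ((H0 ∪ H1 : Finset _) : Set ((Fin n × S) × (Fin n × S))) (i, u) (i, v) := by
    intro i u v huv
    have h3 : ∀ w : S, LeftCong ((H0 ∪ H1 : Finset _) : Set ((Fin n × S) × (Fin n × S)))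
        (i, w * plus (a i)) (i, w) := by
      intro w
      have h4 : LeftCong ((H0 ∪ H1 : Finset _) : Set ((Fin n × S) × (Fin n × S)))
          (i, plus (a i)) (i, 1) := by
        apply LeftCong.of
        simp [H0]
      have h5 := LeftCong.act w h4
      simpa using h5
    have h4 := h1 (a i) u v huv
    have h5 := h3 u
    rw [h4] at h5
    exact (h5.symm).trans (h3 v)
  refine ⟨n, H0 ∪ H1, f, ?_, ?_, ?_⟩
  · rintro ⟨x, hx⟩
    obtain ⟨i, s, rfl⟩ := (hI x).1 hx
    exact ⟨(i, s), rfl⟩
  · intro i s u
    apply Subtype.ext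
    change (u * s) * a i = u * (s * a i)
    rw [mul_assoc]
  · intro p q
    constructor
    · obtain ⟨i, s⟩ := p
      obtain ⟨j, t⟩ := q
      intro hf
      have hst : s * a i = t * a j := congrArg Subtype.val hf
      obtain ⟨r, s', t', hmem, h3, h4⟩ := hG2 i j s t hst
      have h5 := hcancel i _ _ h3
      have h6 := hcancel j _ _ h4
      have h7 : LeftCong ((H0 ∪ H1 : Finset _) : Set ((Fin n × S) × (Fin n × S)))
          (i, s') (j, t') := by
        apply LeftCong.of
        rw [Finset.mem_coe, Finset.mem_union]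
        right
        rw [Finset.mem_biUnion]
        exact ⟨(i, j), Finset.mem_univ _, hmem⟩
      have h8 := LeftCong.act r h7
      exact (h5.trans h8).trans h6.symm
    · intro hr
      induction hr with
      | of hmem =>
        rw [Finset.mem_coe, Finset.mem_union] at hmem
        rcases hmem with hmem | hmem
        · rw [Finset.mem_image] at hmem
          obtain ⟨k, _, hk⟩ := hmem
          rw [Prod.mk.injEq] at hk
          rw [← hk.1, ← hk.2]
          apply Subtype.ext
          change plus (a k) * a k = 1 * a k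
          rw [plus_mul_self, one_mul]
        · rw [Finset.mem_biUnion] at hmem
          obtain ⟨ij, _, hmem⟩ := hmem
          exact hG1 ij.1 ij.2 _ hmem
      | refl p => rfl
      | symm _ ih => exact ih.symm
      | trans _ _ ih1 ih2 => exact ih1.trans ih2
      | act u _ ih =>
        have h3 := congrArg Subtype.val ih
        apply Subtype.ext
        change (u * _) * a _ = (u * _) * a _
        rw [mul_assoc, mul_assoc]
        exact congrArg (u * ·) h3

theorem ladq_FE [Nonempty X] : LAdq (FE X) := by
  intro a u v h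
  have h1 := congrArg rev h
  rw [rev_mul, rev_mul] at h1
  have h2 := congrArg rev (radq_FE (rev a) (rev u) (rev v) h1)
  rw [rev_mul, rev_mul, rev_star, rev_rev, rev_rev, rev_rev] at h2
  exact h2

theorem lhow_FE [Nonempty X] : LHow (FE X) := by
  classical
  intro a b
  rcases rhow_FE (rev a) (rev b) with ⟨r, F, hF⟩ | ⟨r, F, hF⟩
  · left
    refine ⟨rev r, F.image rev, fun s t hst => ?_⟩
    have h1 := congrArg rev hst
    rw [rev_mul, rev_mul] at h1
    obtain ⟨g, hg, h2, h3⟩ := hF _ _ h1
    refine ⟨rev g, Finset.mem_image_of_mem _ hg, ?_, ?_⟩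
    · have := congrArg rev h2
      rwa [rev_mul, rev_mul, rev_mul, rev_rev, rev_rev] at this
    · have := congrArg rev h3
      rwa [rev_mul, rev_rev] at this
  · right
    refine ⟨rev r, F.image rev, fun s t hst => ?_⟩
    have h1 := congrArg rev hst
    rw [rev_mul, rev_mul] at h1
    obtain ⟨g, hg, h2, h3⟩ := hF _ _ h1
    refine ⟨rev g, Finset.mem_image_of_mem _ hg, ?_, ?_⟩
    · have := congrArg rev h2
      rwa [rev_mul, rev_mul, rev_mul, rev_rev, rev_rev] at this
    · have := congrArg rev h3
      rwa [rev_mul, rev_rev] at this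

theorem weaklyLeftCoherent_FE [Nonempty X] : WeaklyLeftCoherent (FE X) :=
  weaklyLeftCoherent_of (FE X) ladq_FE lhow_FE

end Pool.Agent.H83.Ehr
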