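import Mathlib.Algebra.Group.Opposite
import Mathlib.GroupTheory.GroupAction.SubMulAction
import Mathlib.Data.Finset.Basic

/-!
# Ehresmann monoids, the free Ehresmann monoid, and weak coherence

Definitions only.
-/

universe u

namespace Pool.Agent.H83.Ehr

/-- An Ehresmann monoid: a monoid with two unary operations `x ↦ plus x = x⁺` and
`x ↦ star x = x*` satisfying the ten defining identities. -/
class EhresmannMonoid (S : Type u) extends Monoid S where
  plus : S → S
  star : S → S
  plus_mul_self : ∀ x : S, plus x * x = x
  plus_comm : ∀ x y : S, plus x * plus y = plus y * plus x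
  plus_plus_mul : ∀ x y : S, plus (plus x * y) = plus x * plus y
  plus_mul : ∀ x y : S, plus (x * y) = plus (x * plus y)
  mul_star_self : ∀ x : S, x * star x = x
  star_comm : ∀ x y : S, star x * star y = star y * star x
  star_mul_star : ∀ x y : S, star (x * star y) = star x * star y
  star_mul : ∀ x y : S, star (x * y) = star (star x * y)
  star_plus : ∀ x : S, star (plus x) = plus x
  plus_star : ∀ x : S, plus (star x) = star x

/-- Terms over `X` in the signature `(·, 1, ⁺, *)`. -/
inductive Term (X : Type u) : Type u
  | var : X → Term X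
  | one : Term X
  | mul : Term X → Term X → Term X
  | plus : Term X → Term X
  | star : Term X → Term X

/-- The equational theory of Ehresmann monoids on terms: the least congruence containing all
instances of the monoid identities and of the ten identities of Ehresmann monoids. -/
inductive Term.Eqv {X : Type u} : Term X → Term X → Prop
  | refl (s : Term X) : Eqv s s
  | symm {s t : Term X} : Eqv s t → Eqv t s
  | trans {s t r : Term X} : Eqv s t → Eqv t r → Eqv s r
  | congr_mul {s s' t t' : Term X} : Eqv s s' → Eqv t t' → Eqv (.mul s t) (.mul s' t')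
  | congr_plus {s s' : Term X} : Eqv s s' → Eqv (.plus s) (.plus s')
  | congr_star {s s' : Term X} : Eqv s s' → Eqv (.star s) (.star s')
  | mul_assoc (x y z : Term X) : Eqv (.mul (.mul x y) z) (.mul x (.mul y z))
  | one_mul (x : Term X) : Eqv (.mul .one x) x
  | mul_one (x : Term X) : Eqv (.mul x .one) x
  | plus_mul_self (x : Term X) : Eqv (.mul (.plus x) x) x
  | plus_comm (x y : Term X) : Eqv (.mul (.plus x) (.plus y)) (.mul (.plus y) (.plus x))
  | plus_plus_mul (x y : Term X) : Eqv (.plus (.mul (.plus x) y)) (.mul (.plus x) (.plus y))
  | plus_mul (x y : Term X) : Eqv (.plus (.mul x y)) (.plus (.mul x (.plus y)))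
  | mul_star_self (x : Term X) : Eqv (.mul x (.star x)) x
  | star_comm (x y : Term X) : Eqv (.mul (.star x) (.star y)) (.mul (.star y) (.star x))
  | star_mul_star (x y : Term X) : Eqv (.star (.mul x (.star y))) (.mul (.star x) (.star y))
  | star_mul (x y : Term X) : Eqv (.star (.mul x y)) (.star (.mul (.star x) y))
  | star_plus (x : Term X) : Eqv (.star (.plus x)) (.plus x)
  | plus_star (x : Term X) : Eqv (.plus (.star x)) (.star x)

/-- The setoid of the equational theory. -/
def termSetoid (X : Type u) : Setoid (Term X) :=
  ⟨Term.Eqv, ⟨Term.Eqv.refl, Term.Eqv.symm, Term.Eqv.trans⟩⟩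

/-- The free Ehresmann monoid `FE(X)`: terms over `X` modulo the equational theory of
Ehresmann monoids. -/
def FE (X : Type u) : Type u := Quotient (termSetoid X)

instance (X : Type u) : EhresmannMonoid (FE X) where
  mul := Quotient.map₂ Term.mul fun _ _ h _ _ h' => Term.Eqv.congr_mul h h'
  one := Quotient.mk (termSetoid X) Term.one
  plus := Quotient.map Term.plus fun _ _ h => Term.Eqv.congr_plus h
  star := Quotient.map Term.star fun _ _ h => Term.Eqv.congr_star h
  mul_assoc a b c := Quotient.inductionOn₃ a b c fun x y z =>
    Quotient.sound (Term.Eqv.mul_assoc x y z)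
  one_mul a := Quotient.inductionOn a fun x => Quotient.sound (Term.Eqv.one_mul x)
  mul_one a := Quotient.inductionOn a fun x => Quotient.sound (Term.Eqv.mul_one x)
  plus_mul_self a := Quotient.inductionOn a fun x => Quotient.sound (Term.Eqv.plus_mul_self x)
  plus_comm a b := Quotient.inductionOn₂ a b fun x y => Quotient.sound (Term.Eqv.plus_comm x y)
  plus_plus_mul a b := Quotient.inductionOn₂ a b fun x y =>
    Quotient.sound (Term.Eqv.plus_plus_mul x y)
  plus_mul a b := Quotient.inductionOn₂ a b fun x y => Quotient.sound (Term.Eqv.plus_mul x y)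
  mul_star_self a := Quotient.inductionOn a fun x => Quotient.sound (Term.Eqv.mul_star_self x)
  star_comm a b := Quotient.inductionOn₂ a b fun x y => Quotient.sound (Term.Eqv.star_comm x y)
  star_mul_star a b := Quotient.inductionOn₂ a b fun x y =>
    Quotient.sound (Term.Eqv.star_mul_star x y)
  star_mul a b := Quotient.inductionOn₂ a b fun x y => Quotient.sound (Term.Eqv.star_mul x y)
  star_plus a := Quotient.inductionOn a fun x => Quotient.sound (Term.Eqv.star_plus x)
  plus_star a := Quotient.inductionOn a fun x => Quotient.sound (Term.Eqv.plus_star x)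

/-- The congruence generated by `H` on the free right `S`-act `Fin n × S` of rank `n`, whose
action is `(i, s) · u = (i, s * u)`. -/
inductive RightCong {S : Type u} [Monoid S] {n : ℕ} (H : Set ((Fin n × S) × (Fin n × S))) :
    Fin n × S → Fin n × S → Prop
  | of {p q : Fin n × S} : (p, q) ∈ H → RightCong H p q
  | refl (p : Fin n × S) : RightCong H p p
  | symm {p q : Fin n × S} : RightCong H p q → RightCong H q p
  | trans {p q r : Fin n × S} : RightCong H p q → RightCong H q r → RightCong H p r
  | act {p q : Fin n × S} (u : S) : RightCong H p q →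
      RightCong H (p.1, p.2 * u) (q.1, q.2 * u)

/-- A right `S`-act `A` is finitely presented if it is a quotient of a free right `S`-act
`Fin n × S` of finite rank by a finitely generated congruence, i.e. there is a surjective
morphism of right acts `f : Fin n × S → A` whose kernel is generated by a finite set. -/
def IsFinitelyPresentedRightAct (S A : Type u) [Monoid S] [MulAction Sᵐᵒᵖ A] : Prop :=
  ∃ (n : ℕ) (H : Finset ((Fin n × S) × (Fin n × S))) (f : Fin n × S → A),
    Function.Surjective f ∧
    (∀ (i : Fin n) (s u : S), f (i, s * u) = MulOpposite.op u • f (i, s)) ∧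
    ∀ p q, f p = f q ↔ RightCong (H : Set ((Fin n × S) × (Fin n × S))) p q

/-- `S` is weakly right coherent: every finitely generated right ideal of `S` is finitely
presented as a right `S`-act. -/
def WeaklyRightCoherent (S : Type u) [Monoid S] : Prop :=
  ∀ I : SubMulAction Sᵐᵒᵖ S,
    (∃ F : Finset S, (I : Set S) = {x | ∃ a ∈ F, ∃ s : S, x = a * s}) →
      IsFinitelyPresentedRightAct S I

/-- The congruence generated by `H` on the free left `S`-act `Fin n × S` of rank `n`, whose
action is `u · (i, s) = (i, u * s)`. -/
inductive LeftCong {S : Type u} [Monoid S] {n : ℕ} (H : Set ((Fin n × S) × (Fin n × S))) :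
    Fin n × S → Fin n × S → Prop
  | of {p q : Fin n × S} : (p, q) ∈ H → LeftCong H p q
  | refl (p : Fin n × S) : LeftCong H p p
  | symm {p q : Fin n × S} : LeftCong H p q → LeftCong H q p
  | trans {p q r : Fin n × S} : LeftCong H p q → LeftCong H q r → LeftCong H p r
  | act {p q : Fin n × S} (u : S) : LeftCong H p q →
      LeftCong H (p.1, u * p.2) (q.1, u * q.2)

/-- A left `S`-act `A` is finitely presented if it is a quotient of a free left `S`-act
`Fin n × S` of finite rank by a finitely generated congruence. -/
def IsFinitelyPresentedLeftAct (S A : Type u) [Monoid S] [MulAction S A] : Prop :=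
  ∃ (n : ℕ) (H : Finset ((Fin n × S) × (Fin n × S))) (f : Fin n × S → A),
    Function.Surjective f ∧
    (∀ (i : Fin n) (s u : S), f (i, u * s) = u • f (i, s)) ∧
    ∀ p q, f p = f q ↔ LeftCong (H : Set ((Fin n × S) × (Fin n × S))) p q

/-- `S` is weakly left coherent: every finitely generated left ideal of `S` is finitely
presented as a left `S`-act. -/
def WeaklyLeftCoherent (S : Type u) [Monoid S] : Prop :=
  ∀ I : SubMulAction S S,
    (∃ F : Finset S, (I : Set S) = {x | ∃ a ∈ F, ∃ s : S, x = s * a}) →
      IsFinitelyPresentedLeftAct S I

end Pool.Agent.H83.Ehr
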